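import Mathlib

/-!
Linear-algebra core of the proof of Roudneff's bound on complete cells.

`f` assigns to every `d`-set a vector, `F d f E s` is the multilinear form
`∑_{S ⊆ E, |S| = d} s_S • f S`.  If `F` vanishes on every circuit with one element deleted,
and the ground set has at least `2d+1` elements, then `f` vanishes on all `d`-sets.
-/

set_option autoImplicit false

namespace Pool.Agent.Lib.MP_a97014_co

open Finset

variable {α : Type*} [DecidableEq α] {W : Type*} [AddCommGroup W] [Module ℚ W]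

/-- the degree `d` multilinear form of `f` on the set `E` evaluated at `s` -/
def F (d : ℕ) (f : Finset α → W) (E : Finset α) (s : α → ℚ) : W :=
  ∑ S ∈ E.powersetCard d, (∏ i ∈ S, s i) • f S

/-- being plus or minus one -/
def PM (q : ℚ) : Prop := q = 1 ∨ q = -1

theorem PM.mul {a b : ℚ} (ha : PM a) (hb : PM b) : PM (a * b) := by
  rcases ha with rfl | rfl <;> rcases hb with rfl | rfl <;> simp [PM]

theorem PM.neg {a : ℚ} (ha : PM a) : PM (-a) := by
  rcases ha with rfl | rfl <;> simp [PM]

theorem PM.sq {a : ℚ} (ha : PM a) : a * a = 1 := by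
  rcases ha with rfl | rfl <;> simp

theorem PM.ne_zero {a : ℚ} (ha : PM a) : a ≠ 0 := by
  rcases ha with rfl | rfl <;> simp

theorem PM.one : PM 1 := Or.inl rfl

omit [DecidableEq α] in
theorem F_congr (d : ℕ) (f : Finset α → W) (E : Finset α) {s t : α → ℚ}
    (h : ∀ i ∈ E, s i = t i) : F d f E s = F d f E t := by
  unfold F
  refine sum_congr rfl fun S hS => ?_
  rw [mem_powersetCard] at hS
  congr 1
  exact prod_congr rfl fun i hi => h i (hS.1 hi)

omit [DecidableEq α] in
theorem F_scale (d : ℕ) (f : Finset α → W) (E : Finset α) (s : α → ℚ) (c : ℚ) :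
    F d f E (fun i => c * s i) = c ^ d • F d f E s := by
  unfold F
  rw [smul_sum]
  refine sum_congr rfl fun S hS => ?_
  rw [mem_powersetCard] at hS
  rw [prod_mul_distrib, prod_const, hS.2, smul_smul]

theorem F_erase (d : ℕ) (f : Finset α → W) (E : Finset α) (s : α → ℚ) (x : α) :
    F d f (E.erase x) s
      = ∑ S ∈ E.powersetCard d, if x ∈ S then 0 else (∏ i ∈ S, s i) • f S := by
  unfold F
  have : (E.erase x).powersetCard d = (E.powersetCard d).filter (fun S => x ∉ S) := by
    ext S
    simp only [mem_powersetCard, mem_filter, subset_erase]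
    tauto
  rw [this, sum_filter]
  refine sum_congr rfl fun S _ => ?_
  by_cases h : x ∈ S <;> simp [h]

theorem sum_F_erase (d : ℕ) (f : Finset α → W) (E : Finset α) (s : α → ℚ) :
    ∑ x ∈ E, F d f (E.erase x) s = ((E.card - d : ℕ) : ℚ) • F d f E s := by
  simp only [F_erase]
  rw [sum_comm]
  unfold F
  rw [smul_sum]
  refine sum_congr rfl fun S hS => ?_
  rw [mem_powersetCard] at hS
  have h1 : ∀ x ∈ E, (if x ∈ S then (0 : W) else (∏ i ∈ S, s i) • f S)
      = if x ∉ S then (∏ i ∈ S, s i) • f S else 0 := by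
    intro x _
    by_cases h : x ∈ S <;> simp [h]
  rw [sum_congr rfl h1, ← sum_filter, sum_const]
  have h2 : E.filter (fun x => x ∉ S) = E \ S := by
    ext x; simp
  rw [h2, card_sdiff_of_subset hS.1, hS.2, Nat.cast_smul_eq_nsmul]

theorem F_flip (d : ℕ) (f : Finset α → W) (E : Finset α) (s : α → ℚ) (a : α) :
    F d f E s + F d f E (Function.update s a (-s a)) = (2 : ℚ) • F d f (E.erase a) s := by
  rw [F_erase]
  unfold F
  rw [← sum_add_distrib, smul_sum]
  refine sum_congr rfl fun S _ => ?_
  by_cases h : a ∈ S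
  · rw [if_pos h, smul_zero, ← add_smul, prod_update_of_mem h, ← mul_prod_erase S s h,
      sdiff_singleton_eq_erase]
    simp
  · rw [if_neg h, prod_update_of_notMem h, two_smul]

/-- inclusion-exclusion -/
theorem sum_powerset_F [Fintype α] (d : ℕ) (f : Finset α → W) (s : α → ℚ) (S : Finset α)
    (hS : S.card = d) :
    ∑ U ∈ S.powerset, ((-1 : ℚ) ^ U.card) • F d f (univ \ U) s = (∏ i ∈ S, s i) • f S := by
  have h1 : ∀ U : Finset α, F d f (univ \ U) s
      = ∑ T ∈ (univ : Finset α).powersetCard d,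
          if Disjoint U T then (∏ i ∈ T, s i) • f T else 0 := by
    intro U
    unfold F
    rw [← sum_filter]
    congr 1
    ext T
    simp only [mem_powersetCard, mem_filter, subset_sdiff, subset_univ, true_and]
    rw [disjoint_comm]
    tauto
  simp only [h1, smul_sum]
  rw [sum_comm]
  have h2 : ∀ T ∈ (univ : Finset α).powersetCard d,
      (∑ U ∈ S.powerset, ((-1 : ℚ) ^ U.card) •
          (if Disjoint U T then (∏ i ∈ T, s i) • f T else 0))
        = if T = S then (∏ i ∈ T, s i) • f T else 0 := by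
    intro T hT
    rw [mem_powersetCard] at hT
    have h3 : ∀ U ∈ S.powerset, ((-1 : ℚ) ^ U.card) •
          (if Disjoint U T then (∏ i ∈ T, s i) • f T else 0)
        = if Disjoint U T then ((-1 : ℚ) ^ U.card) • ((∏ i ∈ T, s i) • f T) else 0 := by
      intro U _
      split_ifs <;> simp
    rw [sum_congr rfl h3, ← sum_filter, ← sum_smul]
    have h4 : S.powerset.filter (fun U => Disjoint U T) = (S \ T).powerset := by
      ext U
      simp [subset_sdiff]
    have h5 : ∑ U ∈ (S \ T).powerset, ((-1 : ℚ) ^ U.card) = if S \ T = ∅ then 1 else 0 := by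
      have := sum_powerset_neg_one_pow_card (x := S \ T)
      have h6 := congrArg (fun z : ℤ => (z : ℚ)) this
      push_cast at h6
      rw [h6]
    rw [h4, h5]
    by_cases h : T = S
    · simp [h]
    · have : S \ T ≠ ∅ := by
        intro h7
        rw [sdiff_eq_empty_iff_subset] at h7
        exact h (eq_of_subset_of_card_le h7 (by omega)).symm
      simp [h, this]
  rw [sum_congr rfl h2, sum_ite_eq']
  simp [mem_powersetCard, hS]

/-- the tournament on `G \ {x}` attached to a signature -/
def u (σ : Finset α → α → ℚ) (G : Finset α) (x a b : α) : ℚ :=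
  σ (G.erase a) x * σ (G.erase a) b * σ (G.erase x) b

/-- the properties of the circuit signature of a uniform oriented matroid that are used -/
structure Sig (d : ℕ) (σ : Finset α → α → ℚ) : Prop where
  pm : ∀ D : Finset α, D.card = d + 2 → ∀ i ∈ D, PM (σ D i)
  anti : ∀ G : Finset α, G.card = d + 3 → ∀ x ∈ G, ∀ a ∈ G, ∀ b ∈ G, a ≠ x → b ≠ x → a ≠ b →
    u σ G x a b = - u σ G x b a
  trans : ∀ G : Finset α, G.card = d + 3 → ∀ x ∈ G, ∀ a ∈ G, ∀ b ∈ G, ∀ c ∈ G,
    a ≠ x → b ≠ x → c ≠ x → a ≠ b → b ≠ c → a ≠ c →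
    ¬ (u σ G x a b = u σ G x b c ∧ u σ G x b c = u σ G x c a)

theorem Sig.u_pm {d : ℕ} {σ : Finset α → α → ℚ} (h : Sig d σ) {G : Finset α}
    (hG : G.card = d + 3) {x a b : α} (hx : x ∈ G) (ha : a ∈ G) (hb : b ∈ G)
    (hax : a ≠ x) (hbx : b ≠ x) (hab : a ≠ b) : PM (u σ G x a b) := by
  have c1 : (G.erase a).card = d + 2 := by rw [card_erase_of_mem ha]; omega
  have c2 : (G.erase x).card = d + 2 := by rw [card_erase_of_mem hx]; omega
  unfold u
  refine PM.mul (PM.mul (h.pm _ c1 _ ?_) (h.pm _ c1 _ ?_)) (h.pm _ c2 _ ?_)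
  · exact mem_erase.2 ⟨hax.symm, hx⟩
  · exact mem_erase.2 ⟨hab.symm, hb⟩
  · exact mem_erase.2 ⟨hbx, hb⟩

/-- vanishing on `E` minus a point, for all sign vectors containing a circuit inside `E` -/
def Q (d : ℕ) (σ : Finset α → α → ℚ) (f : Finset α → W) (E : Finset α) : Prop :=
  ∀ s : α → ℚ, (∀ i, PM (s i)) → ∀ D ⊆ E, D.card = d + 2 → ∀ ε : ℚ, PM ε →
    (∀ i ∈ D, s i = ε * σ D i) → ∀ x ∈ E, F d f (E.erase x) s = 0

theorem Q.whole {d : ℕ} {σ : Finset α → α → ℚ} {f : Finset α → W} {E : Finset α}
    (h : Q d σ f E) (s : α → ℚ) (hs : ∀ i, PM (s i)) (D : Finset α) (hD : D ⊆ E)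
    (hc : D.card = d + 2) (ε : ℚ) (hε : PM ε) (hsD : ∀ i ∈ D, s i = ε * σ D i) :
    F d f E s = 0 := by
  have h1 := sum_F_erase d f E s
  rw [sum_eq_zero (fun x hx => h s hs D hD hc ε hε hsD x hx)] at h1
  have h2 : E.card - d ≠ 0 := by
    have := card_le_card hD
    omega
  have h3 : ((E.card - d : ℕ) : ℚ) ≠ 0 := by exact_mod_cast h2
  exact (smul_eq_zero.1 h1.symm).resolve_left h3

/-- the sign vectors met in the walk around the rank two minor -/
def tv (σ : Finset α → α → ℚ) (G : Finset α) (x : α) (s : α → ℚ) (a : α) (δ : ℚ) : α → ℚ :=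
  fun i => if i = a then δ * σ (G.erase x) a
    else if i ∈ G then σ (G.erase a) x * σ (G.erase a) i else s i

theorem walk {d : ℕ} {σ : Finset α → α → ℚ} (hσ : Sig d σ) {f : Finset α → W} {E G : Finset α}
    (hGE : G ⊆ E) (hG : G.card = d + 3) (ih : ∀ a ∈ G, Q d σ f (E.erase a))
    {x : α} (hx : x ∈ G) (s : α → ℚ) (hs : ∀ i, PM (s i)) :
    ∀ a ∈ G, a ≠ x → ∀ δ : ℚ, PM δ → F d f (E.erase x) (tv σ G x s a δ) = 0 := by
  have cE : ∀ a ∈ G, (G.erase a).card = d + 2 := by
    intro a ha; rw [card_erase_of_mem ha]; omega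
  have tpm : ∀ a ∈ G, a ≠ x → ∀ δ : ℚ, PM δ → ∀ i, PM (tv σ G x s a δ i) := by
    intro a ha hax δ hδ i
    unfold tv
    split_ifs with h1 h2
    · exact hδ.mul (hσ.pm _ (cE x hx) _ (mem_erase.2 ⟨hax, ha⟩))
    · exact (hσ.pm _ (cE a ha) _ (mem_erase.2 ⟨hax.symm, hx⟩)).mul
        (hσ.pm _ (cE a ha) _ (mem_erase.2 ⟨h1, h2⟩))
    · exact hs i
  have tval : ∀ a ∈ G, ∀ δ : ℚ, ∀ i ∈ G, i ≠ a → i ≠ x →
      tv σ G x s a δ i = u σ G x a i * σ (G.erase x) i := by
    intro a _ δ i hi hia hix
    have := (hσ.pm _ (cE x hx) i (mem_erase.2 ⟨hix, hi⟩)).sq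
    unfold tv u
    rw [if_neg hia, if_pos hi, mul_assoc (σ (G.erase a) x * σ (G.erase a) i), this, mul_one]
  -- flipping the free coordinate
  have flip : ∀ a ∈ G, a ≠ x → ∀ δ : ℚ, PM δ → F d f (E.erase x) (tv σ G x s a δ) = 0 →
      F d f (E.erase x) (tv σ G x s a (-δ)) = 0 := by
    intro a ha hax δ hδ h0
    have h1 : F d f ((E.erase a).erase x) (tv σ G x s a δ) = 0 := by
      refine ih a ha _ (tpm a ha hax δ hδ) (G.erase a) (erase_subset_erase a hGE) (cE a ha)
        (σ (G.erase a) x) (hσ.pm _ (cE a ha) _ (mem_erase.2 ⟨hax.symm, hx⟩)) ?_ x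
        (mem_erase.2 ⟨hax.symm, hGE hx⟩)
      intro i hi
      rw [mem_erase] at hi
      unfold tv
      rw [if_neg hi.1, if_pos hi.2]
    have h2 := F_flip d f (E.erase x) (tv σ G x s a δ) a
    rw [erase_right_comm, h1, h0, smul_zero, zero_add] at h2
    rw [← h2]
    refine F_congr d f _ fun i _ => ?_
    by_cases hia : i = a
    · subst hia
      simp [tv]
    · rw [Function.update_of_ne hia]
      simp [tv, hia]
  -- the lower sets
  let L : α → Finset α := fun a => ((G.erase x).erase a).filter (fun b => u σ G x a b = -1)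
  have memL : ∀ a b, b ∈ L a ↔ (b ≠ a ∧ b ≠ x ∧ b ∈ G) ∧ u σ G x a b = -1 := by
    intro a b
    simp [L]
  have sub : ∀ a ∈ G, a ≠ x → ∀ p ∈ L a, L p ⊆ (L a).erase p := by
    intro a ha hax p hp b hb
    rw [memL] at hp hb
    obtain ⟨⟨hpa, hpx, hpG⟩, hap⟩ := hp
    obtain ⟨⟨hbp, hbx, hbG⟩, hpb⟩ := hb
    have hba : b ≠ a := by
      rintro rfl
      have := hσ.anti G hG x hx b hbG p hpG hbx hpx hbp
      rw [hap, hpb] at this
      norm_num at this
    rw [mem_erase, memL]
    refine ⟨hbp, ⟨hba, hbx, hbG⟩, ?_⟩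
    have h1 := hσ.trans G hG x hx a ha p hpG b hbG hax hpx hbx hpa.symm hbp.symm hba.symm
    have h2 := hσ.anti G hG x hx a ha b hbG hax hbx hba.symm
    rcases hσ.u_pm hG hx hbG ha hbx hax hba with h3 | h3
    · rw [h2, h3]
    · exact absurd ⟨by rw [hap, hpb], by rw [hpb, h3]⟩ h1
  have lt : ∀ a ∈ G, a ≠ x → ∀ p ∈ L a, (L p).card < (L a).card := by
    intro a ha hax p hp
    have h1 := card_le_card (sub a ha hax p hp)
    rw [card_erase_of_mem hp] at h1
    have := card_pos.2 ⟨p, hp⟩
    omega
  have main : ∀ k, ∀ a ∈ G, a ≠ x → (L a).card = k →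
      F d f (E.erase x) (tv σ G x s a 1) = 0 := by
    intro k
    induction k using Nat.strong_induction_on with
    | _ k IH =>
      intro a ha hax hk
      rcases (L a).eq_empty_or_nonempty with h0 | hne
      · refine (ih x hx).whole _ (tpm a ha hax 1 PM.one) (G.erase x) (erase_subset_erase x hGE)
          (cE x hx) 1 PM.one ?_
        intro i hi
        rw [mem_erase] at hi
        by_cases hia : i = a
        · subst hia
          simp [tv]
        · rw [tval a ha 1 i hi.2 hia hi.1]
          rcases hσ.u_pm hG hx ha hi.2 hax hi.1 (Ne.symm hia) with h3 | h3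
          · rw [h3]
          · have : i ∈ L a := (memL a i).2 ⟨⟨hia, hi.1, hi.2⟩, h3⟩
            rw [h0] at this
            simp at this
      · obtain ⟨p, hp, hmax⟩ := exists_max_image (L a) (fun b => (L b).card) hne
        have hp' := (memL a p).1 hp
        obtain ⟨⟨hpa, hpx, hpG⟩, hap⟩ := hp'
        have h1 := IH _ (hk ▸ lt a ha hax p hp) p hpG hpx rfl
        have h2 := flip p hpG hpx 1 PM.one h1
        rw [← h2]
        refine F_congr d f _ fun i hi => ?_
        rw [mem_erase] at hi
        by_cases hiG : i ∈ G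
        · by_cases hia : i = a
          · subst hia
            rw [tval p hpG _ i hiG (Ne.symm hpa) hax,
              hσ.anti G hG x hx p hpG i ha hpx hax hpa, hap]
            simp [tv]
          · by_cases hip : i = p
            · subst hip
              rw [tval a ha _ i hiG hia hi.1, hap]
              simp [tv]
            · rw [tval a ha _ i hiG hia hi.1, tval p hpG _ i hiG hip hi.1]
              congr 1
              rcases hσ.u_pm hG hx hpG hiG hpx hi.1 (Ne.symm hip) with h3 | h3
              · rcases hσ.u_pm hG hx ha hiG hax hi.1 (Ne.symm hia) with h4 | h4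
                · rw [h3, h4]
                · exfalso
                  have hiL : i ∈ L a := (memL a i).2 ⟨⟨hia, hi.1, hiG⟩, h4⟩
                  have hpi : p ∈ L i := by
                    refine (memL i p).2 ⟨⟨Ne.symm hip, hpx, hpG⟩, ?_⟩
                    rw [hσ.anti G hG x hx i hiG p hpG hi.1 hpx hip, h3]
                  have h5 := lt i hiG hi.1 p hpi
                  have h6 := hmax i hiL
                  omega
              · have hiL : i ∈ L p := (memL p i).2 ⟨⟨hip, hi.1, hiG⟩, h3⟩
                have := (memL a i).1 (mem_of_mem_erase (sub a ha hax p hp hiL))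
                rw [h3, this.2]
        · have hia : i ≠ a := fun h => hiG (h ▸ ha)
          have hip : i ≠ p := fun h => hiG (h ▸ hpG)
          simp [tv, hia, hip, hiG]
  intro a ha hax δ hδ
  rcases hδ with rfl | rfl
  · exact main _ a ha hax rfl
  · exact flip a ha hax 1 PM.one (main _ a ha hax rfl)

theorem Q_all {d : ℕ} {σ : Finset α → α → ℚ} (hσ : Sig d σ) {f : Finset α → W}
    (hf : ∀ D : Finset α, D.card = d + 2 → ∀ e ∈ D, F d f (D.erase e) (σ D) = 0) :
    ∀ m, ∀ E : Finset α, E.card = d + 2 + m → Q d σ f E := by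
  intro m
  induction m with
  | zero =>
    intro E hE s _ D hD hc ε _ hsD x hx
    have hDE : D = E := eq_of_subset_of_card_le hD (by omega)
    subst hDE
    rw [F_congr d f _ (t := fun i => ε * σ D i) (fun i hi => hsD i (mem_of_mem_erase hi)),
      F_scale, hf D hc x hx, smul_zero]
  | succ m IH =>
    intro E hE s hs D hD hc ε hε hsD x hx
    have ih : ∀ a ∈ E, Q d σ f (E.erase a) := by
      intro a ha
      apply IH
      rw [card_erase_of_mem ha]
      omega
    by_cases hxD : x ∈ D
    · obtain ⟨g, hgE, hgD⟩ : ∃ g ∈ E, g ∉ D := by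
        by_contra hcon
        push Not at hcon
        have := card_le_card (show E ⊆ D from hcon)
        omega
      have hG : (insert g D).card = d + 3 := by rw [card_insert_of_notMem hgD]; omega
      have hGE : insert g D ⊆ E := insert_subset hgE hD
      have hgx : g ≠ x := fun h => hgD (h ▸ hxD)
      have hxG : x ∈ insert g D := mem_insert_of_mem hxD
      have hgG : g ∈ insert g D := mem_insert_self g D
      have cx : ((insert g D).erase x).card = d + 2 := by rw [card_erase_of_mem hxG]; omega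
      have hσg := hσ.pm _ cx g (mem_erase.2 ⟨hgx, hgG⟩)
      have h1 := walk hσ hGE hG (fun a ha => ih a (hGE ha)) hxG (fun i => s x * s i)
        (fun i => (hs x).mul (hs i)) g hgG hgx (s x * s g * σ ((insert g D).erase x) g)
        (((hs x).mul (hs g)).mul hσg)
      have h2 : F d f (E.erase x) (fun i => s x * s i) = 0 := by
        rw [← h1]
        refine F_congr d f _ fun i _ => ?_
        unfold tv
        split_ifs with h3 h4
        · rw [h3, mul_assoc (s x * s g), hσg.sq, mul_one]
        · have hiD : i ∈ D := (mem_insert.1 h4).resolve_left h3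
          rw [erase_insert hgD, hsD x hxD, hsD i hiD]
          calc ε * σ D x * (ε * σ D i) = (ε * ε) * (σ D x * σ D i) := by ring
            _ = σ D x * σ D i := by rw [hε.sq, one_mul]
        · rfl
      rw [F_scale] at h2
      exact (smul_eq_zero.1 h2).resolve_left (pow_ne_zero _ (hs x).ne_zero)
    · exact (ih x hx).whole s hs D (subset_erase.2 ⟨hD, hxD⟩) hc ε hε hsD

/-- the core theorem -/
theorem core [Fintype α] {d : ℕ} (hd : 1 ≤ d) (hn : 2 * d + 1 ≤ Fintype.card α)
    {σ : Finset α → α → ℚ} (hσ : Sig d σ) {f : Finset α → W}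
    (hf : ∀ D : Finset α, D.card = d + 2 → ∀ e ∈ D, F d f (D.erase e) (σ D) = 0)
    (S : Finset α) (hS : S.card = d) : f S = 0 := by
  obtain ⟨x, hx⟩ : S.Nonempty := card_pos.1 (by omega)
  have hc : d + 1 ≤ (univ \ S).card := by
    rw [card_sdiff_of_subset (subset_univ S), card_univ]; omega
  obtain ⟨B, hB, hBc⟩ := exists_subset_card_eq hc
  have hxB : x ∉ B := fun h => (mem_sdiff.1 (hB h)).2 hx
  have hD : (insert x B).card = d + 2 := by rw [card_insert_of_notMem hxB, hBc]
  let s : α → ℚ := fun i => if i ∈ insert x B then σ (insert x B) i else 1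
  have hs : ∀ i, PM (s i) := by
    intro i
    by_cases h : i ∈ insert x B
    · simp only [s, if_pos h]; exact hσ.pm _ hD i h
    · simp only [s, if_neg h]; exact PM.one
  have hsD : ∀ i ∈ insert x B, s i = 1 * σ (insert x B) i := by
    intro i hi
    simp only [s, if_pos hi, one_mul]
  have hQ : ∀ E : Finset α, insert x B ⊆ E → Q d σ f E := by
    intro E hE
    have := card_le_card hE
    exact Q_all hσ hf (E.card - (d + 2)) E (by omega)
  have h1 := sum_powerset_F d f s S hS
  rw [sum_eq_zero] at h1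
  · have h2 : (∏ i ∈ S, s i) ≠ 0 := prod_ne_zero_iff.2 fun i _ => (hs i).ne_zero
    exact (smul_eq_zero.1 h1.symm).resolve_left h2
  · intro U hU
    rw [mem_powerset] at hU
    have hsub : insert x B ⊆ univ \ U.erase x := by
      intro i hi
      rw [mem_sdiff, mem_erase]
      refine ⟨mem_univ _, fun h => ?_⟩
      rcases mem_insert.1 hi with h3 | h3
      · exact h.1 h3
      · exact (mem_sdiff.1 (hB h3)).2 (hU h.2)
    have h0 : F d f (univ \ U) s = 0 := by
      by_cases hxU : x ∈ U
      · have : univ \ U = (univ \ U.erase x).erase x := by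
          ext i
          by_cases hi : i = x <;> simp [hi, hxU]
        rw [this]
        exact hQ _ hsub s hs _ hsub hD 1 PM.one hsD x (hsub (mem_insert_self x B))
      · rw [erase_eq_of_notMem hxU] at hsub
        exact (hQ _ hsub).whole s hs _ hsub hD 1 PM.one hsD
    rw [h0, smul_zero]

end Pool.Agent.Lib.MP_a97014_co
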