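import Mathlib
import Pool.Agent.Lib.MP_a97014_co.Core

/-!
The dimension count: a family of sign vectors that keeps distance at least two from every
signed circuit has at most `2 ∑_{i ≤ d-2} C(n-1,i)` members.
-/

set_option autoImplicit false

namespace Pool.Agent.Lib.MP_a97014_co

open Finset

variable {α : Type*} [DecidableEq α]

/-- the sign vector of a set -/
def sg (T : Finset α) (i : α) : ℚ := if i ∈ T then -1 else 1

theorem sg_pm (T : Finset α) (i : α) : PM (sg T i) := by
  unfold sg PM
  split_ifs <;> simp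

/-- monomials as functions on the family -/
def mon (K : Finset (Finset α)) (S : Finset α) : K → ℚ := fun T => ∏ i ∈ S, sg T.1 i

theorem mon_insert (K : Finset (Finset α)) {S : Finset α} {i : α} (hi : i ∉ S) :
    mon K (insert i S) = mon K {i} * mon K S := by
  funext T
  simp [mon, prod_insert hi]

theorem mon_erase (K : Finset (Finset α)) {S : Finset α} {i : α} (hi : i ∈ S) :
    mon K (S.erase i) = mon K {i} * mon K S := by
  funext T
  simp only [mon, Pi.mul_apply, prod_singleton]
  rw [← mul_prod_erase S _ hi, ← mul_assoc, (sg_pm T.1 i).sq, one_mul]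

/-- span of the low degree monomials of the parity of `d` -/
def V (d : ℕ) (K : Finset (Finset α)) : Submodule ℚ (K → ℚ) :=
  Submodule.span ℚ {g | ∃ S : Finset α, S.card + 2 ≤ d ∧ S.card % 2 = d % 2 ∧ g = mon K S}

theorem rel_mem_V {d : ℕ} {K : Finset (Finset α)} (B : Finset α) (hB : B.card = d + 1)
    (τ : α → ℚ) (h1 : ∀ T ∈ K, ∃ i ∈ B, sg T i * τ i = 1)
    (h2 : ∀ T ∈ K, ∃ i ∈ B, sg T i * τ i = -1) :
    ∑ S ∈ B.powersetCard d, (∏ i ∈ S, τ i) • mon K S ∈ V d K := by
  have e0 : ∑ U ∈ B.powerset, ((1 + (-1 : ℚ) ^ (d + U.card)) * ∏ i ∈ U, τ i) • mon K U = 0 := by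
    funext T
    rw [Finset.sum_apply]
    have p1 : ∏ i ∈ B, (1 + sg T.1 i * τ i) = 0 := by
      obtain ⟨i, hi, h⟩ := h2 T.1 T.2
      exact prod_eq_zero hi (by rw [h]; norm_num)
    have p2 : ∏ i ∈ B, (1 + -(sg T.1 i * τ i)) = 0 := by
      obtain ⟨i, hi, h⟩ := h1 T.1 T.2
      exact prod_eq_zero hi (by rw [h]; norm_num)
    rw [prod_one_add] at p1 p2
    have : ∑ U ∈ B.powerset,
        (((1 + (-1 : ℚ) ^ (d + U.card)) * ∏ i ∈ U, τ i) • mon K U) T
        = ∑ U ∈ B.powerset, ∏ i ∈ U, (sg T.1 i * τ i)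
          + (-1) ^ d * ∑ U ∈ B.powerset, ∏ i ∈ U, -(sg T.1 i * τ i) := by
      rw [mul_sum, ← sum_add_distrib]
      refine sum_congr rfl fun U _ => ?_
      rw [prod_neg, prod_mul_distrib, pow_add]
      simp only [Pi.smul_apply, mon, smul_eq_mul]
      ring
    rw [this, p1, p2]
    simp
  rw [← sum_filter_add_sum_filter_not B.powerset (fun U => U.card = d)] at e0
  have e1 : B.powerset.filter (fun U => U.card = d) = B.powersetCard d := by
    ext U; simp [mem_powersetCard]
  have e2 : ∑ U ∈ B.powersetCard d,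
      ((1 + (-1 : ℚ) ^ (d + U.card)) * ∏ i ∈ U, τ i) • mon K U
      = (2 : ℚ) • ∑ S ∈ B.powersetCard d, (∏ i ∈ S, τ i) • mon K S := by
    rw [smul_sum]
    refine sum_congr rfl fun U hU => ?_
    rw [mem_powersetCard] at hU
    rw [hU.2, smul_smul, ← two_mul, pow_mul]
    norm_num
  have e3 : ∑ U ∈ B.powerset.filter (fun U => ¬ U.card = d),
      ((1 + (-1 : ℚ) ^ (d + U.card)) * ∏ i ∈ U, τ i) • mon K U ∈ V d K := by
    refine Submodule.sum_mem _ fun U hU => ?_
    rw [mem_filter, mem_powerset] at hU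
    have hc := card_le_card hU.1
    by_cases hp : U.card % 2 = d % 2
    · exact Submodule.smul_mem _ _ (Submodule.subset_span ⟨U, by omega, hp, rfl⟩)
    · have : Odd (d + U.card) := by rw [Nat.odd_iff]; omega
      rw [this.neg_one_pow]
      simp
  rw [e1, e2] at e0
  have e4 := eq_neg_of_add_eq_zero_left e0
  have e5 : (2 : ℚ) • ∑ S ∈ B.powersetCard d, (∏ i ∈ S, τ i) • mon K S ∈ V d K := by
    rw [e4]; exact Submodule.neg_mem _ e3
  exact (Submodule.smul_mem_iff _ (by norm_num)).1 e5

theorem mon_mem_V [Fintype α] {d : ℕ} (hd : 1 ≤ d) (hn : 2 * d + 1 ≤ Fintype.card α)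
    {σ : Finset α → α → ℚ} (hσ : Sig d σ) {K : Finset (Finset α)}
    (h1 : ∀ T ∈ K, ∀ D : Finset α, D.card = d + 2 → ∀ e ∈ D,
      ∃ i ∈ D.erase e, sg T i * σ D i = 1)
    (h2 : ∀ T ∈ K, ∀ D : Finset α, D.card = d + 2 → ∀ e ∈ D,
      ∃ i ∈ D.erase e, sg T i * σ D i = -1)
    (S : Finset α) (hS : S.card = d) : mon K S ∈ V d K := by
  have := core (W := (K → ℚ) ⧸ V d K) hd hn hσ (f := fun S => (V d K).mkQ (mon K S)) ?_ S hS
  · exact (Submodule.Quotient.mk_eq_zero _).1 this
  · intro D hD e he
    have hm := rel_mem_V (d := d) (K := K) (D.erase e) (by rw [card_erase_of_mem he]; omega)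
      (σ D) (fun T hT => h1 T hT D hD e he) (fun T hT => h2 T hT D hD e he)
    unfold F
    simp only [← map_smul, ← map_sum]
    exact (Submodule.Quotient.mk_eq_zero _).2 hm

theorem card_le [Fintype α] {d : ℕ} (hd : 2 ≤ d) (hn : 2 * d + 1 ≤ Fintype.card α)
    {σ : Finset α → α → ℚ} (hσ : Sig d σ) {K : Finset (Finset α)}
    (h1 : ∀ T ∈ K, ∀ D : Finset α, D.card = d + 2 → ∀ e ∈ D,
      ∃ i ∈ D.erase e, sg T i * σ D i = 1)
    (h2 : ∀ T ∈ K, ∀ D : Finset α, D.card = d + 2 → ∀ e ∈ D,
      ∃ i ∈ D.erase e, sg T i * σ D i = -1) :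
    K.card ≤ 2 * ∑ i ∈ range (d - 1), (Fintype.card α - 1).choose i := by
  classical
  obtain ⟨z⟩ : Nonempty α := Fintype.card_pos_iff.1 (by omega)
  let 𝒰 : Finset (Finset α) := univ.filter (fun S => (S.erase z).card + 2 ≤ d)
  let V2 : Submodule ℚ (K → ℚ) := Submodule.span ℚ (𝒰.image (mon K) : Finset (K → ℚ))
  have gen : ∀ S : Finset α, (S.erase z).card + 2 ≤ d → mon K S ∈ V2 := by
    intro S hS
    refine Submodule.subset_span ?_
    simp only [coe_image, Set.mem_image, mem_coe]
    exact ⟨S, by simp [𝒰, hS], rfl⟩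
  have mulc : ∀ i : α, (∀ S : Finset α, (S.erase z).card + 2 ≤ d → mon K {i} * mon K S ∈ V2) →
      ∀ g ∈ V2, mon K {i} * g ∈ V2 := by
    intro i hi g hg
    induction hg using Submodule.span_induction with
    | mem g hg =>
      simp only [coe_image, Set.mem_image, mem_coe] at hg
      obtain ⟨S, hS, rfl⟩ := hg
      exact hi S (by simpa [𝒰] using hS)
    | zero => simp
    | add g g' _ _ ha hb => rw [mul_add]; exact V2.add_mem ha hb
    | smul c g _ ha => rw [mul_smul_comm]; exact V2.smul_mem c ha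
  have ha : V d K ≤ V2 := by
    refine Submodule.span_le.2 ?_
    rintro g ⟨S, hS, -, rfl⟩
    have := card_erase_le (s := S) (a := z)
    exact gen S (by omega)
  have hb : ∀ g ∈ V2, mon K {z} * g ∈ V2 := by
    refine mulc z fun S hS => ?_
    by_cases hz : z ∈ S
    · rw [← mon_erase K hz]
      exact gen _ (by rwa [erase_idem])
    · rw [← mon_insert K hz]
      exact gen _ (by rwa [erase_insert_eq_erase])
  have hc : ∀ S : Finset α, (S.erase z).card + 1 ≤ d → mon K S ∈ V2 := by
    intro S hS
    rcases Nat.lt_or_ge ((S.erase z).card + 1) d with h | h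
    · exact gen S (by omega)
    · have h3 : mon K (insert z (S.erase z)) ∈ V2 := by
        refine ha (mon_mem_V (by omega) hn hσ h1 h2 _ ?_)
        rw [card_insert_of_notMem (notMem_erase z S)]
        omega
      by_cases hz : z ∈ S
      · rwa [insert_erase hz] at h3
      · have h4 := hb _ h3
        rwa [← mon_erase K (mem_insert_self z _), erase_insert (notMem_erase z S),
          erase_eq_of_notMem hz] at h4
  have hd' : ∀ i : α, ∀ g ∈ V2, mon K {i} * g ∈ V2 := by
    intro i
    refine mulc i fun S hS => ?_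
    by_cases hi : i ∈ S
    · rw [← mon_erase K hi]
      refine gen _ ?_
      have := card_le_card (erase_subset_erase z (erase_subset i S))
      omega
    · rw [← mon_insert K hi]
      refine hc _ ?_
      have h3 : (insert i S).erase z ⊆ insert i (S.erase z) := by
        intro j hj
        simp only [mem_erase, mem_insert] at hj ⊢
        tauto
      have h4 := card_le_card h3
      have h5 := card_insert_le i (S.erase z)
      omega
  have he : ∀ S : Finset α, mon K S ∈ V2 := by
    intro S
    induction S using Finset.induction_on with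
    | empty => exact gen _ (by simpa using hd)
    | insert i S hi ih => rw [mon_insert K hi]; exact hd' i _ ih
  have hf : ∀ T : K, (Pi.single T (1 : ℚ) : K → ℚ) ∈ V2 := by
    intro T
    have h3 : ((2 : ℚ) ^ Fintype.card α) • (Pi.single T (1 : ℚ) : K → ℚ)
        = ∑ U ∈ (univ : Finset α).powerset, (∏ i ∈ U, sg T.1 i) • mon K U := by
      funext T'
      rw [Finset.sum_apply]
      have h4 : ∀ U ∈ (univ : Finset α).powerset, ((∏ i ∈ U, sg T.1 i) • mon K U) T'
          = ∏ i ∈ U, (sg T.1 i * sg T'.1 i) := by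
        intro U _
        simp [mon, prod_mul_distrib]
      rw [sum_congr rfl h4, ← prod_one_add]
      by_cases hT : T' = T
      · subst hT
        have h5 : ∀ i ∈ (univ : Finset α), 1 + sg T'.1 i * sg T'.1 i = 2 := by
          intro i _
          rw [(sg_pm _ _).sq]; norm_num
        rw [prod_congr rfl h5]
        simp
      · have h5 : ∃ i, ¬ (i ∈ T'.1 ↔ i ∈ T.1) := by
          by_contra hcon
          push Not at hcon
          exact hT (Subtype.ext (Finset.ext hcon))
        obtain ⟨i, hi⟩ := h5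
        rw [prod_eq_zero (mem_univ i)]
        · simp [Pi.single_eq_of_ne hT]
        · unfold sg
          by_cases h6 : i ∈ T.1 <;> by_cases h7 : i ∈ T'.1 <;> simp_all
    have h6 : ((2 : ℚ) ^ Fintype.card α) • (Pi.single T (1 : ℚ) : K → ℚ) ∈ V2 := by
      rw [h3]
      exact Submodule.sum_mem _ fun U _ => V2.smul_mem _ (he U)
    exact (Submodule.smul_mem_iff _ (by positivity)).1 h6
  have htop : V2 = ⊤ := by
    rw [eq_top_iff]
    intro g _
    rw [pi_eq_sum_univ' g]
    exact Submodule.sum_mem _ fun T _ => V2.smul_mem _ (hf T)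
  have hrank : K.card ≤ 𝒰.card := by
    have h3 : Module.finrank ℚ V2 ≤ (𝒰.image (mon K)).card := finrank_span_finset_le_card _
    rw [htop, finrank_top, Module.finrank_fintype_fun_eq_card, Fintype.card_coe] at h3
    exact h3.trans card_image_le
  refine hrank.trans ?_
  have h7 : 𝒰.card ≤ 2 * (𝒰.image (fun S => S.erase z)).card := by
    refine card_le_mul_card_image _ _ fun A _ => ?_
    have : 𝒰.filter (fun S => S.erase z = A) ⊆ {A, insert z A} := by
      intro S hS
      rw [mem_filter] at hS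
      rw [mem_insert, mem_singleton, ← hS.2]
      by_cases hz : z ∈ S
      · right; rw [insert_erase hz]
      · left; rw [erase_eq_of_notMem hz]
    exact (card_le_card this).trans card_le_two
  refine h7.trans (Nat.mul_le_mul_left 2 ?_)
  have h8 : 𝒰.image (fun S => S.erase z)
      ⊆ (range (d - 1)).biUnion (fun i => powersetCard i (univ.erase z)) := by
    intro A hA
    rw [mem_image] at hA
    obtain ⟨S, hS, rfl⟩ := hA
    have hS' : (S.erase z).card + 2 ≤ d := by simpa [𝒰] using hS
    rw [mem_biUnion]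
    refine ⟨(S.erase z).card, mem_range.2 (by omega), ?_⟩
    rw [mem_powersetCard]
    exact ⟨erase_subset_erase z (subset_univ S), rfl⟩
  refine (card_le_card h8).trans (card_biUnion_le.trans ?_)
  refine le_of_eq (sum_congr rfl fun i _ => ?_)
  rw [card_powersetCard, card_erase_of_mem (mem_univ z), card_univ]

end Pool.Agent.Lib.MP_a97014_co
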