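import Mathlib
import Pool.Agent.Lib.MP_a97014_co.Count

/-!
The circuit signature of a uniform chirotope.
-/

set_option autoImplicit false

namespace Pool.Agent.Lib.MP_a97014_co

open Finset

variable {n d : ℕ}

/-- sign of the `i`-th element in the circuit on the tuple `y` -/
def Th (χ : (Fin (d + 1) → Fin n) → ℤ) (y : Fin (d + 2) → Fin n) (i : Fin (d + 2)) : ℤ :=
  (-1 : ℤ) ^ (i : ℕ) * χ (y ∘ i.succAbove)

/-- alternation -/
def Alt (χ : (Fin (d + 1) → Fin n) → ℤ) : Prop :=
  ∀ (x : Fin (d + 1) → Fin n) (σ : Equiv.Perm (Fin (d + 1))),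
      χ (x ∘ σ) = ((Equiv.Perm.sign σ : ℤˣ) : ℤ) * χ x

theorem Th_perm {χ : (Fin (d + 1) → Fin n) → ℤ} (halt : Alt χ) (y : Fin (d + 2) → Fin n)
    (π : Equiv.Perm (Fin (d + 2))) (i : Fin (d + 2)) :
    Th χ (y ∘ π) i = ((Equiv.Perm.sign π : ℤˣ) : ℤ) * Th χ y (π i) := by
  set ρ : Equiv.Perm (Fin (d + 2)) := (π i).cycleRange * π * i.cycleRange⁻¹ with hρ
  obtain ⟨⟨p, e⟩, hpe⟩ := Equiv.Perm.decomposeFin.symm.surjective ρ
  have h0 : ρ 0 = 0 := by
    have : i.cycleRange⁻¹ 0 = i := Fin.cycleRange_symm_zero i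
    simp only [hρ, Equiv.Perm.mul_apply, this, Fin.cycleRange_self]
  have hp : p = 0 := by
    rw [← hpe, Equiv.Perm.decomposeFin_symm_apply_zero] at h0
    exact h0
  subst hp
  have hs : ∀ j, ρ j.succ = (e j).succ := by
    intro j
    rw [← hpe, Equiv.Perm.decomposeFin_symm_apply_succ]
    simp
  have hsign : Equiv.Perm.sign e
      = (-1) ^ ((π i : Fin (d + 2)) : ℕ) * Equiv.Perm.sign π * (-1) ^ (i : ℕ) := by
    have h1 := Equiv.Perm.decomposeFin.symm_sign (0 : Fin (d + 2)) e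
    rw [hpe] at h1
    simp only [if_true, one_mul] at h1
    rw [← h1, hρ]
    simp [Fin.sign_cycleRange]
  have hc : (y ∘ π) ∘ i.succAbove = (y ∘ (π i).succAbove) ∘ e := by
    funext j
    have h1 := hs j
    have h2 : i.cycleRange⁻¹ j.succ = i.succAbove j := Fin.cycleRange_symm_succ i j
    simp only [hρ, Equiv.Perm.mul_apply, h2] at h1
    have h3 : π (i.succAbove j) = (π i).cycleRange.symm (e j).succ := by
      rw [← h1, Equiv.symm_apply_apply]
    simp only [Function.comp_apply, h3, Fin.cycleRange_symm_succ]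
  unfold Th
  rw [hc, halt, hsign]
  push_cast
  have h4 : ((-1 : ℤ) ^ (i : ℕ)) * ((-1 : ℤ) ^ (i : ℕ)) = 1 := by
    rw [← mul_pow]; simp
  linear_combination (((-1 : ℤ) ^ ((π i : Fin (d + 2)) : ℕ)) * ((Equiv.Perm.sign π : ℤˣ) : ℤ)
    * χ (y ∘ (π i).succAbove)) * h4

/-- the circuit signature on sets -/
noncomputable def sig (χ : (Fin (d + 1) → Fin n) → ℤ) (D : Finset (Fin n)) (a : Fin n) : ℚ :=
  if h : D.card = d + 2 then
    if ha : a ∈ D then
      ((Th χ (D.orderEmbOfFin h) ((D.orderIsoOfFin h).symm ⟨a, ha⟩) : ℤ) : ℚ)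
    else 0
  else 0

theorem sig_eq {χ : (Fin (d + 1) → Fin n) → ℤ} (halt : Alt χ) (D : Finset (Fin n))
    (y : Fin (d + 2) → Fin n) (hy : Function.Injective y) (hD : ∀ z, z ∈ D ↔ z ∈ Set.range y) :
    ∃ ε : ℚ, PM ε ∧ ∀ i, sig χ D (y i) = ε * ((Th χ y i : ℤ) : ℚ) := by
  have hc : D.card = d + 2 := by
    have : D = univ.image y := by
      ext z; simp [hD z]
    rw [this, card_image_of_injective _ hy]; simp
  have hm : ∀ i, y i ∈ D := fun i => (hD _).2 ⟨i, rfl⟩
  let g : Fin (d + 2) → Fin (d + 2) := fun i => (D.orderIsoOfFin hc).symm ⟨y i, hm i⟩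
  have hg : Function.Injective g := by
    intro i j hij
    have := (D.orderIsoOfFin hc).symm.injective hij
    exact hy (congrArg Subtype.val this)
  let π : Equiv.Perm (Fin (d + 2)) := Equiv.ofBijective g (Finite.injective_iff_bijective.1 hg)
  have hyπ : y = (D.orderEmbOfFin hc) ∘ π := by
    funext i
    have : (D.orderEmbOfFin hc) (g i) = y i := by
      rw [← coe_orderIsoOfFin_apply]
      simp [g]
    exact this.symm
  refine ⟨(((Equiv.Perm.sign π : ℤˣ) : ℤ) : ℚ), ?_, fun i => ?_⟩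
  · rcases Int.units_eq_one_or (Equiv.Perm.sign π) with h | h <;> simp [h, PM]
  · have h1 := Th_perm halt (D.orderEmbOfFin hc) π i
    rw [← hyπ] at h1
    rw [h1]
    unfold sig
    rw [dif_pos hc, dif_pos (hm i)]
    have h2 : π i = (D.orderIsoOfFin hc).symm ⟨y i, hm i⟩ := rfl
    rw [← h2]
    rcases Int.units_eq_one_or (Equiv.Perm.sign π) with h | h <;> simp [h]

theorem sig_pair {χ : (Fin (d + 1) → Fin n) → ℤ} (halt : Alt χ) (t : Fin d → Fin n)
    (ht : Function.Injective t) {p q : Fin n} (hp : p ∉ Set.range t) (hq : q ∉ Set.range t)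
    (hpq : p ≠ q) (D : Finset (Fin n)) (hD : ∀ z, z ∈ D ↔ z = p ∨ z = q ∨ z ∈ Set.range t) :
    sig χ D p * sig χ D q = -(((χ (Fin.cons p t) : ℤ) : ℚ) * ((χ (Fin.cons q t) : ℤ) : ℚ)) := by
  have hy : Function.Injective (Fin.cons p (Fin.cons q t) : Fin (d + 2) → Fin n) := by
    rw [Fin.cons_injective_iff, Fin.cons_injective_iff]
    refine ⟨?_, hq, ht⟩
    rw [Fin.range_cons]
    rintro (h | h)
    · exact hpq h
    · exact hp h
  obtain ⟨ε, hε, h⟩ := sig_eq halt D _ hy (by
    intro z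
    rw [hD, Fin.range_cons, Fin.range_cons]
    simp)
  have h0 := h 0
  have h1 := h 1
  have e0 : (Fin.cons p (Fin.cons q t) : Fin (d + 2) → Fin n) ∘ (0 : Fin (d + 2)).succAbove
      = Fin.cons q t := by
    funext j; simp
  have e1 : (Fin.cons p (Fin.cons q t) : Fin (d + 2) → Fin n) ∘ (1 : Fin (d + 2)).succAbove
      = Fin.cons p t := by
    funext j
    refine Fin.cases ?_ (fun j => ?_) j
    · simp
    · simp [Fin.one_succAbove_succ]
  unfold Th at h0 h1
  rw [e0] at h0
  rw [e1] at h1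
  simp only [Fin.cons_zero, Fin.val_zero, pow_zero, one_mul] at h0
  simp only [Fin.cons_one, Fin.cons_zero, Fin.val_one, pow_one] at h1
  rw [h0, h1]
  push_cast
  linear_combination (-(((χ (Fin.cons p t) : ℤ) : ℚ) * ((χ (Fin.cons q t) : ℤ) : ℚ))) * hε.sq

theorem exists_enum (S : Finset (Fin n)) {k : ℕ} (hS : S.card = k) :
    ∃ t : Fin k → Fin n, Function.Injective t ∧ ∀ z, z ∈ Set.range t ↔ z ∈ S := by
  refine ⟨S.orderEmbOfFin hS, (S.orderEmbOfFin hS).injective, fun z => ?_⟩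
  rw [range_orderEmbOfFin]
  rfl

theorem sig_pm {χ : (Fin (d + 1) → Fin n) → ℤ} (halt : Alt χ)
    (hpm : ∀ x, Function.Injective x → PM ((χ x : ℤ) : ℚ))
    (D : Finset (Fin n)) (hD : D.card = d + 2) (i : Fin n) (hi : i ∈ D) : PM (sig χ D i) := by
  obtain ⟨y, hy, hr⟩ := exists_enum D hD
  obtain ⟨ε, hε, h⟩ := sig_eq halt D y hy (fun z => (hr z).symm)
  obtain ⟨j, rfl⟩ := (hr i).2 hi
  rw [h j]
  refine hε.mul ?_
  unfold Th
  push_cast
  refine PM.mul ?_ (hpm _ (hy.comp Fin.succAbove_right_injective))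
  rcases neg_one_pow_eq_or ℚ (j : ℕ) with h1 | h1 <;> simp [h1, PM]

theorem cons_swap {k : ℕ} {χ : (Fin (k + 1 + 1) → Fin n) → ℤ} (halt : Alt χ) (τ : Fin k → Fin n)
    (p q : Fin n) : χ (Fin.cons p (Fin.cons q τ)) = - χ (Fin.cons q (Fin.cons p τ)) := by
  have h := halt (Fin.cons q (Fin.cons p τ)) (Equiv.swap 0 1)
  have e : (Fin.cons q (Fin.cons p τ) : Fin (k + 1 + 1) → Fin n) ∘ (Equiv.swap 0 1)
      = Fin.cons p (Fin.cons q τ) := by
    funext j
    refine Fin.cases ?_ (fun j => Fin.cases ?_ (fun j => ?_) j) j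
    · simp
    · simp
    · have h1 : (j.succ.succ : Fin (k + 1 + 1)) ≠ 0 := Fin.succ_ne_zero _
      have h2 : (j.succ.succ : Fin (k + 1 + 1)) ≠ 1 := by
        rw [← Fin.succ_zero_eq_one]
        exact fun h => Fin.succ_ne_zero _ (Fin.succ_injective _ h)
      simp [Equiv.swap_apply_of_ne_of_ne h1 h2]
  rw [e, Equiv.Perm.sign_swap (by simp)] at h
  simpa using h

theorem update_update_cons {k : ℕ} (τ : Fin k → Fin n) (w p q : Fin n) :
    Function.update (Function.update (Fin.cons w (Fin.cons w τ) : Fin (k + 1 + 1) → Fin n) 0 p) 1 q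
      = Fin.cons p (Fin.cons q τ) := by
  funext j
  refine Fin.cases ?_ (fun j => Fin.cases ?_ (fun j => ?_) j) j
  · simp
  · simp
  · have h2 : (j.succ.succ : Fin (k + 1 + 1)) ≠ 1 := by
      rw [← Fin.succ_zero_eq_one]
      exact fun h => Fin.succ_ne_zero _ (Fin.succ_injective _ h)
    simp [Function.update_of_ne h2]

theorem sign_lemma (ab ac bc xa xb xc sa sb sc : ℚ) (hab : PM ab) (hac : PM ac) (hbc : PM bc)
    (hxa : PM xa) (hxb : PM xb) (hxc : PM xc) (hsa : PM sa)
    (h1 : sa * sb = -(ac * bc)) (h2 : sa * sc = -(ab * -bc))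
    (h3 : -(xc * bc) * sb = -(xa * -ac) * sc) (h4 : -(xa * -ac) * sc = -(xb * ab) * sa) :
    xa * bc = -(xb * ac) ∧ -(xb * ac) = xc * ab := by
  have e1 : sb = -(sa * ac * bc) := by linear_combination sa * h1 - sb * hsa.sq
  have e2 : sc = sa * ab * bc := by linear_combination sa * h2 - sc * hsa.sq
  subst e1 e2
  rcases hab with rfl | rfl <;> rcases hac with rfl | rfl <;> rcases hbc with rfl | rfl <;>
    rcases hxa with rfl | rfl <;> rcases hxb with rfl | rfl <;> rcases hxc with rfl | rfl <;>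
    rcases hsa with rfl | rfl <;> revert h3 h4 <;> norm_num

theorem sig_Sig {k : ℕ} {χ : (Fin (k + 1 + 1) → Fin n) → ℤ} (halt : Alt χ)
    (hpm : ∀ x, Function.Injective x → PM ((χ x : ℤ) : ℚ))
    (hgp : ∀ (τ : Fin k → Fin n) (a b c e : Fin n),
      ¬ (χ (Fin.cons a (Fin.cons b τ)) * χ (Fin.cons c (Fin.cons e τ))
            = -(χ (Fin.cons a (Fin.cons c τ)) * χ (Fin.cons b (Fin.cons e τ))) ∧
          -(χ (Fin.cons a (Fin.cons c τ)) * χ (Fin.cons b (Fin.cons e τ)))
            = χ (Fin.cons a (Fin.cons e τ)) * χ (Fin.cons b (Fin.cons c τ)) ∧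
          χ (Fin.cons a (Fin.cons b τ)) * χ (Fin.cons c (Fin.cons e τ)) ≠ 0)) :
    Sig (k + 1) (sig χ) where
  pm := sig_pm halt hpm
  anti := by
    intro G hG x hx a ha b hb hax hbx hab
    have hS : (((G.erase x).erase a).erase b).card = k + 1 := by
      rw [card_erase_of_mem (by simp [hab.symm, hbx, hb]), card_erase_of_mem (by simp [hax, ha]),
        card_erase_of_mem hx]
      omega
    obtain ⟨t, ht, hr⟩ := exists_enum _ hS
    have nx : x ∉ Set.range t := by rw [hr]; simp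
    have na : a ∉ Set.range t := by rw [hr]; simp
    have nb : b ∉ Set.range t := by rw [hr]; simp
    have h1 := sig_pair halt t ht nx nb hbx.symm (G.erase a) (by
      intro z; rw [hr]; simp only [mem_erase]; grind)
    have h2 := sig_pair halt t ht nx na hax.symm (G.erase b) (by
      intro z; rw [hr]; simp only [mem_erase]; grind)
    have h3 := sig_pair halt t ht na nb hab (G.erase x) (by
      intro z; rw [hr]; simp only [mem_erase]; grind)
    have cx : (G.erase x).card = k + 1 + 2 := by rw [card_erase_of_mem hx]; omega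
    have pa := sig_pm halt hpm _ cx a (mem_erase.2 ⟨hax, ha⟩)
    have qa := hpm (Fin.cons a t) (Fin.cons_injective_iff.2 ⟨na, ht⟩)
    have qb := hpm (Fin.cons b t) (Fin.cons_injective_iff.2 ⟨nb, ht⟩)
    unfold u
    rw [h1, h2]
    have e1 : sig χ (G.erase x) b = -(sig χ (G.erase x) a * ((χ (Fin.cons a t) : ℤ) : ℚ)
        * ((χ (Fin.cons b t) : ℤ) : ℚ)) := by
      linear_combination sig χ (G.erase x) a * h3 - sig χ (G.erase x) b * pa.sq
    rw [e1]
    linear_combination (((χ (Fin.cons x t) : ℤ) : ℚ) * sig χ (G.erase x) a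
      * ((χ (Fin.cons a t) : ℤ) : ℚ)) * qb.sq
  trans := by
    intro G hG x hx a ha b hb c hc hax hbx hcx hab hbc hac
    have hS : ((((G.erase x).erase a).erase b).erase c).card = k := by
      rw [card_erase_of_mem (by simp [hac.symm, hbc.symm, hcx, hc]),
        card_erase_of_mem (by simp [hab.symm, hbx, hb]), card_erase_of_mem (by simp [hax, ha]),
        card_erase_of_mem hx]
      omega
    obtain ⟨τ, hτ, hr⟩ := exists_enum _ hS
    have nx : x ∉ Set.range τ := by rw [hr]; simp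
    have na : a ∉ Set.range τ := by rw [hr]; simp
    have nb : b ∉ Set.range τ := by rw [hr]; simp
    have nc : c ∉ Set.range τ := by rw [hr]; simp
    have inj1 : ∀ p, p ∉ Set.range τ → Function.Injective (Fin.cons p τ : Fin (k + 1) → Fin n) :=
      fun p hp => Fin.cons_injective_iff.2 ⟨hp, hτ⟩
    have nm : ∀ p q, p ∉ Set.range τ → p ≠ q →
        p ∉ Set.range (Fin.cons q τ : Fin (k + 1) → Fin n) := by
      intro p q hp hpq
      rw [Fin.range_cons]
      rintro (h | h)
      · exact hpq h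
      · exact hp h
    have pm2 : ∀ p q, p ∉ Set.range τ → q ∉ Set.range τ → p ≠ q →
        PM ((χ (Fin.cons p (Fin.cons q τ)) : ℤ) : ℚ) :=
      fun p q hp hq hpq => hpm _ (Fin.cons_injective_iff.2 ⟨nm p q hp hpq, inj1 q hq⟩)
    have mem : ∀ q z, z ∈ Set.range (Fin.cons q τ : Fin (k + 1) → Fin n) ↔
        z = q ∨ z ∈ (((G.erase x).erase a).erase b).erase c := by
      intro q z
      rw [Fin.range_cons, Set.mem_insert_iff, hr]
    have h1 := sig_pair halt (Fin.cons c τ) (inj1 c nc) (nm x c nx hcx.symm) (nm b c nb hbc)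
      hbx.symm (G.erase a) (by intro z; rw [mem]; simp only [mem_erase]; grind)
    have h2 := sig_pair halt (Fin.cons a τ) (inj1 a na) (nm x a nx hax.symm) (nm c a nc hac.symm)
      hcx.symm (G.erase b) (by intro z; rw [mem]; simp only [mem_erase]; grind)
    have h3 := sig_pair halt (Fin.cons b τ) (inj1 b nb) (nm x b nx hbx.symm) (nm a b na hab)
      hax.symm (G.erase c) (by intro z; rw [mem]; simp only [mem_erase]; grind)
    have h4 := sig_pair halt (Fin.cons c τ) (inj1 c nc) (nm a c na hac) (nm b c nb hbc)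
      hab (G.erase x) (by intro z; rw [mem]; simp only [mem_erase]; grind)
    have h5 := sig_pair halt (Fin.cons b τ) (inj1 b nb) (nm a b na hab) (nm c b nc hbc.symm)
      hac (G.erase x) (by intro z; rw [mem]; simp only [mem_erase]; grind)
    have cx : (G.erase x).card = k + 1 + 2 := by rw [card_erase_of_mem hx]; omega
    have pa := sig_pm halt hpm _ cx a (mem_erase.2 ⟨hax, ha⟩)
    unfold u
    rw [h1, h2, h3, cons_swap halt τ c a]
    rw [cons_swap halt τ c b] at h5
    push_cast at h5 ⊢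
    rintro ⟨h6, h7⟩
    have h8 := sign_lemma _ _ _ _ _ _ _ _ _ (pm2 a b na nb hab) (pm2 a c na nc hac)
      (pm2 b c nb nc hbc) (pm2 x a nx na hax.symm) (pm2 x b nx nb hbx.symm)
      (pm2 x c nx nc hcx.symm) pa h4 h5 h6 h7
    refine hgp τ x a b c ⟨?_, ?_, ?_⟩
    · exact_mod_cast h8.1
    · exact_mod_cast h8.2
    · have := ((pm2 x a nx na hax.symm).mul (pm2 b c nb nc hbc)).ne_zero
      exact_mod_cast this

end Pool.Agent.Lib.MP_a97014_co
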