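import Pool.Agent.Lib.MP_a97014_co.Core

/-!
The linear-algebra core in an arbitrary degree `w ≤ d + 1` (same argument as in `Core`).
-/

set_option autoImplicit false

namespace Pool.Agent.Lib.MP_a97014_co

open Finset

variable {α : Type*} [DecidableEq α] {W : Type*} [AddCommGroup W] [Module ℚ W]

/-- vanishing on `E` minus a point, for all sign vectors containing a circuit inside `E` -/
def QK (d w : ℕ) (σ : Finset α → α → ℚ) (f : Finset α → W) (E : Finset α) : Prop :=
  ∀ s : α → ℚ, (∀ i, PM (s i)) → ∀ D ⊆ E, D.card = d + 2 → ∀ ε : ℚ, PM ε →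
    (∀ i ∈ D, s i = ε * σ D i) → ∀ x ∈ E, F w f (E.erase x) s = 0

theorem QK.whole {d w : ℕ} {σ : Finset α → α → ℚ} {f : Finset α → W} {E : Finset α}
    (h : QK d w σ f E) (hp : w ≤ d + 1) (s : α → ℚ) (hs : ∀ i, PM (s i)) (D : Finset α) (hD : D ⊆ E)
    (hc : D.card = d + 2) (ε : ℚ) (hε : PM ε) (hsD : ∀ i ∈ D, s i = ε * σ D i) :
    F w f E s = 0 := by
  have h1 := sum_F_erase w f E s
  rw [sum_eq_zero (fun x hx => h s hs D hD hc ε hε hsD x hx)] at h1
  have h2 : E.card - w ≠ 0 := by
    have := card_le_card hD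
    omega
  have h3 : ((E.card - w : ℕ) : ℚ) ≠ 0 := by exact_mod_cast h2
  exact (smul_eq_zero.1 h1.symm).resolve_left h3

theorem walkK {d w : ℕ} (hdeg : w ≤ d + 1) {σ : Finset α → α → ℚ} (hσ : Sig d σ) {f : Finset α → W} {E G : Finset α}
    (hGE : G ⊆ E) (hG : G.card = d + 3) (ih : ∀ a ∈ G, QK d w σ f (E.erase a))
    {x : α} (hx : x ∈ G) (s : α → ℚ) (hs : ∀ i, PM (s i)) :
    ∀ a ∈ G, a ≠ x → ∀ δ : ℚ, PM δ → F w f (E.erase x) (tv σ G x s a δ) = 0 := by
  have cE : ∀ a ∈ G, (G.erase a).card = d + 2 := by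
    intro a ha; rw [card_erase_of_mem ha]; omega
  have tpm : ∀ a ∈ G, a ≠ x → ∀ δ : ℚ, PM δ → ∀ i, PM (tv σ G x s a δ i) := by
    intro a ha hax δ hδ i
    unfold tv
    split_ifs with h1 h2
    · exact hδ.mul (hσ.pm _ (cE x hx) _ (mem_erase.2 ⟨hax, ha⟩))
    · exact (hσ.pm _ (cE a ha) _ (mem_erase.2 ⟨hax.symm, hx⟩)).mul
        (hσ.pm _ (cE a ha) _ (mem_erase.2 ⟨h1, h2⟩))
    · exact hs i
  have tval : ∀ a ∈ G, ∀ δ : ℚ, ∀ i ∈ G, i ≠ a → i ≠ x →
      tv σ G x s a δ i = u σ G x a i * σ (G.erase x) i := by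
    intro a _ δ i hi hia hix
    have := (hσ.pm _ (cE x hx) i (mem_erase.2 ⟨hix, hi⟩)).sq
    unfold tv u
    rw [if_neg hia, if_pos hi, mul_assoc (σ (G.erase a) x * σ (G.erase a) i), this, mul_one]
  -- flipping the free coordinate
  have flip : ∀ a ∈ G, a ≠ x → ∀ δ : ℚ, PM δ → F w f (E.erase x) (tv σ G x s a δ) = 0 →
      F w f (E.erase x) (tv σ G x s a (-δ)) = 0 := by
    intro a ha hax δ hδ h0
    have h1 : F w f ((E.erase a).erase x) (tv σ G x s a δ) = 0 := by
      refine ih a ha _ (tpm a ha hax δ hδ) (G.erase a) (erase_subset_erase a hGE) (cE a ha)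
        (σ (G.erase a) x) (hσ.pm _ (cE a ha) _ (mem_erase.2 ⟨hax.symm, hx⟩)) ?_ x
        (mem_erase.2 ⟨hax.symm, hGE hx⟩)
      intro i hi
      rw [mem_erase] at hi
      unfold tv
      rw [if_neg hi.1, if_pos hi.2]
    have h2 := F_flip w f (E.erase x) (tv σ G x s a δ) a
    rw [erase_right_comm, h1, h0, smul_zero, zero_add] at h2
    rw [← h2]
    refine F_congr w f _ fun i _ => ?_
    by_cases hia : i = a
    · subst hia
      simp [tv]
    · rw [Function.update_of_ne hia]
      simp [tv, hia]
  -- the lower sets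
  let L : α → Finset α := fun a => ((G.erase x).erase a).filter (fun b => u σ G x a b = -1)
  have memL : ∀ a b, b ∈ L a ↔ (b ≠ a ∧ b ≠ x ∧ b ∈ G) ∧ u σ G x a b = -1 := by
    intro a b
    simp [L]
  have sub : ∀ a ∈ G, a ≠ x → ∀ p ∈ L a, L p ⊆ (L a).erase p := by
    intro a ha hax p hp b hb
    rw [memL] at hp hb
    obtain ⟨⟨hpa, hpx, hpG⟩, hap⟩ := hp
    obtain ⟨⟨hbp, hbx, hbG⟩, hpb⟩ := hb
    have hba : b ≠ a := by
      rintro rfl
      have := hσ.anti G hG x hx b hbG p hpG hbx hpx hbp
      rw [hap, hpb] at this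
      norm_num at this
    rw [mem_erase, memL]
    refine ⟨hbp, ⟨hba, hbx, hbG⟩, ?_⟩
    have h1 := hσ.trans G hG x hx a ha p hpG b hbG hax hpx hbx hpa.symm hbp.symm hba.symm
    have h2 := hσ.anti G hG x hx a ha b hbG hax hbx hba.symm
    rcases hσ.u_pm hG hx hbG ha hbx hax hba with h3 | h3
    · rw [h2, h3]
    · exact absurd ⟨by rw [hap, hpb], by rw [hpb, h3]⟩ h1
  have lt : ∀ a ∈ G, a ≠ x → ∀ p ∈ L a, (L p).card < (L a).card := by
    intro a ha hax p hp
    have h1 := card_le_card (sub a ha hax p hp)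
    rw [card_erase_of_mem hp] at h1
    have := card_pos.2 ⟨p, hp⟩
    omega
  have main : ∀ k, ∀ a ∈ G, a ≠ x → (L a).card = k →
      F w f (E.erase x) (tv σ G x s a 1) = 0 := by
    intro k
    induction k using Nat.strong_induction_on with
    | _ k IH =>
      intro a ha hax hk
      rcases (L a).eq_empty_or_nonempty with h0 | hne
      · refine (ih x hx).whole hdeg _ (tpm a ha hax 1 PM.one) (G.erase x) (erase_subset_erase x hGE)
          (cE x hx) 1 PM.one ?_
        intro i hi
        rw [mem_erase] at hi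
        by_cases hia : i = a
        · subst hia
          simp [tv]
        · rw [tval a ha 1 i hi.2 hia hi.1]
          rcases hσ.u_pm hG hx ha hi.2 hax hi.1 (Ne.symm hia) with h3 | h3
          · rw [h3]
          · have : i ∈ L a := (memL a i).2 ⟨⟨hia, hi.1, hi.2⟩, h3⟩
            rw [h0] at this
            simp at this
      · obtain ⟨p, hp, hmax⟩ := exists_max_image (L a) (fun b => (L b).card) hne
        have hp' := (memL a p).1 hp
        obtain ⟨⟨hpa, hpx, hpG⟩, hap⟩ := hp'
        have h1 := IH _ (hk ▸ lt a ha hax p hp) p hpG hpx rfl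
        have h2 := flip p hpG hpx 1 PM.one h1
        rw [← h2]
        refine F_congr w f _ fun i hi => ?_
        rw [mem_erase] at hi
        by_cases hiG : i ∈ G
        · by_cases hia : i = a
          · subst hia
            rw [tval p hpG _ i hiG (Ne.symm hpa) hax,
              hσ.anti G hG x hx p hpG i ha hpx hax hpa, hap]
            simp [tv]
          · by_cases hip : i = p
            · subst hip
              rw [tval a ha _ i hiG hia hi.1, hap]
              simp [tv]
            · rw [tval a ha _ i hiG hia hi.1, tval p hpG _ i hiG hip hi.1]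
              congr 1
              rcases hσ.u_pm hG hx hpG hiG hpx hi.1 (Ne.symm hip) with h3 | h3
              · rcases hσ.u_pm hG hx ha hiG hax hi.1 (Ne.symm hia) with h4 | h4
                · rw [h3, h4]
                · exfalso
                  have hiL : i ∈ L a := (memL a i).2 ⟨⟨hia, hi.1, hiG⟩, h4⟩
                  have hpi : p ∈ L i := by
                    refine (memL i p).2 ⟨⟨Ne.symm hip, hpx, hpG⟩, ?_⟩
                    rw [hσ.anti G hG x hx i hiG p hpG hi.1 hpx hip, h3]
                  have h5 := lt i hiG hi.1 p hpi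
                  have h6 := hmax i hiL
                  omega
              · have hiL : i ∈ L p := (memL p i).2 ⟨⟨hip, hi.1, hiG⟩, h3⟩
                have := (memL a i).1 (mem_of_mem_erase (sub a ha hax p hp hiL))
                rw [h3, this.2]
        · have hia : i ≠ a := fun h => hiG (h ▸ ha)
          have hip : i ≠ p := fun h => hiG (h ▸ hpG)
          simp [tv, hia, hip, hiG]
  intro a ha hax δ hδ
  rcases hδ with rfl | rfl
  · exact main _ a ha hax rfl
  · exact flip a ha hax 1 PM.one (main _ a ha hax rfl)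

theorem QK_all {d w : ℕ} (hdeg : w ≤ d + 1) {σ : Finset α → α → ℚ} (hσ : Sig d σ) {f : Finset α → W}
    (hf : ∀ D : Finset α, D.card = d + 2 → ∀ e ∈ D, F w f (D.erase e) (σ D) = 0) :
    ∀ m, ∀ E : Finset α, E.card = d + 2 + m → QK d w σ f E := by
  intro m
  induction m with
  | zero =>
    intro E hE s _ D hD hc ε _ hsD x hx
    have hDE : D = E := eq_of_subset_of_card_le hD (by omega)
    subst hDE
    rw [F_congr w f _ (t := fun i => ε * σ D i) (fun i hi => hsD i (mem_of_mem_erase hi)),
      F_scale, hf D hc x hx, smul_zero]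
  | succ m IH =>
    intro E hE s hs D hD hc ε hε hsD x hx
    have ih : ∀ a ∈ E, QK d w σ f (E.erase a) := by
      intro a ha
      apply IH
      rw [card_erase_of_mem ha]
      omega
    by_cases hxD : x ∈ D
    · obtain ⟨g, hgE, hgD⟩ : ∃ g ∈ E, g ∉ D := by
        by_contra hcon
        push Not at hcon
        have := card_le_card (show E ⊆ D from hcon)
        omega
      have hG : (insert g D).card = d + 3 := by rw [card_insert_of_notMem hgD]; omega
      have hGE : insert g D ⊆ E := insert_subset hgE hD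
      have hgx : g ≠ x := fun h => hgD (h ▸ hxD)
      have hxG : x ∈ insert g D := mem_insert_of_mem hxD
      have hgG : g ∈ insert g D := mem_insert_self g D
      have cx : ((insert g D).erase x).card = d + 2 := by rw [card_erase_of_mem hxG]; omega
      have hσg := hσ.pm _ cx g (mem_erase.2 ⟨hgx, hgG⟩)
      have h1 := walkK hdeg hσ hGE hG (fun a ha => ih a (hGE ha)) hxG (fun i => s x * s i)
        (fun i => (hs x).mul (hs i)) g hgG hgx (s x * s g * σ ((insert g D).erase x) g)
        (((hs x).mul (hs g)).mul hσg)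
      have h2 : F w f (E.erase x) (fun i => s x * s i) = 0 := by
        rw [← h1]
        refine F_congr w f _ fun i _ => ?_
        unfold tv
        split_ifs with h3 h4
        · rw [h3, mul_assoc (s x * s g), hσg.sq, mul_one]
        · have hiD : i ∈ D := (mem_insert.1 h4).resolve_left h3
          rw [erase_insert hgD, hsD x hxD, hsD i hiD]
          calc ε * σ D x * (ε * σ D i) = (ε * ε) * (σ D x * σ D i) := by ring
            _ = σ D x * σ D i := by rw [hε.sq, one_mul]
        · rfl
      rw [F_scale] at h2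
      exact (smul_eq_zero.1 h2).resolve_left (pow_ne_zero _ (hs x).ne_zero)
    · exact (ih x hx).whole hdeg s hs D (subset_erase.2 ⟨hD, hxD⟩) hc ε hε hsD

/-- the core theorem -/
theorem coreK [Fintype α] {d w : ℕ} (hd : 1 ≤ w) (hdeg : w ≤ d + 1)
    (hn : d + w + 1 ≤ Fintype.card α)
    {σ : Finset α → α → ℚ} (hσ : Sig d σ) {f : Finset α → W}
    (hf : ∀ D : Finset α, D.card = d + 2 → ∀ e ∈ D, F w f (D.erase e) (σ D) = 0)
    (S : Finset α) (hS : S.card = w) : f S = 0 := by
  obtain ⟨x, hx⟩ : S.Nonempty := card_pos.1 (by omega)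
  have hc : d + 1 ≤ (univ \ S).card := by
    rw [card_sdiff_of_subset (subset_univ S), card_univ]; omega
  obtain ⟨B, hB, hBc⟩ := exists_subset_card_eq hc
  have hxB : x ∉ B := fun h => (mem_sdiff.1 (hB h)).2 hx
  have hD : (insert x B).card = d + 2 := by rw [card_insert_of_notMem hxB, hBc]
  let s : α → ℚ := fun i => if i ∈ insert x B then σ (insert x B) i else 1
  have hs : ∀ i, PM (s i) := by
    intro i
    by_cases h : i ∈ insert x B
    · simp only [s, if_pos h]; exact hσ.pm _ hD i h
    · simp only [s, if_neg h]; exact PM.one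
  have hsD : ∀ i ∈ insert x B, s i = 1 * σ (insert x B) i := by
    intro i hi
    simp only [s, if_pos hi, one_mul]
  have hQ : ∀ E : Finset α, insert x B ⊆ E → QK d w σ f E := by
    intro E hE
    have := card_le_card hE
    exact QK_all hdeg hσ hf (E.card - (d + 2)) E (by omega)
  have h1 := sum_powerset_F w f s S hS
  rw [sum_eq_zero] at h1
  · have h2 : (∏ i ∈ S, s i) ≠ 0 := prod_ne_zero_iff.2 fun i _ => (hs i).ne_zero
    exact (smul_eq_zero.1 h1.symm).resolve_left h2
  · intro U hU
    rw [mem_powerset] at hU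
    have hsub : insert x B ⊆ univ \ U.erase x := by
      intro i hi
      rw [mem_sdiff, mem_erase]
      refine ⟨mem_univ _, fun h => ?_⟩
      rcases mem_insert.1 hi with h3 | h3
      · exact h.1 h3
      · exact (mem_sdiff.1 (hB h3)).2 (hU h.2)
    have h0 : F w f (univ \ U) s = 0 := by
      by_cases hxU : x ∈ U
      · have : univ \ U = (univ \ U.erase x).erase x := by
          ext i
          by_cases hi : i = x <;> simp [hi, hxU]
        rw [this]
        exact hQ _ hsub s hs _ hsub hD 1 PM.one hsD x (hsub (mem_insert_self x B))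
      · rw [erase_eq_of_notMem hxU] at hsub
        exact (hQ _ hsub).whole hdeg s hs _ hsub hD 1 PM.one hsD
    rw [h0, smul_zero]

end Pool.Agent.Lib.MP_a97014_co
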