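import Pool.Agent.Lib.MP_a97014_co.Count
import Pool.Agent.Lib.MP_a97014_co.CoreK

/-!
The dimension count for sign vectors at distance more than `k` from every signed circuit.
-/

set_option autoImplicit false

namespace Pool.Agent.Lib.MP_a97014_co

open Finset

variable {α : Type*} [DecidableEq α]

open Polynomial in
/-- a sign vector with at least `k` entries of each sign satisfies a relation in degree `w` -/
theorem coeff_rel {k w : ℕ} (B : Finset α) (hB : B.card + 1 = w + 2 * k) (hw : 1 ≤ w) (y : α → ℚ)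
    (h1 : k ≤ (B.filter fun i => y i = 1).card) (h2 : k ≤ (B.filter fun i => y i = -1).card) :
    ((∏ i ∈ B, (1 + C (y i) * X)) *
      (expand ℚ 2 ((∑ j ∈ range (w + 1), (X : ℚ[X]) ^ j) ^ k))).coeff w = 0 := by
  obtain ⟨P, hP, hPc⟩ := exists_subset_card_eq h1
  obtain ⟨N, hN, hNc⟩ := exists_subset_card_eq h2
  have hdis : Disjoint P N := by
    rw [disjoint_left]
    intro i hi hj
    have e1 := (mem_filter.1 (hP hi)).2
    have e2 := (mem_filter.1 (hN hj)).2
    rw [e1] at e2
    norm_num at e2
  have hsub : P ∪ N ⊆ B :=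
    union_subset (hP.trans (filter_subset _ _)) (hN.trans (filter_subset _ _))
  have hRc : (B \ (P ∪ N)).card + 1 = w := by
    have := card_le_card hsub
    rw [card_sdiff_of_subset hsub, card_union_of_disjoint hdis] at *
    omega
  have e1 : ∏ i ∈ P, (1 + C (y i) * X : ℚ[X]) = (1 + X) ^ k := by
    rw [← hPc, ← prod_const]
    refine prod_congr rfl fun i hi => ?_
    rw [(mem_filter.1 (hP hi)).2]
    simp
  have e2 : ∏ i ∈ N, (1 + C (y i) * X : ℚ[X]) = (1 - X) ^ k := by
    rw [← hNc, ← prod_const]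
    refine prod_congr rfl fun i hi => ?_
    rw [(mem_filter.1 (hN hi)).2]
    simp [sub_eq_add_neg]
  have hdegR : (∏ i ∈ B \ (P ∪ N), (1 + C (y i) * X : ℚ[X])).natDegree < w := by
    refine lt_of_le_of_lt (natDegree_prod_le _ _) ?_
    have : ∑ i ∈ B \ (P ∪ N), (1 + C (y i) * X : ℚ[X]).natDegree ≤ ∑ _i ∈ B \ (P ∪ N), 1 := by
      refine sum_le_sum fun i _ => ?_
      compute_degree
    rw [sum_const, smul_eq_mul, mul_one] at this
    omega
  have e3 : ((1 + X) ^ k * (1 - X) ^ k : ℚ[X]) *
      expand ℚ 2 ((∑ j ∈ range (w + 1), (X : ℚ[X]) ^ j) ^ k) = (1 - X ^ (2 * (w + 1))) ^ k := by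
    rw [map_pow, ← mul_pow, ← mul_pow]
    congr 1
    rw [map_sum]
    simp only [map_pow, expand_X]
    have := mul_neg_geom_sum ((X : ℚ[X]) ^ 2) (w + 1)
    rw [pow_mul, ← this]
    ring
  obtain ⟨Q, hQ⟩ : ((1 - X ^ (2 * (w + 1)) : ℚ[X]) - 1) ∣ (1 - X ^ (2 * (w + 1))) ^ k - 1 ^ k :=
    sub_dvd_pow_sub_pow _ _ _
  have e4 : ((1 - X ^ (2 * (w + 1))) ^ k : ℚ[X]) = 1 + X ^ (2 * (w + 1)) * (-Q) := by
    rw [one_pow] at hQ
    linear_combination hQ
  rw [← prod_sdiff hsub, prod_union hdis, e1, e2, mul_assoc, e3, e4, mul_add, mul_one, coeff_add,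
    coeff_eq_zero_of_natDegree_lt hdegR, zero_add, mul_left_comm, coeff_X_pow_mul',
    if_neg (by omega)]

open Polynomial in
theorem rel_mem_VK {k w : ℕ} {K : Finset (Finset α)} (B : Finset α) (hB : B.card + 1 = w + 2 * k)
    (hw : 1 ≤ w) (τ : α → ℚ)
    (h1 : ∀ T ∈ K, k ≤ (B.filter fun i => sg T i * τ i = 1).card)
    (h2 : ∀ T ∈ K, k ≤ (B.filter fun i => sg T i * τ i = -1).card) :
    ∑ S ∈ B.powersetCard w, (∏ i ∈ S, τ i) • mon K S ∈ V w K := by
  set G : ℚ[X] := expand ℚ 2 ((∑ j ∈ range (w + 1), (X : ℚ[X]) ^ j) ^ k) with hG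
  let g : ℕ → ℚ := fun c => if c ≤ w then G.coeff (w - c) else 0
  have g0 : g w = 1 := by
    simp only [g, le_refl, if_true, Nat.sub_self, hG]
    rw [coeff_expand (by norm_num), if_pos (by simp), Nat.zero_div, coeff_zero_eq_eval_zero,
      eval_pow, eval_finsetSum, sum_range_succ']
    simp
  have g1 : ∀ c, c ≠ w → ¬ (c + 2 ≤ w ∧ c % 2 = w % 2) → g c = 0 := by
    intro c hc h
    simp only [g]
    split_ifs with h3
    · rw [hG, coeff_expand (by norm_num), if_neg (by omega)]
    · rfl
  have e0 : ∑ U ∈ B.powerset, (g U.card * ∏ i ∈ U, τ i) • mon K U = 0 := by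
    funext T
    rw [Finset.sum_apply]
    have h := coeff_rel B hB hw (fun i => sg T.1 i * τ i) (h1 T.1 T.2) (h2 T.1 T.2)
    rw [← hG, prod_one_add, sum_mul, finsetSum_coeff] at h
    rw [Pi.zero_apply, ← h]
    refine sum_congr rfl fun U _ => ?_
    rw [prod_mul_distrib, prod_const, ← map_prod, mul_assoc, coeff_C_mul, coeff_X_pow_mul',
      prod_mul_distrib]
    simp only [Pi.smul_apply, mon, smul_eq_mul, g]
    ring
  rw [← sum_filter_add_sum_filter_not B.powerset (fun U => U.card = w)] at e0
  have e1 : B.powerset.filter (fun U => U.card = w) = B.powersetCard w := by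
    ext U; simp [mem_powersetCard]
  have e2 : ∑ U ∈ B.powersetCard w, (g U.card * ∏ i ∈ U, τ i) • mon K U
      = ∑ S ∈ B.powersetCard w, (∏ i ∈ S, τ i) • mon K S := by
    refine sum_congr rfl fun U hU => ?_
    rw [mem_powersetCard] at hU
    rw [hU.2, g0, one_mul]
  have e3 : ∑ U ∈ B.powerset.filter (fun U => ¬ U.card = w),
      (g U.card * ∏ i ∈ U, τ i) • mon K U ∈ V w K := by
    refine Submodule.sum_mem _ fun U hU => ?_
    rw [mem_filter, mem_powerset] at hU
    by_cases hp : U.card + 2 ≤ w ∧ U.card % 2 = w % 2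
    · exact Submodule.smul_mem _ _ (Submodule.subset_span ⟨U, hp.1, hp.2, rfl⟩)
    · rw [g1 _ hU.2 hp]
      simp
  rw [e1, e2] at e0
  rw [eq_neg_of_add_eq_zero_left e0]
  exact Submodule.neg_mem _ e3

theorem filter_erase_card {D : Finset α} {p : α → Prop} [DecidablePred p] {k : ℕ} (e : α)
    (h : k < (D.filter p).card) : k ≤ ((D.erase e).filter p).card := by
  rw [filter_erase]
  have := pred_card_le_card_erase (s := D.filter p) (a := e)
  omega

theorem mon_mem_VK [Fintype α] {d k w : ℕ} (hw : w + 2 * k = d + 2) (hk : 1 ≤ k) (hd : 1 ≤ w)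
    (hn : d + w + 1 ≤ Fintype.card α)
    {σ : Finset α → α → ℚ} (hσ : Sig d σ) {K : Finset (Finset α)}
    (h1 : ∀ T ∈ K, ∀ D : Finset α, D.card = d + 2 →
      k < (D.filter fun i => sg T i * σ D i = 1).card)
    (h2 : ∀ T ∈ K, ∀ D : Finset α, D.card = d + 2 →
      k < (D.filter fun i => sg T i * σ D i = -1).card)
    (S : Finset α) (hS : S.card = w) : mon K S ∈ V w K := by
  have := coreK (W := (K → ℚ) ⧸ V w K) hd (by omega) hn hσ
    (f := fun S => (V w K).mkQ (mon K S)) ?_ S hS
  · exact (Submodule.Quotient.mk_eq_zero _).1 this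
  · intro D hD e he
    have hm := rel_mem_VK (k := k) (w := w) (K := K) (D.erase e)
      (by rw [card_erase_of_mem he]; omega) hd
      (σ D) (fun T hT => filter_erase_card e (h1 T hT D hD))
      (fun T hT => filter_erase_card e (h2 T hT D hD))
    unfold F
    simp only [← map_smul, ← map_sum]
    exact (Submodule.Quotient.mk_eq_zero _).2 hm

theorem card_leK [Fintype α] {d k w : ℕ} (hw : w + 2 * k = d + 2) (hk : 1 ≤ k) (hd : 2 ≤ w)
    (hn : d + w + 1 ≤ Fintype.card α)
    {σ : Finset α → α → ℚ} (hσ : Sig d σ) {K : Finset (Finset α)}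
    (h1 : ∀ T ∈ K, ∀ D : Finset α, D.card = d + 2 →
      k < (D.filter fun i => sg T i * σ D i = 1).card)
    (h2 : ∀ T ∈ K, ∀ D : Finset α, D.card = d + 2 →
      k < (D.filter fun i => sg T i * σ D i = -1).card) :
    K.card ≤ 2 * ∑ i ∈ range (w - 1), (Fintype.card α - 1).choose i := by
  classical
  obtain ⟨z⟩ : Nonempty α := Fintype.card_pos_iff.1 (by omega)
  let 𝒰 : Finset (Finset α) := univ.filter (fun S => (S.erase z).card + 2 ≤ w)
  let V2 : Submodule ℚ (K → ℚ) := Submodule.span ℚ (𝒰.image (mon K) : Finset (K → ℚ))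
  have gen : ∀ S : Finset α, (S.erase z).card + 2 ≤ w → mon K S ∈ V2 := by
    intro S hS
    refine Submodule.subset_span ?_
    simp only [coe_image, Set.mem_image, mem_coe]
    exact ⟨S, by simp [𝒰, hS], rfl⟩
  have mulc : ∀ i : α, (∀ S : Finset α, (S.erase z).card + 2 ≤ w → mon K {i} * mon K S ∈ V2) →
      ∀ g ∈ V2, mon K {i} * g ∈ V2 := by
    intro i hi g hg
    induction hg using Submodule.span_induction with
    | mem g hg =>
      simp only [coe_image, Set.mem_image, mem_coe] at hg
      obtain ⟨S, hS, rfl⟩ := hg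
      exact hi S (by simpa [𝒰] using hS)
    | zero => simp
    | add g g' _ _ ha hb => rw [mul_add]; exact V2.add_mem ha hb
    | smul c g _ ha => rw [mul_smul_comm]; exact V2.smul_mem c ha
  have ha : V w K ≤ V2 := by
    refine Submodule.span_le.2 ?_
    rintro g ⟨S, hS, -, rfl⟩
    have := card_erase_le (s := S) (a := z)
    exact gen S (by omega)
  have hb : ∀ g ∈ V2, mon K {z} * g ∈ V2 := by
    refine mulc z fun S hS => ?_
    by_cases hz : z ∈ S
    · rw [← mon_erase K hz]
      exact gen _ (by rwa [erase_idem])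
    · rw [← mon_insert K hz]
      exact gen _ (by rwa [erase_insert_eq_erase])
  have hc : ∀ S : Finset α, (S.erase z).card + 1 ≤ w → mon K S ∈ V2 := by
    intro S hS
    rcases Nat.lt_or_ge ((S.erase z).card + 1) w with h | h
    · exact gen S (by omega)
    · have h3 : mon K (insert z (S.erase z)) ∈ V2 := by
        refine ha (mon_mem_VK hw hk (by omega) hn hσ h1 h2 _ ?_)
        rw [card_insert_of_notMem (notMem_erase z S)]
        omega
      by_cases hz : z ∈ S
      · rwa [insert_erase hz] at h3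
      · have h4 := hb _ h3
        rwa [← mon_erase K (mem_insert_self z _), erase_insert (notMem_erase z S),
          erase_eq_of_notMem hz] at h4
  have hd' : ∀ i : α, ∀ g ∈ V2, mon K {i} * g ∈ V2 := by
    intro i
    refine mulc i fun S hS => ?_
    by_cases hi : i ∈ S
    · rw [← mon_erase K hi]
      refine gen _ ?_
      have := card_le_card (erase_subset_erase z (erase_subset i S))
      omega
    · rw [← mon_insert K hi]
      refine hc _ ?_
      have h3 : (insert i S).erase z ⊆ insert i (S.erase z) := by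
        intro j hj
        simp only [mem_erase, mem_insert] at hj ⊢
        tauto
      have h4 := card_le_card h3
      have h5 := card_insert_le i (S.erase z)
      omega
  have he : ∀ S : Finset α, mon K S ∈ V2 := by
    intro S
    induction S using Finset.induction_on with
    | empty => exact gen _ (by simpa using hd)
    | insert i S hi ih => rw [mon_insert K hi]; exact hd' i _ ih
  have hf : ∀ T : K, (Pi.single T (1 : ℚ) : K → ℚ) ∈ V2 := by
    intro T
    have h3 : ((2 : ℚ) ^ Fintype.card α) • (Pi.single T (1 : ℚ) : K → ℚ)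
        = ∑ U ∈ (univ : Finset α).powerset, (∏ i ∈ U, sg T.1 i) • mon K U := by
      funext T'
      rw [Finset.sum_apply]
      have h4 : ∀ U ∈ (univ : Finset α).powerset, ((∏ i ∈ U, sg T.1 i) • mon K U) T'
          = ∏ i ∈ U, (sg T.1 i * sg T'.1 i) := by
        intro U _
        simp [mon, prod_mul_distrib]
      rw [sum_congr rfl h4, ← prod_one_add]
      by_cases hT : T' = T
      · subst hT
        have h5 : ∀ i ∈ (univ : Finset α), 1 + sg T'.1 i * sg T'.1 i = 2 := by
          intro i _
          rw [(sg_pm _ _).sq]; norm_num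
        rw [prod_congr rfl h5]
        simp
      · have h5 : ∃ i, ¬ (i ∈ T'.1 ↔ i ∈ T.1) := by
          by_contra hcon
          push Not at hcon
          exact hT (Subtype.ext (Finset.ext hcon))
        obtain ⟨i, hi⟩ := h5
        rw [prod_eq_zero (mem_univ i)]
        · simp [Pi.single_eq_of_ne hT]
        · unfold sg
          by_cases h6 : i ∈ T.1 <;> by_cases h7 : i ∈ T'.1 <;> simp_all
    have h6 : ((2 : ℚ) ^ Fintype.card α) • (Pi.single T (1 : ℚ) : K → ℚ) ∈ V2 := by
      rw [h3]
      exact Submodule.sum_mem _ fun U _ => V2.smul_mem _ (he U)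
    exact (Submodule.smul_mem_iff _ (by positivity)).1 h6
  have htop : V2 = ⊤ := by
    rw [eq_top_iff]
    intro g _
    rw [pi_eq_sum_univ' g]
    exact Submodule.sum_mem _ fun T _ => V2.smul_mem _ (hf T)
  have hrank : K.card ≤ 𝒰.card := by
    have h3 : Module.finrank ℚ V2 ≤ (𝒰.image (mon K)).card := finrank_span_finset_le_card _
    rw [htop, finrank_top, Module.finrank_fintype_fun_eq_card, Fintype.card_coe] at h3
    exact h3.trans card_image_le
  refine hrank.trans ?_
  have h7 : 𝒰.card ≤ 2 * (𝒰.image (fun S => S.erase z)).card := by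
    refine card_le_mul_card_image _ _ fun A _ => ?_
    have : 𝒰.filter (fun S => S.erase z = A) ⊆ {A, insert z A} := by
      intro S hS
      rw [mem_filter] at hS
      rw [mem_insert, mem_singleton, ← hS.2]
      by_cases hz : z ∈ S
      · right; rw [insert_erase hz]
      · left; rw [erase_eq_of_notMem hz]
    exact (card_le_card this).trans card_le_two
  refine h7.trans (Nat.mul_le_mul_left 2 ?_)
  have h8 : 𝒰.image (fun S => S.erase z)
      ⊆ (range (w - 1)).biUnion (fun i => powersetCard i (univ.erase z)) := by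
    intro A hA
    rw [mem_image] at hA
    obtain ⟨S, hS, rfl⟩ := hA
    have hS' : (S.erase z).card + 2 ≤ w := by simpa [𝒰] using hS
    rw [mem_biUnion]
    refine ⟨(S.erase z).card, mem_range.2 (by omega), ?_⟩
    rw [mem_powersetCard]
    exact ⟨erase_subset_erase z (subset_univ S), rfl⟩
  refine (card_le_card h8).trans (card_biUnion_le.trans ?_)
  refine le_of_eq (sum_congr rfl fun i _ => ?_)
  rw [card_powersetCard, card_erase_of_mem (mem_univ z), card_univ]

end Pool.Agent.Lib.MP_a97014_co
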