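import Mathlib

/-!
Uniform chirotopes, cocircuits, covectors, topes and complete cells.
-/

set_option autoImplicit false

namespace Pool.Agent.Lib.MP_a97014_co

variable {n d : ℕ}

/-- A uniform chirotope of rank `d + 1` on `n` elements: an alternating sign map that vanishes
exactly on tuples with a repeated entry and satisfies the chirotope exchange condition. -/
structure UniformChirotope (χ : (Fin (d + 1) → Fin n) → ℤ) : Prop where
  sign : ∀ x, χ x = 0 ∨ χ x = 1 ∨ χ x = -1
  uniform : ∀ x, χ x ≠ 0 ↔ Function.Injective x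
  alt : ∀ (x : Fin (d + 1) → Fin n) (σ : Equiv.Perm (Fin (d + 1))),
    χ (x ∘ σ) = ((Equiv.Perm.sign σ : ℤˣ) : ℤ) * χ x
  exchange : ∀ x y : Fin (d + 1) → Fin n,
    (∀ i, 0 ≤ χ (Function.update x 0 (y i)) * χ (Function.update y i (x 0))) → 0 ≤ χ x * χ y

/-- The signed cocircuits: `e ↦ ± χ (e, τ)` for `d` distinct elements `τ`. -/
def IsCocircuit (χ : (Fin (d + 1) → Fin n) → ℤ) (Y : Fin n → ℤ) : Prop :=
  ∃ τ : Fin d → Fin n, Function.Injective τ ∧
    ((∀ e, Y e = χ (Fin.cons e τ)) ∨ ∀ e, Y e = -χ (Fin.cons e τ))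

/-- The covectors: finite compositions of cocircuits. -/
inductive IsCovector (χ : (Fin (d + 1) → Fin n) → ℤ) : (Fin n → ℤ) → Prop
  | zero : IsCovector χ 0
  | comp (X Y : Fin n → ℤ) : IsCovector χ X → IsCocircuit χ Y →
      IsCovector χ (fun e => if X e = 0 then Y e else X e)

/-- The topes: maximal covectors for the conformal order. -/
def IsTope (χ : (Fin (d + 1) → Fin n) → ℤ) (T : Fin n → ℤ) : Prop :=
  IsCovector χ T ∧ ∀ X, IsCovector χ X → (∀ e, T e = 0 ∨ T e = X e) → X = T

/-- A tope is complete if reversing any one coordinate gives a tope. -/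
def IsComplete (χ : (Fin (d + 1) → Fin n) → ℤ) (T : Fin n → ℤ) : Prop :=
  IsTope χ T ∧ ∀ e, IsTope χ (Function.update T e (-T e))

/-- The complete cells: antipodal pairs of complete topes. -/
def completeCells (χ : (Fin (d + 1) → Fin n) → ℤ) : Set (Set (Fin n → ℤ)) :=
  {C | ∃ T, IsComplete χ T ∧ C = {T, -T}}

end Pool.Agent.Lib.MP_a97014_co
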