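import Pool.Agent.Lib.MP_a97014_co.Defs

/-!
Neighbourly reorientations of a uniform chirotope.
-/

set_option autoImplicit false

namespace Pool.Agent.Lib.MP_a97014_co

variable {n d : ℕ}

/-- The sign of the `i`-th element of the signed circuit on the `(d+2)`-tuple `y`, after the
elements of `R` have been reoriented. -/
def circuitSign (χ : (Fin (d + 1) → Fin n) → ℤ) (R : Finset (Fin n)) (y : Fin (d + 2) → Fin n)
    (i : Fin (d + 2)) : ℤ :=
  (if y i ∈ R then -1 else 1) * ((-1) ^ (i : ℕ) * χ (y ∘ i.succAbove))

/-- The reorientation on `R` is `k`-neighbourly: every circuit has more than `k` positive and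
more than `k` negative elements. -/
def IsNeighborly (χ : (Fin (d + 1) → Fin n) → ℤ) (k : ℕ) (R : Finset (Fin n)) : Prop :=
  ∀ y : Fin (d + 2) → Fin n, Function.Injective y →
    k < (Finset.univ.filter fun i => circuitSign χ R y i = 1).card ∧
    k < (Finset.univ.filter fun i => circuitSign χ R y i = -1).card

end Pool.Agent.Lib.MP_a97014_co
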