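import Mathlib
import Pool.Agent.Lib.MP_a97014_co.Core

/-!
Gluing cyclic orders on the complements of all `m`-sets into one linear order.
-/

set_option autoImplicit false

namespace Pool.Agent.Lib.MP_a97014_co

open Finset

variable {α : Type*} [DecidableEq α]

/-- a function on `k`-subsets that is invariant under exchanging one element is constant -/
theorem swap_const {β : Type*} (U : Finset α) (k : ℕ) (φ : Finset α → β)
    (h : ∀ R ⊆ U, R.card = k → ∀ a ∈ U, ∀ b ∈ U, a ∉ R → b ∉ R →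
      φ (insert a R) = φ (insert b R)) :
    ∀ S ⊆ U, ∀ T ⊆ U, S.card = k + 1 → T.card = k + 1 → φ S = φ T := by
  have key : ∀ r : ℕ, ∀ S ⊆ U, ∀ T ⊆ U, S.card = k + 1 → T.card = k + 1 → (S \ T).card = r →
      φ S = φ T := by
    intro r
    induction r with
    | zero =>
      intro S _ T _ hS hT h0
      rw [card_eq_zero, sdiff_eq_empty_iff_subset] at h0
      rw [eq_of_subset_of_card_le h0 (by omega)]
    | succ r ih =>
      intro S hSU T hTU hS hT h0
      obtain ⟨a, ha⟩ : (S \ T).Nonempty := card_pos.1 (by omega)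
      have h1 : (T \ S).card = (S \ T).card := card_sdiff_comm (by omega)
      obtain ⟨b, hb⟩ : (T \ S).Nonempty := card_pos.1 (by omega)
      rw [mem_sdiff] at ha hb
      have hR : (S.erase a).card = k := by rw [card_erase_of_mem ha.1]; omega
      have hbR : b ∉ S.erase a := fun h => hb.2 (mem_of_mem_erase h)
      have h2 := h (S.erase a) ((erase_subset a S).trans hSU) hR a (hSU ha.1) b (hTU hb.1)
        (notMem_erase a S) hbR
      rw [insert_erase ha.1] at h2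
      rw [h2]
      refine ih _ (insert_subset (hTU hb.1) ((erase_subset a S).trans hSU)) T hTU
        (by rw [card_insert_of_notMem hbR, hR]) hT ?_
      have h3 : insert b (S.erase a) \ T = (S \ T).erase a := by
        ext x
        simp only [mem_sdiff, mem_insert, mem_erase]
        constructor
        · rintro ⟨h4 | h4, h5⟩
          · exact absurd (h4 ▸ hb.1) h5
          · exact ⟨h4.1, h4.2, h5⟩
        · rintro ⟨h4, h5, h6⟩
          exact ⟨Or.inr ⟨h4, h5⟩, h6⟩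
      rw [h3, card_erase_of_mem (mem_sdiff.2 ha)]
      omega
  intro S hS T hT h1 h2
  exact key _ S hS T hT h1 h2 rfl

/-- `θ` is the sign function of a cyclic order on the complement of `A` -/
structure Cyc (A : Finset α) (θ : α → α → α → ℚ) : Prop where
  pm : ∀ i j k, i ∉ A → j ∉ A → k ∉ A → i ≠ j → i ≠ k → j ≠ k → PM (θ i j k)
  sw1 : ∀ i j k, θ i j k = -θ j i k
  sw2 : ∀ i j k, θ i j k = -θ i k j
  prod : ∀ i j k l, i ∉ A → j ∉ A → k ∉ A → l ∉ A → i ≠ j → i ≠ k → i ≠ l → j ≠ k → j ≠ l →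
    k ≠ l → θ i k l * θ j k l * (θ i j k * θ i j l) = 1
  trans : ∀ i j k l, i ∉ A → j ∉ A → k ∉ A → l ∉ A → i ≠ j → i ≠ k → i ≠ l → j ≠ k → j ≠ l →
    k ≠ l → θ i j k = θ i k l → θ i j l = θ i j k

theorem glue [Fintype α] {m : ℕ} (cr : Finset α → α → α → α → α → ℚ)
    (hav : ∀ Y : Finset α, Y.card ≤ 6 → ∃ A : Finset α, A.card = m ∧ ∀ y ∈ Y, y ∉ A)
    (hn : m + 5 ≤ Fintype.card α)
    (H : ∀ A : Finset α, A.card = m → ∃ θ : α → α → α → ℚ, Cyc A θ ∧
      ∀ i j k l a, i ∉ A → j ∉ A → k ∉ A → l ∉ A → a ∉ A → i ≠ j → i ≠ k → i ≠ l → j ≠ k →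
        j ≠ l → k ≠ l → a ≠ i → a ≠ j → a ≠ k → a ≠ l →
        cr (insert a A) i j k l = θ i j k * θ i j l) :
    ∃ w : α → α → ℚ, (∀ x y, w x y = -w y x) ∧ (∀ x y, x ≠ y → PM (w x y)) ∧
      (∀ x y z, w x y = 1 → w y z = 1 → w x z = 1) ∧
      ∀ C : Finset α, C.card = m + 1 → ∀ i j k l, i ∉ C → j ∉ C → k ∉ C → l ∉ C → i ≠ j →
        i ≠ k → i ≠ l → j ≠ k → j ≠ l → k ≠ l →
        cr C i j k l = w i k * w j k * (w i l * w j l) := by
  choose! Θ hΘ hcr using H
  choose! av hav1 hav2 using hav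
  -- a fifth point
  have fifth : ∀ A : Finset α, A.card = m → ∀ i j k l : α,
      ∃ a, a ∉ A ∧ a ≠ i ∧ a ≠ j ∧ a ≠ k ∧ a ≠ l := by
    intro A hA i j k l
    have h1 : (A ∪ {i, j, k, l}).card < (univ : Finset α).card := by
      have h2 := card_union_le A {i, j, k, l}
      have h3 : ({i, j, k, l} : Finset α).card ≤ 4 := card_le_four
      rw [card_univ]
      omega
    obtain ⟨a, -, ha⟩ := exists_mem_notMem_of_card_lt_card h1
    simp only [mem_union, mem_insert, mem_singleton, not_or] at ha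
    exact ⟨a, ha⟩
  -- the cross ratio sign does not depend on the contracted set
  have L2 : ∀ i j k l : α, i ≠ j → i ≠ k → i ≠ l → j ≠ k → j ≠ l → k ≠ l →
      ∀ C C' : Finset α, C.card = m + 1 → C'.card = m + 1 →
      i ∉ C → j ∉ C → k ∉ C → l ∉ C → i ∉ C' → j ∉ C' → k ∉ C' → l ∉ C' →
      cr C i j k l = cr C' i j k l := by
    intro i j k l hij hik hil hjk hjl hkl C C' hC hC' c1 c2 c3 c4 d1 d2 d3 d4
    have hU : ∀ S : Finset α, S ⊆ univ \ {i, j, k, l} ↔ (i ∉ S ∧ j ∉ S ∧ k ∉ S ∧ l ∉ S) := by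
      intro S
      rw [subset_sdiff]
      simp
    refine swap_const (univ \ {i, j, k, l}) m (fun C => cr C i j k l) ?_ C
      ((hU C).2 ⟨c1, c2, c3, c4⟩) C' ((hU C').2 ⟨d1, d2, d3, d4⟩) hC hC'
    intro R hR hRc a ha b hb haR hbR
    obtain ⟨r1, r2, r3, r4⟩ := (hU R).1 hR
    simp only [mem_sdiff, mem_univ, true_and, mem_insert, mem_singleton, not_or] at ha hb
    rw [hcr R hRc i j k l a r1 r2 r3 r4 haR hij hik hil hjk hjl hkl ha.1 ha.2.1 ha.2.2.1 ha.2.2.2,
      hcr R hRc i j k l b r1 r2 r3 r4 hbR hij hik hil hjk hjl hkl hb.1 hb.2.1 hb.2.2.1 hb.2.2.2]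
  have L3 : ∀ A A' : Finset α, A.card = m → A'.card = m → ∀ i j k l : α,
      i ∉ A → j ∉ A → k ∉ A → l ∉ A → i ∉ A' → j ∉ A' → k ∉ A' → l ∉ A' →
      i ≠ j → i ≠ k → i ≠ l → j ≠ k → j ≠ l →
      Θ A i j k * Θ A i j l = Θ A' i j k * Θ A' i j l := by
    intro A A' hA hA' i j k l c1 c2 c3 c4 d1 d2 d3 d4 hij hik hil hjk hjl
    by_cases hkl : k = l
    · subst hkl
      rw [((hΘ A hA).pm i j k c1 c2 c3 hij hik hjk).sq,
        ((hΘ A' hA').pm i j k d1 d2 d3 hij hik hjk).sq]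
    · obtain ⟨a, a0, a1, a2, a3, a4⟩ := fifth A hA i j k l
      obtain ⟨b, b0, b1, b2, b3, b4⟩ := fifth A' hA' i j k l
      rw [← hcr A hA i j k l a c1 c2 c3 c4 a0 hij hik hil hjk hjl hkl a1 a2 a3 a4,
        ← hcr A' hA' i j k l b d1 d2 d3 d4 b0 hij hik hil hjk hjl hkl b1 b2 b3 b4]
      refine L2 i j k l hij hik hil hjk hjl hkl _ _
        (by rw [card_insert_of_notMem a0, hA]) (by rw [card_insert_of_notMem b0, hA'])
        ?_ ?_ ?_ ?_ ?_ ?_ ?_ ?_ <;> simp [mem_insert, *, Ne.symm]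
  obtain ⟨p, q, r, hpq, hpr, hqr⟩ : ∃ p q r : α, p ≠ q ∧ p ≠ r ∧ q ≠ r := by
    have : 2 < (univ : Finset α).card := by rw [card_univ]; omega
    obtain ⟨p, q, r, -, -, -, h⟩ := two_lt_card_iff.1 this
    exact ⟨p, q, r, h⟩
  -- consistency of the oriented orders
  have L4 : ∀ A A' : Finset α, A.card = m → A'.card = m → ∀ x y : α,
      p ∉ A → q ∉ A → r ∉ A → x ∉ A → y ∉ A → p ∉ A' → q ∉ A' → r ∉ A' → x ∉ A' → y ∉ A' →
      x ≠ y → x ≠ p → y ≠ p →
      Θ A p q r * Θ A p x y = Θ A' p q r * Θ A' p x y := by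
    intro A A' hA hA' x y c1 c2 c3 c4 c5 d1 d2 d3 d4 d5 hxy hxp hyp
    by_cases hxq : x = q
    · subst hxq
      exact L3 A A' hA hA' p x r y c1 c2 c3 c5 d1 d2 d3 d5 hpq hpr hyp.symm hqr hxy
    · have e1 := L3 A A' hA hA' p q r x c1 c2 c3 c4 d1 d2 d3 d4 hpq hpr hxp.symm hqr
        (Ne.symm hxq)
      have e2 := L3 A A' hA hA' p x q y c1 c4 c2 c5 d1 d4 d2 d5 hxp.symm hpq hyp.symm hxq hxy
      have s1 := ((hΘ A hA).pm p q x c1 c2 c4 hpq hxp.symm (Ne.symm hxq)).sq
      have s2 := ((hΘ A' hA').pm p q x d1 d2 d4 hpq hxp.symm (Ne.symm hxq)).sq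
      rw [(hΘ A hA).sw2 p x q, (hΘ A' hA').sw2 p x q] at e2
      have e3 : Θ A p q x * Θ A p x y = Θ A' p q x * Θ A' p x y := by linear_combination -e2
      calc Θ A p q r * Θ A p x y = (Θ A p q r * Θ A p q x) * (Θ A p q x * Θ A p x y) := by
            linear_combination (-(Θ A p q r * Θ A p x y)) * s1
        _ = (Θ A' p q r * Θ A' p q x) * (Θ A' p q x * Θ A' p x y) := by rw [e1, e3]
        _ = Θ A' p q r * Θ A' p x y := by
            linear_combination (Θ A' p q r * Θ A' p x y) * s2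
  let w : α → α → ℚ := fun x y => if x = y then 0 else if x = p then 1 else if y = p then -1
    else Θ (av {p, q, r, x, y}) p q r * Θ (av {p, q, r, x, y}) p x y
  have c5 : ∀ x y : α, ({p, q, r, x, y} : Finset α).card ≤ 6 := fun x y =>
    le_trans card_le_five (by omega)
  have c6 : ∀ x y z : α, ({p, q, r, x, y, z} : Finset α).card ≤ 6 := fun x y z => card_le_six
  have w0 : ∀ x, w x x = 0 := fun x => by simp [w]
  have w1 : ∀ y, y ≠ p → w p y = 1 := fun y hy => by simp [w, hy.symm]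
  have w2 : ∀ y, y ≠ p → w y p = -1 := fun y hy => by simp [w, hy]
  have w3 : ∀ A : Finset α, A.card = m → p ∉ A → q ∉ A → r ∉ A → ∀ x y, x ∉ A → y ∉ A →
      x ≠ y → x ≠ p → y ≠ p → w x y = Θ A p q r * Θ A p x y := by
    intro A hA c1 c2 c3 x y c4 c5' hxy hxp hyp
    have h2 := hav2 _ (c5 x y)
    simp only [w, if_neg hxy, if_neg hxp, if_neg hyp]
    exact L4 _ A (hav1 _ (c5 x y)) hA x y (h2 p (by simp)) (h2 q (by simp)) (h2 r (by simp))
      (h2 x (by simp)) (h2 y (by simp)) c1 c2 c3 c4 c5' hxy hxp hyp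
  have anti : ∀ x y, w x y = -w y x := by
    intro x y
    by_cases hxy : x = y
    · subst hxy; rw [w0]; simp
    by_cases hxp : x = p
    · subst hxp; rw [w1 y (Ne.symm hxy), w2 y (Ne.symm hxy)]; simp
    by_cases hyp : y = p
    · subst hyp; rw [w1 x hxy, w2 x hxy]
    have h1 := hav1 _ (c5 x y)
    have h2 := hav2 _ (c5 x y)
    rw [w3 _ h1 (h2 p (by simp)) (h2 q (by simp)) (h2 r (by simp)) x y (h2 x (by simp))
      (h2 y (by simp)) hxy hxp hyp, w3 _ h1 (h2 p (by simp)) (h2 q (by simp)) (h2 r (by simp)) y x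
      (h2 y (by simp)) (h2 x (by simp)) (Ne.symm hxy) hyp hxp, (hΘ _ h1).sw2 p x y]
    ring
  have wpm : ∀ x y, x ≠ y → PM (w x y) := by
    intro x y hxy
    by_cases hxp : x = p
    · subst hxp; rw [w1 y (Ne.symm hxy)]; exact PM.one
    by_cases hyp : y = p
    · subst hyp; rw [w2 x hxy]; exact PM.one.neg
    have h1 := hav1 _ (c5 x y)
    have h2 := hav2 _ (c5 x y)
    rw [w3 _ h1 (h2 p (by simp)) (h2 q (by simp)) (h2 r (by simp)) x y (h2 x (by simp))
      (h2 y (by simp)) hxy hxp hyp]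
    exact ((hΘ _ h1).pm p q r (h2 p (by simp)) (h2 q (by simp)) (h2 r (by simp)) hpq hpr hqr).mul
      ((hΘ _ h1).pm p x y (h2 p (by simp)) (h2 x (by simp)) (h2 y (by simp)) (Ne.symm hxp)
        (Ne.symm hyp) hxy)
  -- the cyclic orders are induced by `w`
  have F : ∀ A : Finset α, A.card = m → p ∉ A → q ∉ A → r ∉ A → ∀ i j k, i ∉ A → j ∉ A → k ∉ A →
      i ≠ j → i ≠ k → j ≠ k → Θ A i j k = Θ A p q r * (w i j * w i k * w j k) := by
    intro A hA c1 c2 c3 i j k d1 d2 d3 hij hik hjk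
    have hη := ((hΘ A hA).pm p q r c1 c2 c3 hpq hpr hqr).sq
    by_cases hi : i = p
    · subst hi
      rw [w1 j hij.symm, w1 k hik.symm, w3 A hA c1 c2 c3 j k d2 d3 hjk hij.symm hik.symm]
      linear_combination (-(Θ A i j k)) * hη
    by_cases hj : j = p
    · subst hj
      rw [w2 i hij, w1 k hjk.symm, w3 A hA c1 c2 c3 i k d1 d3 hik hij hjk.symm,
        (hΘ A hA).sw1 i j k]
      linear_combination (Θ A j i k) * hη
    by_cases hk : k = p
    · subst hk
      rw [w2 i hik, w2 j hjk, w3 A hA c1 c2 c3 i j d1 d2 hij hik hjk,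
        (hΘ A hA).sw2 i j k, (hΘ A hA).sw1 i k j]
      linear_combination (-(Θ A k i j)) * hη
    rw [w3 A hA c1 c2 c3 i j d1 d2 hij hi hj, w3 A hA c1 c2 c3 i k d1 d3 hik hi hk,
      w3 A hA c1 c2 c3 j k d2 d3 hjk hj hk]
    have h1 := (hΘ A hA).prod p i j k c1 d1 d2 d3 (Ne.symm hi) (Ne.symm hj) (Ne.symm hk) hij hik
      hjk
    have h2 := ((hΘ A hA).pm i j k d1 d2 d3 hij hik hjk).sq
    calc Θ A i j k = Θ A i j k * (Θ A p j k * Θ A i j k * (Θ A p i j * Θ A p i k)) := by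
          rw [h1, mul_one]
      _ = Θ A p j k * (Θ A p i j * Θ A p i k) := by
          linear_combination (Θ A p j k * (Θ A p i j * Θ A p i k)) * h2
      _ = _ := by
          linear_combination (-(Θ A p j k * (Θ A p i j * Θ A p i k))
            * (Θ A p q r * Θ A p q r + 1)) * hη
  have F2 : ∀ A : Finset α, A.card = m → p ∉ A → q ∉ A → r ∉ A → ∀ i j k l, i ∉ A → j ∉ A →
      k ∉ A → l ∉ A → i ≠ j → i ≠ k → j ≠ k → i ≠ l → j ≠ l →
      Θ A i j k * Θ A i j l = w i k * w j k * (w i l * w j l) := by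
    intro A hA c1 c2 c3 i j k l d1 d2 d3 d4 hij hik hjk hil hjl
    have hη := ((hΘ A hA).pm p q r c1 c2 c3 hpq hpr hqr).sq
    have hw := (wpm i j hij).sq
    rw [F A hA c1 c2 c3 i j k d1 d2 d3 hij hik hjk, F A hA c1 c2 c3 i j l d1 d2 d4 hij hil hjl]
    linear_combination (w i j * w i j * (w i k * w j k * (w i l * w j l))) * hη
      + (w i k * w j k * (w i l * w j l)) * hw
  refine ⟨w, anti, wpm, ?_, ?_⟩
  · intro x y z hxy hyz
    have n1 : x ≠ y := by rintro rfl; rw [w0] at hxy; norm_num at hxy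
    have n2 : y ≠ z := by rintro rfl; rw [w0] at hyz; norm_num at hyz
    have n3 : x ≠ z := by
      rintro rfl
      rw [anti, hxy] at hyz
      norm_num at hyz
    have hyp : y ≠ p := by
      rintro rfl
      rw [w2 x n1] at hxy
      norm_num at hxy
    have hzp : z ≠ p := by
      rintro rfl
      rw [w2 y n2] at hyz
      norm_num at hyz
    by_cases hxp : x = p
    · rw [hxp]; exact w1 z hzp
    have h1 := hav1 _ (c6 x y z)
    have h2 := hav2 _ (c6 x y z)
    set A := av {p, q, r, x, y, z}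
    have c1 : p ∉ A := h2 p (by simp)
    have c2 : q ∉ A := h2 q (by simp)
    have c3 : r ∉ A := h2 r (by simp)
    have d1 : x ∉ A := h2 x (by simp)
    have d2 : y ∉ A := h2 y (by simp)
    have d3 : z ∉ A := h2 z (by simp)
    have hη := ((hΘ A h1).pm p q r c1 c2 c3 hpq hpr hqr).sq
    rw [w3 A h1 c1 c2 c3 x y d1 d2 n1 hxp hyp] at hxy
    rw [w3 A h1 c1 c2 c3 y z d2 d3 n2 hyp hzp] at hyz
    rw [w3 A h1 c1 c2 c3 x z d1 d3 n3 hxp hzp,
      (hΘ A h1).trans p x y z c1 d1 d2 d3 (Ne.symm hxp) hyp.symm hzp.symm n1 n3 n2 ?_, hxy]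
    linear_combination (Θ A p q r) * hxy - (Θ A p q r) * hyz + (Θ A p y z - Θ A p x y) * hη
  · intro C hC i j k l c1 c2 c3 c4 hij hik hil hjk hjl hkl
    have red : ∀ A : Finset α, A.card = m → i ∉ A → j ∉ A → k ∉ A → l ∉ A →
        cr C i j k l = Θ A i j k * Θ A i j l := by
      intro A hA d1 d2 d3 d4
      obtain ⟨a, a0, a1, a2, a3, a4⟩ := fifth A hA i j k l
      rw [← hcr A hA i j k l a d1 d2 d3 d4 a0 hij hik hil hjk hjl hkl a1 a2 a3 a4]
      refine L2 i j k l hij hik hil hjk hjl hkl _ _ hC (by rw [card_insert_of_notMem a0, hA])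
        c1 c2 c3 c4 ?_ ?_ ?_ ?_ <;> simp [mem_insert, *, Ne.symm]
    by_cases hi : i = p
    · have h1 := hav1 _ (c6 j k l)
      have h2 := hav2 _ (c6 j k l)
      have d1 : i ∉ av {p, q, r, j, k, l} := h2 i (by simp [hi])
      rw [red _ h1 d1 (h2 j (by simp)) (h2 k (by simp)) (h2 l (by simp))]
      exact F2 _ h1 (h2 p (by simp)) (h2 q (by simp)) (h2 r (by simp)) i j k l d1
        (h2 j (by simp)) (h2 k (by simp)) (h2 l (by simp)) hij hik hjk hil hjl
    by_cases hj : j = p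
    · have h1 := hav1 _ (c6 i k l)
      have h2 := hav2 _ (c6 i k l)
      have d1 : j ∉ av {p, q, r, i, k, l} := h2 j (by simp [hj])
      rw [red _ h1 (h2 i (by simp)) d1 (h2 k (by simp)) (h2 l (by simp))]
      exact F2 _ h1 (h2 p (by simp)) (h2 q (by simp)) (h2 r (by simp)) i j k l
        (h2 i (by simp)) d1 (h2 k (by simp)) (h2 l (by simp)) hij hik hjk hil hjl
    have c5' : ({p, i, j, k, l} : Finset α).card ≤ 6 := le_trans card_le_five (by omega)
    have h1 := hav1 _ c5'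
    have h2 := hav2 _ c5'
    set A := av {p, i, j, k, l}
    have d0 : p ∉ A := h2 p (by simp)
    have d1 : i ∉ A := h2 i (by simp)
    have d2 : j ∉ A := h2 j (by simp)
    have d3 : k ∉ A := h2 k (by simp)
    have d4 : l ∉ A := h2 l (by simp)
    have one : ∀ x, x ∉ A → i ≠ x → j ≠ x → Θ A i j x * Θ A i j p = w i x * w j x := by
      intro x hx hix hjx
      have g1 := hav1 _ (c6 i j x)
      have g2 := hav2 _ (c6 i j x)
      rw [L3 A _ h1 g1 i j x p d1 d2 hx d0 (g2 i (by simp)) (g2 j (by simp)) (g2 x (by simp))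
        (g2 p (by simp)) hij hix hi hjx hj,
        F2 _ g1 (g2 p (by simp)) (g2 q (by simp)) (g2 r (by simp)) i j x p (g2 i (by simp))
        (g2 j (by simp)) (g2 x (by simp)) (g2 p (by simp)) hij hix hjx hi hj, w2 i hi, w2 j hj]
      ring
    have hs := ((hΘ A h1).pm i j p d1 d2 d0 hij hi hj).sq
    rw [red A h1 d1 d2 d3 d4, ← one k d3 hik hjk, ← one l d4 hil hjl]
    linear_combination (-(Θ A i j k * Θ A i j l)) * hs

end Pool.Agent.Lib.MP_a97014_co
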