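import Mathlib
import Pool.Agent.Lib.MP_a97014_co.Count

/-!
Minors of a circuit signature, the deletion-contraction inequality for complete topes, and the
existence of a complete tope in every rank three contraction of an extremal signature.
-/

set_option autoImplicit false

namespace Pool.Agent.Lib.MP_a97014_co

open Finset

variable {α : Type*} [DecidableEq α]

/-- `T` is the negative part of a complete tope of the minor with ground set `E` obtained by
contracting `A`. -/
def Cond (d : ℕ) (σ : Finset α → α → ℚ) (E A T : Finset α) : Prop :=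
  ∀ D ⊆ E, D.card + A.card = d + 2 → ∀ e ∈ D, ∀ v : ℚ, PM v →
    ∃ i ∈ D.erase e, sg T i * σ (D ∪ A) i = v

open Classical in
/-- the complete topes of a minor -/
noncomputable def KK (d : ℕ) (σ : Finset α → α → ℚ) (E A : Finset α) : Finset (Finset α) :=
  E.powerset.filter (Cond d σ E A)

theorem mem_KK {d : ℕ} {σ : Finset α → α → ℚ} {E A T : Finset α} :
    T ∈ KK d σ E A ↔ T ⊆ E ∧ Cond d σ E A T := by
  unfold KK
  simp only [mem_filter, mem_powerset]

theorem Sig.minor {d d' : ℕ} {σ : Finset α → α → ℚ} (hσ : Sig d σ) {E A : Finset α}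
    (hEA : Disjoint E A) (hd : d' + A.card = d) :
    Sig d' (fun (D : Finset {x // x ∈ E}) (i : {x // x ∈ E}) =>
      σ (D.map (Function.Embedding.subtype _) ∪ A) i.1) := by
  have hcard : ∀ D : Finset {x // x ∈ E},
      (D.map (Function.Embedding.subtype _) ∪ A).card = D.card + A.card := by
    intro D
    rw [card_union_of_disjoint, card_map]
    refine disjoint_left.2 fun x hx hxA => ?_
    obtain ⟨y, -, rfl⟩ := mem_map.1 hx
    exact disjoint_left.1 hEA y.2 hxA
  have hmem : ∀ (D : Finset {x // x ∈ E}) (i : {x // x ∈ E}), i ∈ D →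
      i.1 ∈ D.map (Function.Embedding.subtype _) ∪ A :=
    fun D i hi => mem_union_left _ (mem_map.2 ⟨i, hi, rfl⟩)
  have her : ∀ (G : Finset {x // x ∈ E}) (a : {x // x ∈ E}),
      (G.erase a).map (Function.Embedding.subtype _) ∪ A
        = (G.map (Function.Embedding.subtype _) ∪ A).erase a.1 := by
    intro G a
    rw [map_erase, erase_union_distrib, erase_eq_of_notMem (disjoint_left.1 hEA a.2)]
    rfl
  have hu : ∀ (G : Finset {x // x ∈ E}) (x a b : {x // x ∈ E}),
      u (fun (D : Finset {x // x ∈ E}) (i : {x // x ∈ E}) =>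
        σ (D.map (Function.Embedding.subtype _) ∪ A) i.1) G x a b
        = u σ (G.map (Function.Embedding.subtype _) ∪ A) x.1 a.1 b.1 := by
    intro G x a b
    unfold u
    simp only [her]
  refine ⟨?_, ?_, ?_⟩
  · intro D hD i hi
    exact hσ.pm _ (by rw [hcard]; omega) _ (hmem D i hi)
  · intro G hG x hx a ha b hb hax hbx hab
    rw [hu, hu]
    exact hσ.anti _ (by rw [hcard]; omega) _ (hmem G x hx) _ (hmem G a ha) _ (hmem G b hb)
      (fun h => hax (Subtype.ext h)) (fun h => hbx (Subtype.ext h)) (fun h => hab (Subtype.ext h))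
  · intro G hG x hx a ha b hb c hc hax hbx hcx hab hbc hac
    rw [hu, hu, hu]
    exact hσ.trans _ (by rw [hcard]; omega) _ (hmem G x hx) _ (hmem G a ha) _ (hmem G b hb) _
      (hmem G c hc) (fun h => hax (Subtype.ext h)) (fun h => hbx (Subtype.ext h))
      (fun h => hcx (Subtype.ext h)) (fun h => hab (Subtype.ext h))
      (fun h => hbc (Subtype.ext h)) (fun h => hac (Subtype.ext h))

theorem KK_card_le {d d' : ℕ} {σ : Finset α → α → ℚ} (hσ : Sig d σ) {E A : Finset α}
    (hEA : Disjoint E A) (hd : d' + A.card = d) (hd' : 2 ≤ d') (hn : 2 * d' + 1 ≤ E.card) :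
    (KK d σ E A).card ≤ 2 * ∑ i ∈ range (d' - 1), (E.card - 1).choose i := by
  have key : ∀ v : ℚ, PM v → ∀ T ∈ (KK d σ E A).image (fun T => T.subtype (· ∈ E)),
      ∀ D : Finset {x // x ∈ E}, D.card = d' + 2 → ∀ e ∈ D,
      ∃ i ∈ D.erase e, sg T i * σ (D.map (Function.Embedding.subtype _) ∪ A) i.1 = v := by
    intro v hv T hT D hD e he
    obtain ⟨T0, hT0, rfl⟩ := mem_image.1 hT
    obtain ⟨i, hi, hiv⟩ := (mem_KK.1 hT0).2 (D.map (Function.Embedding.subtype _))
      (by
        intro x hx
        obtain ⟨y, -, rfl⟩ := mem_map.1 hx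
        exact y.2)
      (by rw [card_map]; omega) e.1 (mem_map.2 ⟨e, he, rfl⟩) v hv
    obtain ⟨hie, hiD⟩ := mem_erase.1 hi
    obtain ⟨j, hj, rfl⟩ := mem_map.1 hiD
    refine ⟨j, mem_erase.2 ⟨fun h => hie (congrArg Subtype.val h), hj⟩, ?_⟩
    rw [← hiv]
    have e1 : sg (T0.subtype (· ∈ E)) j = sg T0 j.1 := by
      unfold sg
      by_cases h : j.1 ∈ T0 <;> simp [mem_subtype, h]
    rw [e1]
    rfl
  have h := card_le (α := {x // x ∈ E}) hd' (by simpa using hn) (hσ.minor hEA hd)
    (K := (KK d σ E A).image (fun T => T.subtype (· ∈ E)))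
    (key 1 (Or.inl rfl)) (key (-1) (Or.inr rfl))
  rw [card_image_of_injOn] at h
  · simpa using h
  · intro S hS T hT hST
    have h1 := (mem_KK.1 (mem_coe.1 hS)).1
    have h2 := (mem_KK.1 (mem_coe.1 hT)).1
    ext x
    constructor
    · intro hx
      have : (⟨x, h1 hx⟩ : {x // x ∈ E}) ∈ S.subtype (· ∈ E) := mem_subtype.2 hx
      simp only at hST
      rw [hST] at this
      exact mem_subtype.1 this
    · intro hx
      have : (⟨x, h2 hx⟩ : {x // x ∈ E}) ∈ T.subtype (· ∈ E) := mem_subtype.2 hx
      simp only at hST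
      rw [← hST] at this
      exact mem_subtype.1 this

theorem sg_insert_ne {T : Finset α} {e i : α} (h : i ≠ e) : sg (insert e T) i = sg T i := by
  unfold sg
  simp [h]

theorem KK_rec {d : ℕ} {σ : Finset α → α → ℚ} {E A : Finset α} {e : α} (heE : e ∈ E)
    (heA : e ∉ A) :
    (KK d σ E A).card ≤ (KK d σ (E.erase e) A).card + (KK d σ (E.erase e) (insert e A)).card := by
  rw [← card_memberSubfamily_add_card_nonMemberSubfamily e (KK d σ E A),
    ← card_union_add_card_inter]
  refine Nat.add_le_add (card_le_card ?_) (card_le_card ?_)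
  · intro T hT
    rw [mem_union, mem_memberSubfamily, mem_nonMemberSubfamily] at hT
    rw [mem_KK]
    rcases hT with ⟨h1, h2⟩ | ⟨h1, h2⟩
    · rw [mem_KK] at h1
      refine ⟨subset_erase.2 ⟨(subset_insert e T).trans h1.1, h2⟩, ?_⟩
      intro D hD hc x hx v hv
      obtain ⟨i, hi, hiv⟩ := h1.2 D (hD.trans (erase_subset e E)) hc x hx v hv
      have hie : i ≠ e := (mem_erase.1 (hD (mem_of_mem_erase hi))).1
      exact ⟨i, hi, by rwa [sg_insert_ne hie] at hiv⟩
    · rw [mem_KK] at h1
      refine ⟨subset_erase.2 ⟨h1.1, h2⟩, ?_⟩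
      intro D hD hc x hx v hv
      exact h1.2 D (hD.trans (erase_subset e E)) hc x hx v hv
  · intro T hT
    rw [mem_inter, mem_memberSubfamily, mem_nonMemberSubfamily, mem_KK, mem_KK] at hT
    obtain ⟨⟨h1, h2⟩, h3, -⟩ := hT
    rw [mem_KK]
    refine ⟨subset_erase.2 ⟨h3.1, h2⟩, ?_⟩
    intro D hD hc x hx v hv
    have heD : e ∉ D := fun h => (mem_erase.1 (hD h)).1 rfl
    have hsub : insert e D ⊆ E := insert_subset heE (hD.trans (erase_subset e E))
    have hc' : (insert e D).card + A.card = d + 2 := by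
      rw [card_insert_of_notMem heD]
      rw [card_insert_of_notMem heA] at hc
      omega
    have hU : insert e D ∪ A = D ∪ insert e A := by
      rw [insert_union, union_insert]
    obtain ⟨i, hi, hiv⟩ := h1.2 _ hsub hc' x (mem_insert_of_mem hx) v hv
    obtain ⟨j, hj, hjv⟩ := h3.2 _ hsub hc' x (mem_insert_of_mem hx) v hv
    rw [hU] at hiv hjv
    by_cases hje : j = e
    · by_cases hie : i = e
      · exfalso
        rw [hie] at hiv
        rw [hje] at hjv
        have e1 : sg (insert e T) e = -1 := by unfold sg; simp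
        have e2 : sg T e = 1 := by unfold sg; simp [h2]
        rw [e1] at hiv
        rw [e2] at hjv
        exact hv.ne_zero (by linear_combination (-hiv - hjv) / 2)
      · obtain ⟨hix, hiD⟩ := mem_erase.1 hi
        refine ⟨i, mem_erase.2 ⟨hix, (mem_insert.1 hiD).resolve_left hie⟩, ?_⟩
        rwa [sg_insert_ne hie] at hiv
    · obtain ⟨hjx, hjD⟩ := mem_erase.1 hj
      exact ⟨j, mem_erase.2 ⟨hjx, (mem_insert.1 hjD).resolve_left hje⟩, hjv⟩

theorem pascal_sum (m k : ℕ) : ∑ i ∈ range (k + 1), (m + 1).choose i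
    = ∑ i ∈ range (k + 1), m.choose i + ∑ i ∈ range k, m.choose i := by
  induction k with
  | zero => simp
  | succ k ih =>
    rw [sum_range_succ, ih, sum_range_succ _ (k + 1), sum_range_succ _ k, Nat.choose_succ_succ']
    omega

/-- extremality passes to contractions as long as the deletion stays in the range of the bound -/
theorem KK_contract {d : ℕ} {σ : Finset α → α → ℚ} (hσ : Sig d σ) {E A0 : Finset α}
    (hEA : Disjoint E A0) (B : Finset α) : ∀ k m : ℕ, B ⊆ E →
      A0.card + B.card + k + 2 = d → B.card + m + 1 = E.card →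
      2 * (B.card + k + 2) + 2 ≤ E.card →
      2 * ∑ i ∈ range (B.card + k + 1), (B.card + m).choose i ≤ (KK d σ E A0).card →
      2 * ∑ i ∈ range (k + 1), m.choose i ≤ (KK d σ (E \ B) (B ∪ A0)).card := by
  induction B using Finset.induction_on with
  | empty =>
    intro k m _ _ _ _ h
    simpa using h
  | insert e B heB ih =>
    intro k m hB h1 h2 h3 h4
    rw [card_insert_of_notMem heB] at h1 h2 h3 h4
    have hBE : B ⊆ E := (subset_insert e B).trans hB
    have heE : e ∈ E := hB (mem_insert_self e B)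
    have h5 := ih (k + 1) (m + 1) hBE (by omega) (by omega) (by omega)
      (by rw [show B.card + (k + 1) + 1 = B.card + 1 + k + 1 by ring,
        show B.card + (m + 1) = B.card + 1 + m by ring]; exact h4)
    have heA : e ∉ B ∪ A0 := by
      rw [mem_union]
      rintro (h | h)
      · exact heB h
      · exact disjoint_left.1 hEA heE h
    have h6 := KK_rec (d := d) (σ := σ) (E := E \ B) (A := B ∪ A0) (e := e)
      (mem_sdiff.2 ⟨heE, heB⟩) heA
    have hE' : (E \ B).erase e = E \ insert e B := by
      rw [sdiff_insert]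
    have hc : (E \ insert e B).card = m + 1 := by
      rw [card_sdiff_of_subset hB, card_insert_of_notMem heB]
      omega
    have hdis : Disjoint (E \ insert e B) (B ∪ A0) := by
      refine disjoint_left.2 fun x hx hx2 => ?_
      rw [mem_sdiff, mem_insert] at hx
      rcases mem_union.1 hx2 with h | h
      · exact hx.2 (Or.inr h)
      · exact disjoint_left.1 hEA hx.1 h
    have hcU : (B ∪ A0).card = B.card + A0.card :=
      card_union_of_disjoint (disjoint_of_subset_left hBE hEA)
    have h7 := KK_card_le (d' := k + 3) hσ hdis (by omega) (by omega) (by omega)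
    rw [hE', ← insert_union] at h6
    rw [hc] at h7
    rw [pascal_sum] at h5
    simp only [Nat.add_sub_cancel, show k + 3 - 1 = k + 1 + 1 by omega] at h7
    omega

theorem exists_cond [Fintype α] {m : ℕ} {σ : Finset α → α → ℚ} (hσ : Sig (m + 2) σ)
    (hn : 2 * (m + 2) + 2 ≤ Fintype.card α)
    (hK : 2 * ∑ i ∈ range (m + 1), (Fintype.card α - 1).choose i
      ≤ (KK (m + 2) σ univ ∅).card) (A : Finset α) (hA : A.card = m) :
    ∃ T, Cond (m + 2) σ (univ \ A) A T := by
  have h := KK_contract hσ (E := univ) (A0 := ∅) (disjoint_empty_right _) A 0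
    (Fintype.card α - 1 - m) (subset_univ _) (by simp [hA]) (by rw [card_univ]; omega)
    (by rw [card_univ]; omega)
    (by rw [hA, show m + (Fintype.card α - 1 - m) = Fintype.card α - 1 by omega]; exact hK)
  rw [union_empty] at h
  simp only [zero_add, range_one, sum_singleton, Nat.choose_zero_right] at h
  obtain ⟨T, hT⟩ : (KK (m + 2) σ (univ \ A) A).Nonempty := card_pos.1 (by omega)
  exact ⟨T, (mem_KK.1 hT).2⟩

end Pool.Agent.Lib.MP_a97014_co
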