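import Pool.Agent.Lib.MP_a97014_co.Chi
import Pool.Agent.Lib.MP_a97014_co.Defs

/-!
From covectors to circuit signatures.
-/

set_option autoImplicit false

namespace Pool.Agent.Lib.MP_a97014_co

open Finset

variable {n d : ℕ}

theorem UniformChirotope.zero {χ : (Fin (d + 1) → Fin n) → ℤ} (h : UniformChirotope χ)
    {x : Fin (d + 1) → Fin n} (hx : ¬ Function.Injective x) : χ x = 0 := by
  by_contra h0
  exact hx ((h.uniform x).1 h0)

theorem Th_zero (χ : (Fin (d + 1) → Fin n) → ℤ) (y : Fin (d + 2) → Fin n) :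
    Th χ y 0 = χ (Fin.tail y) := by
  unfold Th
  simp only [Fin.val_zero, pow_zero, one_mul]
  congr 1

theorem update_tail (y : Fin (d + 2) → Fin n) (i : Fin (d + 1)) :
    Function.update (Fin.tail y) i (y 0) = Fin.tail (y ∘ Equiv.swap 0 i.succ) := by
  funext j
  by_cases hj : j = i
  · subst hj
    simp [Fin.tail]
  · have h1 : j.succ ≠ i.succ := fun h => hj (Fin.succ_injective _ h)
    simp [Fin.tail, Function.update_of_ne hj, Equiv.swap_apply_of_ne_of_ne (Fin.succ_ne_zero j) h1]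

/-- the exchange condition in terms of a cocircuit and a circuit -/
theorem UniformChirotope.ex0 {χ : (Fin (d + 1) → Fin n) → ℤ} (h : UniformChirotope χ)
    (τ : Fin d → Fin n) (y : Fin (d + 2) → Fin n)
    (hy : ∀ i : Fin (d + 1), χ (Fin.cons (y i.succ) τ) * Th χ y i.succ ≤ 0) :
    0 ≤ χ (Fin.cons (y 0) τ) * Th χ y 0 := by
  rw [Th_zero]
  refine h.exchange _ _ fun i => ?_
  have h1 : Function.update (Fin.cons (y 0) τ : Fin (d + 1) → Fin n) 0 (Fin.tail y i)
      = Fin.cons (y i.succ) τ := by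
    rw [Fin.update_cons_zero]; rfl
  have h2 : χ (Function.update (Fin.tail y) i ((Fin.cons (y 0) τ : Fin (d + 1) → Fin n) 0))
      = -Th χ y i.succ := by
    rw [Fin.cons_zero, update_tail, ← Th_zero χ, Th_perm h.alt,
      Equiv.Perm.sign_swap (Fin.succ_ne_zero i).symm]
    simp
  rw [h1, h2]
  have := hy i
  linarith

theorem UniformChirotope.ex1 {χ : (Fin (d + 1) → Fin n) → ℤ} (h : UniformChirotope χ)
    (τ : Fin d → Fin n) (y : Fin (d + 2) → Fin n) (π : Equiv.Perm (Fin (d + 2)))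
    (hy : ∀ i, i ≠ π 0 →
      ((Equiv.Perm.sign π : ℤˣ) : ℤ) * (χ (Fin.cons (y i) τ) * Th χ y i) ≤ 0) :
    0 ≤ ((Equiv.Perm.sign π : ℤˣ) : ℤ) * (χ (Fin.cons (y (π 0)) τ) * Th χ y (π 0)) := by
  have := h.ex0 τ (y ∘ π) (fun i => by
    rw [Th_perm h.alt]
    have := hy (π i.succ) (fun e => Fin.succ_ne_zero i (π.injective e))
    simp only [Function.comp_apply]
    linarith)
  rw [Th_perm h.alt] at this
  simp only [Function.comp_apply] at this
  linarith

theorem exists_perm (hd : 1 ≤ d) (i : Fin (d + 2)) (s : ℤ) (hs : s = 1 ∨ s = -1) :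
    ∃ π : Equiv.Perm (Fin (d + 2)), π 0 = i ∧ ((Equiv.Perm.sign π : ℤˣ) : ℤ) = s := by
  obtain ⟨k, rfl⟩ : ∃ k, d = k + 1 := ⟨d - 1, by omega⟩
  have h12 : (1 : Fin (k + 1 + 2)) ≠ 2 := by
    intro h
    have := congrArg Fin.val h
    simp at this
    rw [Nat.mod_eq_of_lt (by omega)] at this
    omega
  have h01 : (0 : Fin (k + 1 + 2)) ≠ 1 := by simp
  have h02 : (0 : Fin (k + 1 + 2)) ≠ 2 := by
    intro h
    have := congrArg Fin.val h
    simp at this
    rw [Nat.mod_eq_of_lt (by omega)] at this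
    omega
  have hu : ∀ u : ℤˣ, (u : ℤ) = 1 ∨ (u : ℤ) = -1 := fun u => by
    rcases Int.units_eq_one_or u with rfl | rfl <;> simp
  by_cases he : ((Equiv.Perm.sign (Equiv.swap (0 : Fin (k + 1 + 2)) i) : ℤˣ) : ℤ) = s
  · exact ⟨Equiv.swap 0 i, by simp, he⟩
  · refine ⟨Equiv.swap 0 i * Equiv.swap 1 2, ?_, ?_⟩
    · simp [Equiv.swap_apply_of_ne_of_ne h01 h02]
    · rw [map_mul, Equiv.Perm.sign_swap h12]
      push_cast
      rcases hu (Equiv.Perm.sign (Equiv.swap (0 : Fin (k + 1 + 2)) i)) with h | h <;>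
        rcases hs with rfl | rfl <;> simp_all

/-- orthogonality of a sign vector to the circuit on `y` -/
def Orth (χ : (Fin (d + 1) → Fin n) → ℤ) (X : Fin n → ℤ) (y : Fin (d + 2) → Fin n) : Prop :=
  (∀ i, X (y i) = 0) ∨ ((∃ i, 0 < X (y i) * Th χ y i) ∧ ∃ i, X (y i) * Th χ y i < 0)

theorem UniformChirotope.Th_ne {χ : (Fin (d + 1) → Fin n) → ℤ} (h : UniformChirotope χ)
    {y : Fin (d + 2) → Fin n} (hy : Function.Injective y) (i : Fin (d + 2)) : Th χ y i ≠ 0 := by
  unfold Th
  refine mul_ne_zero (by simp) ((h.uniform _).2 (hy.comp Fin.succAbove_right_injective))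

theorem UniformChirotope.orth_cons {χ : (Fin (d + 1) → Fin n) → ℤ} (h : UniformChirotope χ)
    (hd : 1 ≤ d) (τ : Fin d → Fin n) {y : Fin (d + 2) → Fin n} (hy : Function.Injective y) :
    Orth χ (fun e => χ (Fin.cons e τ)) y := by
  by_cases h0 : ∀ i, χ (Fin.cons (y i) τ) = 0
  · exact Or.inl h0
  right
  push Not at h0
  obtain ⟨i, hi⟩ := h0
  have hne := mul_ne_zero hi (h.Th_ne hy i)
  constructor
  · by_contra hc
    push Not at hc
    obtain ⟨π, hπ, hs⟩ := exists_perm hd i 1 (Or.inl rfl)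
    have := h.ex1 τ y π (fun j _ => by rw [hs, one_mul]; exact hc j)
    rw [hs, hπ, one_mul] at this
    exact hne (le_antisymm (hc i) this)
  · by_contra hc
    push Not at hc
    obtain ⟨π, hπ, hs⟩ := exists_perm hd i (-1) (Or.inr rfl)
    have := h.ex1 τ y π (fun j _ => by rw [hs]; have := hc j; linarith)
    rw [hs, hπ] at this
    exact hne (le_antisymm (by linarith) (hc i))

theorem UniformChirotope.orth {χ : (Fin (d + 1) → Fin n) → ℤ} (h : UniformChirotope χ)
    (hd : 1 ≤ d) {X : Fin n → ℤ} (hX : IsCovector χ X) {y : Fin (d + 2) → Fin n}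
    (hy : Function.Injective y) : Orth χ X y := by
  induction hX with
  | zero => exact Or.inl fun _ => rfl
  | comp X Y _ hY ih =>
    rcases ih with h0 | ⟨⟨i, hi⟩, ⟨j, hj⟩⟩
    · obtain ⟨τ, -, hτ⟩ := hY
      have ho := h.orth_cons hd τ hy
      unfold Orth at ho ⊢
      simp only [h0, if_true]
      rcases hτ with hτ | hτ
      · simpa only [hτ] using ho
      · simp only [hτ]
        rcases ho with ho | ⟨⟨i, hi⟩, ⟨j, hj⟩⟩
        · exact Or.inl fun i => by simp [ho i]
        · exact Or.inr ⟨⟨j, by linarith⟩, ⟨i, by linarith⟩⟩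
    · have hi0 : X (y i) ≠ 0 := fun e => by simp [e] at hi
      have hj0 : X (y j) ≠ 0 := fun e => by simp [e] at hj
      exact Or.inr ⟨⟨i, by simpa [hi0] using hi⟩, ⟨j, by simpa [hj0] using hj⟩⟩

theorem UniformChirotope.cov_sign {χ : (Fin (d + 1) → Fin n) → ℤ} (h : UniformChirotope χ)
    {X : Fin n → ℤ} (hX : IsCovector χ X) (e : Fin n) : X e = 0 ∨ X e = 1 ∨ X e = -1 := by
  induction hX with
  | zero => exact Or.inl rfl
  | comp X Y _ hY ih =>
    obtain ⟨τ, -, hτ⟩ := hY
    have := h.sign (Fin.cons e τ)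
    by_cases h0 : X e = 0
    · simp only [h0, if_true]
      rcases hτ with hτ | hτ <;> rw [hτ] <;> omega
    · simp only [h0, if_false]
      omega

theorem cov_neg {χ : (Fin (d + 1) → Fin n) → ℤ} {X : Fin n → ℤ} (hX : IsCovector χ X) :
    IsCovector χ (-X) := by
  induction hX with
  | zero => simpa using IsCovector.zero
  | comp X Y _ hY ih =>
    have hY' : IsCocircuit χ (-Y) := by
      obtain ⟨τ, h1, hτ⟩ := hY
      refine ⟨τ, h1, ?_⟩
      rcases hτ with hτ | hτ
      · exact Or.inr fun e => by simp [hτ]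
      · exact Or.inl fun e => by simp [hτ]
    have := IsCovector.comp _ _ ih hY'
    have e : (-fun e => if X e = 0 then Y e else X e)
        = fun e => if (-X) e = 0 then (-Y) e else (-X) e := by
      funext e
      by_cases h0 : X e = 0 <;> simp [h0]
    rw [e]
    exact this

theorem tope_neg {χ : (Fin (d + 1) → Fin n) → ℤ} {T : Fin n → ℤ} (hT : IsTope χ T) :
    IsTope χ (-T) := by
  refine ⟨cov_neg hT.1, fun X hX hle => ?_⟩
  have := hT.2 (-X) (cov_neg hX) fun e => by
    rcases hle e with h | h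
    · left; simpa using h
    · right; simp only [Pi.neg_apply] at h ⊢; linarith
  rw [← this, neg_neg]

theorem complete_neg {χ : (Fin (d + 1) → Fin n) → ℤ} {T : Fin n → ℤ} (hT : IsComplete χ T) :
    IsComplete χ (-T) := by
  refine ⟨tope_neg hT.1, fun e => ?_⟩
  have := tope_neg (hT.2 e)
  have e1 : -Function.update T e (-T e) = Function.update (-T) e (-(-T) e) := by
    funext j
    by_cases hj : j = e
    · subst hj; simp
    · simp [Function.update_of_ne hj]
  rwa [e1] at this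

theorem UniformChirotope.tope_pm {χ : (Fin (d + 1) → Fin n) → ℤ} (h : UniformChirotope χ)
    (hn : d + 1 ≤ n) {T : Fin n → ℤ} (hT : IsTope χ T) (e : Fin n) : T e = 1 ∨ T e = -1 := by
  obtain ⟨S, hS, hc⟩ := Finset.exists_subset_card_eq
    (s := (univ : Finset (Fin n)).erase e) (n := d) (by simp; omega)
  obtain ⟨τ, hτ, hr⟩ := exists_enum S hc
  have hinj : Function.Injective (Fin.cons e τ : Fin (d + 1) → Fin n) := by
    rw [Fin.cons_injective_iff]
    refine ⟨fun hm => ?_, hτ⟩
    have := hS ((hr e).1 hm)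
    simp at this
  have hY : IsCocircuit χ (fun e => χ (Fin.cons e τ)) := ⟨τ, hτ, Or.inl fun _ => rfl⟩
  have h1 := hT.2 _ (IsCovector.comp _ _ hT.1 hY) fun j => by
    by_cases h0 : T j = 0 <;> simp [h0]
  have h2 := congrFun h1 e
  have h3 : T e ≠ 0 := by
    intro h0
    simp only [h0, if_true] at h2
    exact (h.uniform _).2 hinj h2
  have := h.cov_sign hT.1 e
  omega

theorem UniformChirotope.three {k : ℕ} {χ : (Fin (k + 1 + 1) → Fin n) → ℤ}
    (h : UniformChirotope χ) (τ : Fin k → Fin n) (a b c e : Fin n)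
    (h1 : 0 ≤ χ (Fin.cons c (Fin.cons b τ)) * χ (Fin.cons a (Fin.cons e τ)))
    (h2 : 0 ≤ χ (Fin.cons e (Fin.cons b τ)) * χ (Fin.cons c (Fin.cons a τ))) :
    0 ≤ χ (Fin.cons a (Fin.cons b τ)) * χ (Fin.cons c (Fin.cons e τ)) := by
  refine h.exchange _ _ fun i => ?_
  refine Fin.cases ?_ (fun i => Fin.cases ?_ (fun i => ?_) i) i
  · simpa only [Fin.cons_zero, Fin.update_cons_zero] using h1
  · simpa only [Fin.cons_zero, Fin.cons_succ, Fin.update_cons_zero, ← Fin.cons_update] using h2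
  · simp only [Fin.cons_zero, Fin.cons_succ, Fin.update_cons_zero]
    rw [h.zero (x := Fin.cons (τ i) (Fin.cons b τ)), zero_mul]
    rw [Fin.cons_injective_iff]
    exact fun hc => hc.1 ⟨i.succ, by simp⟩

theorem UniformChirotope.sig_Sig {k : ℕ} {χ : (Fin (k + 1 + 1) → Fin n) → ℤ}
    (h : UniformChirotope χ) : Sig (k + 1) (sig χ) := by
  have hpm : ∀ x, Function.Injective x → PM ((χ x : ℤ) : ℚ) := by
    intro x hx
    have h1 := (h.uniform x).2 hx
    rcases h.sign x with h | h | h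
    · exact absurd h h1
    · left; rw [h]; norm_num
    · right; rw [h]; norm_num
  refine MP_a97014_co.sig_Sig h.alt hpm ?_
  rintro τ a b c e ⟨e1, e2, e3⟩
  have s1 := cons_swap h.alt τ c b
  have s2 := cons_swap h.alt τ e b
  have s3 := cons_swap h.alt τ c a
  have s4 := cons_swap h.alt τ e a
  have s5 := cons_swap h.alt τ b a
  rcases lt_or_gt_of_ne e3 with h0 | h0
  · have := h.three τ a b c e (by rw [s1]; linarith) (by rw [s2, s3]; linarith)
    linarith
  · have := h.three τ b a c e (by rw [s3]; linarith) (by rw [s4, s1]; linarith)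
    rw [s5] at this
    linarith

/-- the negative part of a sign vector -/
def negPart (T : Fin n → ℤ) : Finset (Fin n) := univ.filter fun e => T e = -1

theorem sg_negPart {T : Fin n → ℤ} {e : Fin n} (h : T e = 1 ∨ T e = -1) :
    sg (negPart T) e = ((T e : ℤ) : ℚ) := by
  unfold sg negPart
  rcases h with h | h <;> simp [h]

theorem UniformChirotope.both {χ : (Fin (d + 1) → Fin n) → ℤ} (h : UniformChirotope χ)
    (hd : 1 ≤ d) (hn : d + 1 ≤ n) {T : Fin n → ℤ} (hT : IsTope χ T) {D : Finset (Fin n)}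
    (hD : D.card = d + 2) {v : ℚ} (hv : PM v) : ∃ i ∈ D, ((T i : ℤ) : ℚ) * sig χ D i = v := by
  obtain ⟨y, hy, hr⟩ := exists_enum D hD
  obtain ⟨ε, hε, hs⟩ := sig_eq h.alt D y hy (fun z => (hr z).symm)
  have hth : ∀ i, Th χ y i = 1 ∨ Th χ y i = -1 := by
    intro i
    have h1 := h.Th_ne hy i
    unfold Th at h1 ⊢
    rcases neg_one_pow_eq_or ℤ (i : ℕ) with h2 | h2 <;>
      rcases h.sign (y ∘ i.succAbove) with h3 | h3 | h3 <;> simp_all
  rcases h.orth hd hT.1 hy with h0 | ⟨⟨i, hi⟩, ⟨j, hj⟩⟩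
  · have := h.tope_pm hn hT (y 0)
    rw [h0 0] at this
    omega
  have hi' : ((T (y i) : ℤ) : ℚ) * sig χ D (y i) = ε := by
    rw [hs i]
    rcases h.tope_pm hn hT (y i) with h1 | h1 <;> rcases hth i with h2 | h2 <;>
      rw [h1, h2] at hi ⊢ <;> revert hi <;> norm_num
  have hj' : ((T (y j) : ℤ) : ℚ) * sig χ D (y j) = -ε := by
    rw [hs j]
    rcases h.tope_pm hn hT (y j) with h1 | h1 <;> rcases hth j with h2 | h2 <;>
      rw [h1, h2] at hj ⊢ <;> revert hj <;> norm_num
  have mi : y i ∈ D := (hr _).1 ⟨i, rfl⟩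
  have mj : y j ∈ D := (hr _).1 ⟨j, rfl⟩
  rcases hv with rfl | rfl <;> rcases hε with rfl | rfl
  · exact ⟨_, mi, hi'⟩
  · exact ⟨_, mj, by rw [hj']; norm_num⟩
  · exact ⟨_, mj, hj'⟩
  · exact ⟨_, mi, hi'⟩

theorem UniformChirotope.both_erase {χ : (Fin (d + 1) → Fin n) → ℤ} (h : UniformChirotope χ)
    (hd : 1 ≤ d) (hn : d + 1 ≤ n) {T : Fin n → ℤ} (hT : IsComplete χ T) {D : Finset (Fin n)}
    (hD : D.card = d + 2) (e : Fin n) {v : ℚ} (hv : PM v) :
    ∃ i ∈ D.erase e, sg (negPart T) i * sig χ D i = v := by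
  obtain ⟨i, hi, h1⟩ := h.both hd hn hT.1 hD hv
  by_cases hie : i = e
  · subst hie
    obtain ⟨j, hj, h2⟩ := h.both hd hn (hT.2 i) hD hv
    by_cases hji : j = i
    · subst hji
      exfalso
      rw [Function.update_self] at h2
      push_cast at h2
      exact hv.ne_zero (by linear_combination (-h1 - h2) / 2)
    · refine ⟨j, mem_erase.2 ⟨hji, hj⟩, ?_⟩
      rw [Function.update_of_ne hji] at h2
      rw [sg_negPart (h.tope_pm hn hT.1 j), h2]
  · exact ⟨i, mem_erase.2 ⟨hie, hi⟩, by rw [sg_negPart (h.tope_pm hn hT.1 i), h1]⟩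

theorem UniformChirotope.ncard_le {χ : (Fin (d + 1) → Fin n) → ℤ} (h : UniformChirotope χ)
    (hd : 2 ≤ d) (hn : 2 * d + 1 ≤ n) :
    (completeCells χ).Finite ∧
      (completeCells χ).ncard ≤ ∑ i ∈ range (d - 1), (n - 1).choose i := by
  classical
  have hn' : d + 1 ≤ n := by omega
  let vec : Finset (Fin n) → Fin n → ℤ := fun S e => if e ∈ S then -1 else 1
  have hvec : ∀ T, IsTope χ T → vec (negPart T) = T := by
    intro T hT
    funext e
    rcases h.tope_pm hn' hT e with h1 | h1 <;> simp [vec, negPart, h1]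
  have hneg : ∀ S, negPart (vec S) = S := by
    intro S
    ext e
    by_cases he : e ∈ S <;> simp [vec, negPart, he]
  let K : Finset (Finset (Fin n)) := univ.filter fun S => IsComplete χ (vec S)
  have hK : K.card ≤ 2 * ∑ i ∈ range (d - 1), (n - 1).choose i := by
    obtain ⟨k, rfl⟩ : ∃ k, d = k + 1 := ⟨d - 1, by omega⟩
    have := card_le (α := Fin n) hd (by simpa using hn) h.sig_Sig (K := K)
      (fun S hS D hD e _ => by
        have := h.both_erase (by omega) hn' (mem_filter.1 hS).2 hD e (Or.inl rfl)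
        rwa [hneg] at this)
      (fun S hS D hD e _ => by
        have := h.both_erase (by omega) hn' (mem_filter.1 hS).2 hD e (Or.inr rfl)
        rwa [hneg] at this)
    simpa only [Fintype.card_fin] using this
  let f : Finset (Fin n) → Set (Fin n → ℤ) := fun S => {vec S, -vec S}
  have hC : completeCells χ = (K.image f : Finset (Set (Fin n → ℤ))) := by
    ext C
    simp only [completeCells, Set.mem_ofPred_eq, coe_image, Set.mem_image, mem_coe, K, mem_filter,
      mem_univ, true_and, f]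
    constructor
    · rintro ⟨T, hT, rfl⟩
      exact ⟨negPart T, by rwa [hvec T hT.1], by rw [hvec T hT.1]⟩
    · rintro ⟨S, hS, rfl⟩
      exact ⟨_, hS, rfl⟩
  rw [hC, Set.ncard_coe_finset]
  refine ⟨finite_toSet _, ?_⟩
  have h2 : 2 * (K.image f).card ≤ K.card := by
    refine mul_card_image_le_card K 2 fun C hC => ?_
    obtain ⟨S, hS, rfl⟩ := mem_image.1 hC
    have hS' := (mem_filter.1 hS).2
    have hc : vec Sᶜ = -vec S := by
      funext e
      by_cases he : e ∈ S <;> simp [vec, he]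
    have hne : S ≠ Sᶜ := by
      intro e
      have : (⟨0, by omega⟩ : Fin n) ∈ S ↔ (⟨0, by omega⟩ : Fin n) ∈ Sᶜ := by rw [← e]
      simp at this
    rw [← card_pair hne]
    refine card_le_card fun U hU => ?_
    rw [mem_insert, mem_singleton] at hU
    rcases hU with rfl | rfl
    · exact mem_filter.2 ⟨hS, rfl⟩
    · refine mem_filter.2 ⟨mem_filter.2 ⟨mem_univ _, ?_⟩, ?_⟩
      · rw [hc]; exact complete_neg hS'
      · simp only [f, hc, neg_neg]
        exact Set.pair_comm _ _
  omega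

end Pool.Agent.Lib.MP_a97014_co
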