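import Mathlib
import Pool.Agent.Lib.MP_a97014_co.Topes
import Pool.Agent.Lib.MP_a97014_co.EqMinor
import Pool.Agent.Lib.MP_a97014_co.EqGlue

/-!
A uniform chirotope all of whose rank three contractions have a complete tope is alternating up
to relabelling and reorientation.
-/

set_option autoImplicit false

namespace Pool.Agent.Lib.MP_a97014_co

open Finset

variable {n m : ℕ}

theorem cons_swap2 {k : ℕ} {χ : (Fin (k + 1 + 1 + 1) → Fin n) → ℤ} (halt : Alt χ)
    (τ : Fin k → Fin n) (o p q : Fin n) :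
    χ (Fin.cons o (Fin.cons p (Fin.cons q τ))) = -χ (Fin.cons o (Fin.cons q (Fin.cons p τ))) := by
  have h12 : ((0 : Fin (k + 1 + 1)).succ : Fin (k + 1 + 1 + 1))
      ≠ (0 : Fin (k + 1)).succ.succ := fun h => Fin.succ_ne_zero _ (Fin.succ_injective _ h).symm
  have h := halt (Fin.cons o (Fin.cons q (Fin.cons p τ)))
    (Equiv.swap (0 : Fin (k + 1 + 1)).succ (0 : Fin (k + 1)).succ.succ)
  have e : (Fin.cons o (Fin.cons q (Fin.cons p τ)) : Fin (k + 1 + 1 + 1) → Fin n)
      ∘ (Equiv.swap (0 : Fin (k + 1 + 1)).succ (0 : Fin (k + 1)).succ.succ)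
      = Fin.cons o (Fin.cons p (Fin.cons q τ)) := by
    funext j
    refine Fin.cases ?_ (fun j => Fin.cases ?_ (fun j => Fin.cases ?_ (fun j => ?_) j) j) j
    · rw [Function.comp_apply, Equiv.swap_apply_of_ne_of_ne (Fin.succ_ne_zero _).symm
        (Fin.succ_ne_zero _).symm]
      rfl
    · rw [Function.comp_apply, Equiv.swap_apply_left]
      rfl
    · rw [Function.comp_apply, Equiv.swap_apply_right]
      rfl
    · rw [Function.comp_apply, Equiv.swap_apply_of_ne_of_ne
        (fun h => Fin.succ_ne_zero _ (Fin.succ_injective _ h))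
        (fun h => Fin.succ_ne_zero _ (Fin.succ_injective _ (Fin.succ_injective _ h)))]
      rfl
  rw [e, Equiv.Perm.sign_swap h12] at h
  simpa using h

theorem UniformChirotope.pmq {d : ℕ} {χ : (Fin (d + 1) → Fin n) → ℤ} (h : UniformChirotope χ)
    (x : Fin (d + 1) → Fin n) (hx : Function.Injective x) : PM ((χ x : ℤ) : ℚ) := by
  have h1 := (h.uniform x).2 hx
  rcases h.sign x with h | h | h
  · exact absurd h h1
  · left; rw [h]; norm_num
  · right; rw [h]; norm_num

/-- product of the signs of two elements in the circuit they form with `R` -/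
noncomputable def tau {d : ℕ} (χ : (Fin (d + 1) → Fin n) → ℤ) (R : Finset (Fin n))
    (i j : Fin n) : ℚ :=
  sig χ (insert i (insert j R)) i * sig χ (insert i (insert j R)) j

/-- the cross ratio sign in the rank two contraction by `C` -/
noncomputable def crs {d : ℕ} (χ : (Fin (d + 1) → Fin n) → ℤ) (C : Finset (Fin n))
    (i j k l : Fin n) : ℚ :=
  tau χ (insert k C) i j * tau χ (insert l C) i j

theorem tau_eq {d : ℕ} {χ : (Fin (d + 1) → Fin n) → ℤ} (halt : Alt χ) (t : Fin d → Fin n)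
    (ht : Function.Injective t) {R : Finset (Fin n)} (hR : ∀ z, z ∈ Set.range t ↔ z ∈ R)
    {p q : Fin n} (hp : p ∉ R) (hq : q ∉ R) (hpq : p ≠ q) :
    tau χ R p q = -(((χ (Fin.cons p t) : ℤ) : ℚ) * ((χ (Fin.cons q t) : ℤ) : ℚ)) :=
  sig_pair halt t ht (by rwa [hR]) (by rwa [hR]) hpq _ (by
    intro z; rw [hR, mem_insert, mem_insert])

theorem cons_enum {k : ℕ} {t : Fin k → Fin n} (ht : Function.Injective t) {A : Finset (Fin n)}
    (hA : ∀ z, z ∈ Set.range t ↔ z ∈ A) {a : Fin n} (ha : a ∉ A) :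
    Function.Injective (Fin.cons a t : Fin (k + 1) → Fin n) ∧
      ∀ z, z ∈ Set.range (Fin.cons a t : Fin (k + 1) → Fin n) ↔ z ∈ insert a A := by
  refine ⟨Fin.cons_injective_iff.2 ⟨by rwa [hA], ht⟩, fun z => ?_⟩
  rw [Fin.range_cons, Set.mem_insert_iff, hA, mem_insert]

theorem four_signs {a b c e : ℚ} (ha : PM a) (hb : PM b) (hc : PM c) (he : PM e)
    (h : ∀ v : ℚ, PM v → (b = v ∨ c = v ∨ e = v) ∧ (a = v ∨ c = v ∨ e = v) ∧
      (a = v ∨ b = v ∨ e = v) ∧ (a = v ∨ b = v ∨ c = v)) :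
    a * b * (c * e) = 1 ∧ (b * e = 1 → c * e = -1) := by
  have h1 := h 1 (Or.inl rfl)
  have h2 := h (-1) (Or.inr rfl)
  rcases ha with rfl | rfl <;> rcases hb with rfl | rfl <;> rcases hc with rfl | rfl <;>
    rcases he with rfl | rfl <;> revert h1 h2 <;> norm_num

theorem cyc_of_cond {χ : (Fin (m + 1 + 1 + 1) → Fin n) → ℤ} (h : UniformChirotope χ)
    (A : Finset (Fin n)) (hA : A.card = m) (T : Finset (Fin n))
    (hT : Cond (m + 2) (sig χ) (univ \ A) A T) :
    ∃ θ : Fin n → Fin n → Fin n → ℚ, Cyc A θ ∧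
      ∀ i j k l a, i ∉ A → j ∉ A → k ∉ A → l ∉ A → a ∉ A → i ≠ j → i ≠ k → i ≠ l → j ≠ k →
        j ≠ l → k ≠ l → a ≠ i → a ≠ j → a ≠ k → a ≠ l →
        crs χ (insert a A) i j k l = θ i j k * θ i j l := by
  obtain ⟨t, ht, hr⟩ := exists_enum A hA
  let θ : Fin n → Fin n → Fin n → ℚ := fun i j k =>
    sg T i * sg T j * sg T k * ((χ (Fin.cons i (Fin.cons j (Fin.cons k t))) : ℤ) : ℚ)
  have hs := fun i => (sg_pm T i).sq
  have pm : ∀ i j k, i ∉ A → j ∉ A → k ∉ A → i ≠ j → i ≠ k → j ≠ k → PM (θ i j k) := by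
    intro i j k hi hj hk hij hik hjk
    obtain ⟨a1, a2⟩ := cons_enum ht hr hk
    obtain ⟨b1, b2⟩ := cons_enum a1 a2 (a := j) (by simp [hj, hjk])
    obtain ⟨c1, -⟩ := cons_enum b1 b2 (a := i) (by simp [hi, hij, hik])
    exact (((sg_pm T i).mul (sg_pm T j)).mul (sg_pm T k)).mul (h.pmq _ c1)
  have sw1 : ∀ i j k, θ i j k = -θ j i k := by
    intro i j k
    simp only [θ]
    rw [cons_swap h.alt (Fin.cons k t) i j]
    push_cast
    ring
  have sw2 : ∀ i j k, θ i j k = -θ i k j := by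
    intro i j k
    simp only [θ]
    rw [cons_swap2 h.alt t i j k]
    push_cast
    ring
  have ht2 : ∀ i j k l, i ∉ A → j ∉ A → k ∉ A → l ∉ A → i ≠ j → i ≠ k → i ≠ l → j ≠ k →
      j ≠ l → k ≠ l →
      sg T i * sg T j * tau χ (insert k (insert l A)) i j = -(θ i k l * θ j k l) := by
    intro i j k l hi hj hk hl hij hik hil hjk hjl hkl
    obtain ⟨a1, a2⟩ := cons_enum ht hr hl
    obtain ⟨b1, b2⟩ := cons_enum a1 a2 (a := k) (by simp [hk, hkl])
    rw [tau_eq h.alt _ b1 b2 (by simp [hi, hik, hil]) (by simp [hj, hjk, hjl]) hij]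
    simp only [θ]
    linear_combination (sg T i * sg T j
      * ((χ (Fin.cons i (Fin.cons k (Fin.cons l t))) : ℤ) : ℚ)
      * ((χ (Fin.cons j (Fin.cons k (Fin.cons l t))) : ℤ) : ℚ))
      * (sg T l * sg T l * hs k + hs l)
  have both : ∀ i j k l, i ∉ A → j ∉ A → k ∉ A → l ∉ A → i ≠ j → i ≠ k → i ≠ l → j ≠ k →
      j ≠ l → k ≠ l → θ i k l * θ j k l * (θ i j k * θ i j l) = 1 ∧
        (θ i j k = θ i k l → θ i j l = θ i j k) := by
    intro i j k l hi hj hk hl hij hik hil hjk hjl hkl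
    set D : Finset (Fin n) := {i, j, k, l} with hD
    have hDc : D.card = 4 := by
      rw [hD, card_insert_of_notMem (by simp [hij, hik, hil]),
        card_insert_of_notMem (by simp [hjk, hjl]), card_pair hkl]
    have hDA : Disjoint D A := by
      rw [hD]; simp [hi, hj, hk, hl]
    have hDsub : D ⊆ univ \ A := subset_sdiff.2 ⟨subset_univ _, hDA⟩
    have hUc : (D ∪ A).card = m + 1 + 1 + 2 := by rw [card_union_of_disjoint hDA]; omega
    let y : Fin n → ℚ := fun x => sg T x * sig χ (D ∪ A) x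
    have ypm : ∀ x ∈ D, PM (y x) := fun x hx =>
      (sg_pm T x).mul (h.sig_Sig.pm _ hUc x (mem_union_left _ hx))
    have pair : ∀ a b c e, a ∉ A → b ∉ A → c ∉ A → e ∉ A → a ≠ b → a ≠ c → a ≠ e → b ≠ c →
        b ≠ e → c ≠ e → D = {a, b, c, e} → y a * y b = -(θ a c e * θ b c e) := by
      intro a b c e ha hb hc he n1 n2 n3 n4 n5 n6 hE
      rw [← ht2 a b c e ha hb hc he n1 n2 n3 n4 n5 n6]
      have : D ∪ A = insert a (insert b (insert c (insert e A))) := by
        rw [hE]; ext z; simp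
      simp only [y, tau, this]
      ring
    have hc4 := four_signs (ypm i (by simp [hD])) (ypm j (by simp [hD])) (ypm k (by simp [hD]))
      (ypm l (by simp [hD])) (by
        intro v hv
        have g := fun e he => hT D hDsub (by omega) e he v hv
        refine ⟨?_, ?_, ?_, ?_⟩
        · obtain ⟨x, hx, hxv⟩ := g i (by simp [hD])
          simp only [hD, mem_erase, mem_insert, mem_singleton] at hx
          rcases hx with ⟨h0, rfl | rfl | rfl | rfl⟩ <;> first | exact absurd rfl h0 | simp [y, hxv]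
        · obtain ⟨x, hx, hxv⟩ := g j (by simp [hD])
          simp only [hD, mem_erase, mem_insert, mem_singleton] at hx
          rcases hx with ⟨h0, rfl | rfl | rfl | rfl⟩ <;> first | exact absurd rfl h0 | simp [y, hxv]
        · obtain ⟨x, hx, hxv⟩ := g k (by simp [hD])
          simp only [hD, mem_erase, mem_insert, mem_singleton] at hx
          rcases hx with ⟨h0, rfl | rfl | rfl | rfl⟩ <;> first | exact absurd rfl h0 | simp [y, hxv]
        · obtain ⟨x, hx, hxv⟩ := g l (by simp [hD])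
          simp only [hD, mem_erase, mem_insert, mem_singleton] at hx
          rcases hx with ⟨h0, rfl | rfl | rfl | rfl⟩ <;> first | exact absurd rfl h0 | simp [y, hxv])
    have p1 := pair i j k l hi hj hk hl hij hik hil hjk hjl hkl rfl
    have p2 := pair k l i j hk hl hi hj hkl hik.symm hjk.symm hil.symm hjl.symm hij
      (by rw [hD]; ext z; simp only [mem_insert, mem_singleton]; tauto)
    have p3 := pair j l i k hj hl hi hk hjl hij.symm hjk hil.symm hkl.symm hik
      (by rw [hD]; ext z; simp only [mem_insert, mem_singleton]; tauto)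
    rw [sw1 k i j, sw2 i k j, sw1 l i j, sw2 i l j] at p2
    rw [sw1 j i k, sw1 l i k, sw2 i l k] at p3
    refine ⟨?_, fun he => ?_⟩
    · have := hc4.1
      rw [p1, p2] at this
      linear_combination this
    · have q1 := (pm i j k hi hj hk hij hik hjk).sq
      have h5 := hc4.2 (by rw [p3, ← he]; linear_combination q1)
      rw [p2] at h5
      linear_combination (-(θ i j k)) * h5 - (θ i j l) * q1
  refine ⟨θ, ⟨pm, sw1, sw2, fun i j k l a1 a2 a3 a4 b1 b2 b3 b4 b5 b6 =>
    (both i j k l a1 a2 a3 a4 b1 b2 b3 b4 b5 b6).1, fun i j k l a1 a2 a3 a4 b1 b2 b3 b4 b5 b6 =>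
    (both i j k l a1 a2 a3 a4 b1 b2 b3 b4 b5 b6).2⟩, ?_⟩
  intro i j k l a hi hj hk hl ha hij hik hil hjk hjl hkl n1 n2 n3 n4
  have e1 := ht2 i j k a hi hj hk ha hij hik n1.symm hjk n2.symm n3.symm
  have e2 := ht2 i j l a hi hj hl ha hij hil n1.symm hjl n2.symm n4.symm
  have e3 := (both i j k a hi hj hk ha hij hik n1.symm hjk n2.symm n3.symm).1
  have e4 := (both i j l a hi hj hl ha hij hil n1.symm hjl n2.symm n4.symm).1
  have q1 := (pm i j k hi hj hk hij hik hjk).sq
  have q2 := (pm i j l hi hj hl hij hil hjl).sq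
  have q3 := (pm i j a hi hj ha hij n1.symm n2.symm).sq
  have f1 : θ i k a * θ j k a = θ i j k * θ i j a := by
    linear_combination (θ i j k * θ i j a) * e3
      - (θ i k a * θ j k a) * (θ i j a * θ i j a * q1 + q3)
  have f2 : θ i l a * θ j l a = θ i j l * θ i j a := by
    linear_combination (θ i j l * θ i j a) * e4
      - (θ i l a * θ j l a) * (θ i j a * θ i j a * q2 + q3)
  rw [f1] at e1
  rw [f2] at e2
  unfold crs
  have q4 : sg T i * sg T j * (sg T i * sg T j) = 1 := ((sg_pm T i).mul (sg_pm T j)).sq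
  calc tau χ (insert k (insert a A)) i j * tau χ (insert l (insert a A)) i j
      = (sg T i * sg T j * tau χ (insert k (insert a A)) i j)
        * (sg T i * sg T j * tau χ (insert l (insert a A)) i j) := by
        linear_combination (-(tau χ (insert k (insert a A)) i j
          * tau χ (insert l (insert a A)) i j)) * q4
    _ = θ i j k * θ i j l := by
        rw [e1, e2]
        linear_combination (θ i j k * θ i j l) * q3

theorem PM.prod {ι : Type*} (s : Finset ι) (f : ι → ℚ) (hf : ∀ i ∈ s, PM (f i)) :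
    PM (∏ i ∈ s, f i) :=
  prod_induction f PM (fun _ _ => PM.mul) PM.one hf

theorem PM.eq_of_mul {a b : ℚ} (hb : PM b) (h : a * b = 1) : a = b := by
  linear_combination b * h - a * hb.sq

/-- the product of `w` over all increasing pairs of positions -/
def Vd (w : Fin n → Fin n → ℚ) {k : ℕ} (x : Fin k → Fin n) : ℚ :=
  ∏ a, ∏ b ∈ Ioi a, w (x a) (x b)

theorem Vd_cons (w : Fin n → Fin n → ℚ) {k : ℕ} (p : Fin n) (t : Fin k → Fin n) :
    Vd w (Fin.cons p t : Fin (k + 1) → Fin n) = (∏ j, w p (t j)) * Vd w t := by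
  unfold Vd
  rw [Fin.prod_univ_succ, Fin.prod_Ioi_zero]
  simp

theorem Vd_pm {w : Fin n → Fin n → ℚ} (hw : ∀ x y, x ≠ y → PM (w x y)) {k : ℕ}
    {x : Fin k → Fin n} (hx : Function.Injective x) : PM (Vd w x) :=
  PM.prod _ _ fun _ _ => PM.prod _ _ fun _ hb =>
    hw _ _ fun e => (mem_Ioi.1 hb).ne (hx e)

/-- the symmetric function on bases obtained by dividing out the order signs -/
noncomputable def HH {d : ℕ} (χ : (Fin (d + 1) → Fin n) → ℤ) (w : Fin n → Fin n → ℚ)
    (B : Finset (Fin n)) : ℚ :=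
  if h : B.card = d + 1 then ((χ (B.orderEmbOfFin h) : ℤ) : ℚ) * Vd w (B.orderEmbOfFin h) else 0

theorem HH_eq {d : ℕ} {χ : (Fin (d + 1) → Fin n) → ℤ} (halt : Alt χ) {w : Fin n → Fin n → ℚ}
    (hw : ∀ x y, w x y = -w y x) (B : Finset (Fin n)) (y : Fin (d + 1) → Fin n)
    (hy : Function.Injective y) (hB : ∀ z, z ∈ Set.range y ↔ z ∈ B) :
    HH χ w B = ((χ y : ℤ) : ℚ) * Vd w y := by
  have hc : B.card = d + 1 := by
    have : B = univ.image y := by
      ext z; simp [← hB z]
    rw [this, card_image_of_injective _ hy]; simp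
  have hm : ∀ i, y i ∈ B := fun i => (hB _).1 ⟨i, rfl⟩
  let g : Fin (d + 1) → Fin (d + 1) := fun i => (B.orderIsoOfFin hc).symm ⟨y i, hm i⟩
  have hg : Function.Injective g := by
    intro i j hij
    have := (B.orderIsoOfFin hc).symm.injective hij
    exact hy (congrArg Subtype.val this)
  let π : Equiv.Perm (Fin (d + 1)) := Equiv.ofBijective g (Finite.injective_iff_bijective.1 hg)
  have hyπ : y = (B.orderEmbOfFin hc) ∘ π := by
    funext i
    have : (B.orderEmbOfFin hc) (g i) = y i := by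
      rw [← coe_orderIsoOfFin_apply]
      simp [g]
    exact this.symm
  have h1 := halt (B.orderEmbOfFin hc) π
  have h2 : Vd w ((B.orderEmbOfFin hc) ∘ π)
      = (((Equiv.Perm.sign π : ℤˣ) : ℤ) : ℚ) * Vd w (B.orderEmbOfFin hc) :=
    π.prod_Ioi_comp_eq_sign_mul_prod
      (f := fun i j => w (B.orderEmbOfFin hc i) (B.orderEmbOfFin hc j)) (fun i j => hw _ _)
  rw [← hyπ] at h1 h2
  unfold HH
  rw [dif_pos hc, h1, h2]
  rcases Int.units_eq_one_or (Equiv.Perm.sign π) with h | h <;> simp [h]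

theorem alternating_of_cond {χ : (Fin (m + 1 + 1 + 1) → Fin n) → ℤ} (h : UniformChirotope χ)
    (hn : 2 * m + 5 ≤ n)
    (H : ∀ A : Finset (Fin n), A.card = m → ∃ T, Cond (m + 2) (sig χ) (univ \ A) A T) :
    ∃ (π : Equiv.Perm (Fin n)) (ε : Fin n → ℤ) (s : ℤ), (∀ i, ε i = 1 ∨ ε i = -1) ∧
      (s = 1 ∨ s = -1) ∧
      ∀ x : Fin (m + 1 + 1 + 1) → Fin n, StrictMono x → χ (π ∘ x) = s * ∏ i, ε (x i) := by
  have avoid : ∀ (Y : Finset (Fin n)) (k : ℕ), Y.card + k ≤ n →
      ∃ A : Finset (Fin n), A.card = k ∧ ∀ y ∈ Y, y ∉ A := by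
    intro Y k hY
    obtain ⟨A, hA, hc⟩ := exists_subset_card_eq (s := univ \ Y) (n := k)
      (by rw [card_sdiff_of_subset (subset_univ Y), card_univ, Fintype.card_fin]; omega)
    exact ⟨A, hc, fun y hy hyA => (mem_sdiff.1 (hA hyA)).2 hy⟩
  obtain ⟨w, wanti, wpm, wtr, wcr⟩ := glue (α := Fin n) (m := m) (crs χ)
    (by
      intro Y hY
      rcases Nat.eq_zero_or_pos m with rfl | hm
      · exact ⟨∅, rfl, fun y _ => notMem_empty y⟩
      · exact avoid Y m (by omega))
    (by rw [Fintype.card_fin]; omega)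
    (fun A hA => by
      obtain ⟨T, hT⟩ := H A hA
      exact cyc_of_cond h A hA T hT)
  have Hpm : ∀ B : Finset (Fin n), B.card = m + 1 + 1 + 1 → PM (HH χ w B) := by
    intro B hB
    obtain ⟨y, hy, hr⟩ := exists_enum B hB
    rw [HH_eq h.alt wanti B y hy hr]
    exact (h.pmq y hy).mul (Vd_pm wpm hy)
  let ρ : Finset (Fin n) → Fin n → Fin n → ℚ := fun R p q =>
    HH χ w (insert p R) * HH χ w (insert q R)
  have ρpm : ∀ R : Finset (Fin n), R.card = m + 1 + 1 → ∀ p q, p ∉ R → q ∉ R → PM (ρ R p q) :=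
    fun R hR p q hp hq => (Hpm _ (by rw [card_insert_of_notMem hp, hR])).mul
      (Hpm _ (by rw [card_insert_of_notMem hq, hR]))
  have ρeq : ∀ R : Finset (Fin n), R.card = m + 1 + 1 → ∀ p q, p ∉ R → q ∉ R → p ≠ q →
      ρ R p q = -tau χ R p q * ∏ r ∈ R, (w p r * w q r) := by
    intro R hR p q hp hq hpq
    obtain ⟨t, ht, hr⟩ := exists_enum R hR
    obtain ⟨a1, a2⟩ := cons_enum ht hr hp
    obtain ⟨b1, b2⟩ := cons_enum ht hr hq
    have hR' : R = univ.image t := by
      ext z; simp [← hr z]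
    have e : ∏ r ∈ R, (w p r * w q r) = (∏ j, w p (t j)) * ∏ j, w q (t j) := by
      rw [hR', prod_image (fun a _ b _ hab => ht hab), prod_mul_distrib]
    simp only [ρ]
    rw [HH_eq h.alt wanti _ _ a1 a2, HH_eq h.alt wanti _ _ b1 b2, Vd_cons, Vd_cons,
      tau_eq h.alt t ht hr hp hq hpq, e]
    linear_combination (((χ (Fin.cons p t) : ℤ) : ℚ) * ((χ (Fin.cons q t) : ℤ) : ℚ)
      * (∏ j, w p (t j)) * ∏ j, w q (t j)) * (Vd_pm wpm ht).sq
  have ρind : ∀ p q, p ≠ q → ∀ R R' : Finset (Fin n), R.card = m + 1 + 1 → R'.card = m + 1 + 1 →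
      p ∉ R → q ∉ R → p ∉ R' → q ∉ R' → ρ R p q = ρ R' p q := by
    intro p q hpq R R' hR hR' c1 c2 d1 d2
    have hU : ∀ S : Finset (Fin n), S ⊆ univ \ {p, q} ↔ (p ∉ S ∧ q ∉ S) := by
      intro S
      rw [subset_sdiff]
      simp
    refine swap_const (univ \ {p, q}) (m + 1) (fun R => ρ R p q) ?_ R ((hU R).2 ⟨c1, c2⟩) R'
      ((hU R').2 ⟨d1, d2⟩) hR hR'
    intro C hC hCc k hk l hl hkC hlC
    by_cases hkl : k = l
    · rw [hkl]
    obtain ⟨r1, r2⟩ := (hU C).1 hC
    simp only [mem_sdiff, mem_univ, true_and, mem_insert, mem_singleton, not_or] at hk hl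
    have k1 : (insert k C).card = m + 1 + 1 := by rw [card_insert_of_notMem hkC, hCc]
    have l1 : (insert l C).card = m + 1 + 1 := by rw [card_insert_of_notMem hlC, hCc]
    have pk : p ∉ insert k C := by simp [r1, Ne.symm hk.1]
    have qk : q ∉ insert k C := by simp [r2, Ne.symm hk.2]
    have pl : p ∉ insert l C := by simp [r1, Ne.symm hl.1]
    have ql : q ∉ insert l C := by simp [r2, Ne.symm hl.2]
    refine (ρpm _ l1 p q pl ql).eq_of_mul ?_
    have hcr := wcr C hCc p q k l r1 r2 hkC hlC hpq (Ne.symm hk.1) (Ne.symm hl.1)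
      (Ne.symm hk.2) (Ne.symm hl.2) hkl
    unfold crs at hcr
    have s1 : PM (∏ r ∈ C, (w p r * w q r)) := PM.prod _ _ fun r hr =>
      (wpm p r fun e => r1 (e ▸ hr)).mul (wpm q r fun e => r2 (e ▸ hr))
    have s2 : PM (w p k * w q k * (w p l * w q l)) :=
      ((wpm p k (Ne.symm hk.1)).mul (wpm q k (Ne.symm hk.2))).mul
        ((wpm p l (Ne.symm hl.1)).mul (wpm q l (Ne.symm hl.2)))
    rw [ρeq _ k1 p q pk qk hpq, ρeq _ l1 p q pl ql hpq, prod_insert hkC, prod_insert hlC]
    linear_combination (w p k * w q k * (w p l * w q l) * (∏ r ∈ C, (w p r * w q r))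
        * (∏ r ∈ C, (w p r * w q r))) * hcr
      + ((∏ r ∈ C, (w p r * w q r)) * (∏ r ∈ C, (w p r * w q r))) * s2.sq + s1.sq
  let p0 : Fin n := ⟨0, by omega⟩
  have av2 : ∀ i : Fin n, ∃ R : Finset (Fin n), R.card = m + 1 + 1 ∧ p0 ∉ R ∧ i ∉ R := by
    intro i
    obtain ⟨R, hR, hR2⟩ := avoid {p0, i} (m + 1 + 1)
      (by have : ({p0, i} : Finset (Fin n)).card ≤ 2 := card_le_two; omega)
    exact ⟨R, hR, hR2 p0 (by simp), hR2 i (by simp)⟩
  choose Rr hR1 hR2 hR3 using av2
  let ε : Fin n → ℚ := fun i => ρ (Rr i) p0 i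
  have εpm : ∀ i, PM (ε i) := fun i => ρpm _ (hR1 i) p0 i (hR2 i) (hR3 i)
  have ε0 : ∀ R : Finset (Fin n), R.card = m + 1 + 1 → ∀ q, p0 ∉ R → q ∉ R → ρ R p0 q = ε q := by
    intro R hR q c1 c2
    by_cases hq : p0 = q
    · subst hq
      simp only [ε, ρ]
      rw [(Hpm _ (by rw [card_insert_of_notMem c1, hR])).sq,
        (Hpm _ (by rw [card_insert_of_notMem (hR2 p0), hR1])).sq]
    · exact ρind p0 q hq R _ hR (hR1 q) c1 c2 (hR2 q) (hR3 q)
  have ρε : ∀ R : Finset (Fin n), R.card = m + 1 + 1 → ∀ p q, p ∉ R → q ∉ R →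
      ρ R p q = ε p * ε q := by
    intro R hR p q c1 c2
    by_cases hpq : p = q
    · subst hpq
      simp only [ρ]
      rw [(Hpm _ (by rw [card_insert_of_notMem c1, hR])).sq, (εpm p).sq]
    obtain ⟨R', hR', hR'2⟩ := avoid {p0, p, q} (m + 1 + 1)
      (by have : ({p0, p, q} : Finset (Fin n)).card ≤ 3 := card_le_three; omega)
    have d0 : p0 ∉ R' := hR'2 p0 (by simp)
    have d1 : p ∉ R' := hR'2 p (by simp)
    have d2 : q ∉ R' := hR'2 q (by simp)
    rw [ρind p q hpq R R' hR hR' c1 c2 d1 d2, ← ε0 R' hR' p d0 d1, ← ε0 R' hR' q d0 d2]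
    simp only [ρ]
    have := (Hpm (insert p0 R') (by rw [card_insert_of_notMem d0, hR'])).sq
    linear_combination (-(HH χ w (insert p R') * HH χ w (insert q R'))) * this
  have φc := swap_const (univ : Finset (Fin n)) (m + 1 + 1)
    (fun B => HH χ w B * ∏ b ∈ B, ε b) (by
      intro R _ hR a _ b _ ha hb
      have h1 := ρε R hR a b ha hb
      simp only [ρ] at h1
      have h2 := (Hpm (insert b R) (by rw [card_insert_of_notMem hb, hR])).sq
      have h3 := (εpm a).sq
      simp only [prod_insert ha, prod_insert hb]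
      linear_combination (HH χ w (insert b R) * ε a * ∏ b ∈ R, ε b) * h1
        - (HH χ w (insert a R) * ε a * ∏ b ∈ R, ε b) * h2
        + (HH χ w (insert b R) * ε b * ∏ b ∈ R, ε b) * h3)
  obtain ⟨B0, hB0, -⟩ := avoid ∅ (m + 1 + 1 + 1) (by simp; omega)
  set s : ℚ := HH χ w B0 * ∏ b ∈ B0, ε b with hs
  have spm : PM s := (Hpm B0 hB0).mul (PM.prod _ _ fun b _ => εpm b)
  -- the linear order
  have w0 : ∀ x, w x x ≠ 1 := by
    intro x e
    have := wanti x x
    rw [e] at this
    norm_num at this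
  let f : Fin n → Fin n := fun x => ⟨(univ.filter fun z => w z x = 1).card, by
    have : (univ.filter fun z => w z x = 1).card < (univ : Finset (Fin n)).card :=
      card_lt_card (filter_ssubset.2 ⟨x, mem_univ x, w0 x⟩)
    simpa using this⟩
  have flt : ∀ x y, w x y = 1 → f x < f y := by
    intro x y hxy
    show (univ.filter fun z => w z x = 1).card < (univ.filter fun z => w z y = 1).card
    refine card_lt_card ⟨fun z hz => ?_, fun hsub => ?_⟩
    · rw [mem_filter] at hz ⊢
      exact ⟨hz.1, wtr z x y hz.2 hxy⟩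
    · have := hsub (mem_filter.2 ⟨mem_univ x, hxy⟩)
      exact w0 x (mem_filter.1 this).2
  have tri : ∀ x y, x ≠ y → w x y = 1 ∨ w y x = 1 := by
    intro x y hxy
    rcases wpm x y hxy with e | e
    · exact Or.inl e
    · right; rw [wanti, e]; norm_num
  have finj : Function.Injective f := by
    intro x y hxy
    by_contra hne
    rcases tri x y hne with e | e
    · exact (flt x y e).ne hxy
    · exact (flt y x e).ne hxy.symm
  let e : Equiv.Perm (Fin n) := Equiv.ofBijective f (Finite.injective_iff_bijective.1 finj)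
  have hπ : ∀ a b : Fin n, a < b → w (e.symm a) (e.symm b) = 1 := by
    intro a b hab
    rcases tri (e.symm a) (e.symm b) (fun h => hab.ne (e.symm.injective h)) with h1 | h1
    · exact h1
    · have h2 : e (e.symm b) < e (e.symm a) := flt _ _ h1
      rw [e.apply_symm_apply, e.apply_symm_apply] at h2
      exact absurd hab (not_lt.2 h2.le)
  have cast1 : ∀ q : ℚ, PM q → (((if q = 1 then 1 else -1 : ℤ) : ℤ) : ℚ) = q := by
    intro q hq
    rcases hq with rfl | rfl <;> norm_num
  refine ⟨e.symm, fun i => if ε (e.symm i) = 1 then 1 else -1, if s = 1 then 1 else -1,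
    fun i => ?_, ?_, ?_⟩
  · by_cases h1 : ε (e.symm i) = 1 <;> simp [h1]
  · by_cases h1 : s = 1 <;> simp [h1]
  · intro x hx
    have hy : Function.Injective (e.symm ∘ x) := e.symm.injective.comp hx.injective
    have h1 := HH_eq h.alt wanti (univ.image (e.symm ∘ x)) (e.symm ∘ x) hy (by intro z; simp)
    have h2 : Vd w (e.symm ∘ x) = 1 :=
      prod_eq_one fun a _ => prod_eq_one fun b hb => hπ _ _ (hx (mem_Ioi.1 hb))
    have h3 := φc (univ.image (e.symm ∘ x)) (subset_univ _) B0 (subset_univ _)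
      (by rw [card_image_of_injective _ hy]; simp) hB0
    rw [← hs, h1, h2, mul_one, prod_image (fun a _ b _ hab => hy hab)] at h3
    have h4 : PM (∏ i, ε ((e.symm ∘ x) i)) := PM.prod _ _ fun i _ => εpm _
    have h5 : ((χ (e.symm ∘ x) : ℤ) : ℚ) = s * ∏ i, ε ((e.symm ∘ x) i) := by
      linear_combination (∏ i, ε ((e.symm ∘ x) i)) * h3
        - ((χ (e.symm ∘ x) : ℤ) : ℚ) * h4.sq
    have h6 : ((χ (e.symm ∘ x) : ℤ) : ℚ) = (((if s = 1 then 1 else -1 : ℤ)
        * ∏ i, (if ε (e.symm (x i)) = 1 then 1 else -1 : ℤ) : ℤ) : ℚ) := by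
      rw [h5, Int.cast_mul, Int.cast_prod, cast1 s spm]
      congr 1
      exact prod_congr rfl fun i _ => (cast1 _ (εpm _)).symm
    exact_mod_cast h6

theorem UniformChirotope.two_mul_ncard_le {d : ℕ} {χ : (Fin (d + 1) → Fin n) → ℤ}
    (h : UniformChirotope χ) (hd : 1 ≤ d) (hn' : d + 1 ≤ n) :
    2 * (completeCells χ).ncard ≤ (KK d (sig χ) univ ∅).card := by
  classical
  let vec : Finset (Fin n) → Fin n → ℤ := fun S e => if e ∈ S then -1 else 1
  have hvec : ∀ T, IsTope χ T → vec (negPart T) = T := by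
    intro T hT
    funext e
    rcases h.tope_pm hn' hT e with h1 | h1 <;> simp [vec, negPart, h1]
  have hneg : ∀ S, negPart (vec S) = S := by
    intro S
    ext e
    by_cases he : e ∈ S <;> simp [vec, negPart, he]
  let K : Finset (Finset (Fin n)) := univ.filter fun S => IsComplete χ (vec S)
  have hK : K.card ≤ (KK d (sig χ) univ ∅).card := by
    refine card_le_card fun S hS => mem_KK.2 ⟨subset_univ _, ?_⟩
    intro D _ hD e _ v hv
    have := h.both_erase hd hn' (mem_filter.1 hS).2 (D := D) (by simpa using hD) e hv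
    rw [hneg] at this
    rwa [union_empty]
  let f : Finset (Fin n) → Set (Fin n → ℤ) := fun S => {vec S, -vec S}
  have hC : completeCells χ = (K.image f : Finset (Set (Fin n → ℤ))) := by
    ext C
    simp only [completeCells, Set.mem_ofPred_eq, coe_image, Set.mem_image, mem_coe, K, mem_filter,
      mem_univ, true_and, f]
    constructor
    · rintro ⟨T, hT, rfl⟩
      exact ⟨negPart T, by rwa [hvec T hT.1], by rw [hvec T hT.1]⟩
    · rintro ⟨S, hS, rfl⟩
      exact ⟨_, hS, rfl⟩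
  rw [hC, Set.ncard_coe_finset]
  have h2 : 2 * (K.image f).card ≤ K.card := by
    refine mul_card_image_le_card K 2 fun C hC => ?_
    obtain ⟨S, hS, rfl⟩ := mem_image.1 hC
    have hS' := (mem_filter.1 hS).2
    have hc : vec Sᶜ = -vec S := by
      funext e
      by_cases he : e ∈ S <;> simp [vec, he]
    have hne : S ≠ Sᶜ := by
      intro e
      have : (⟨0, by omega⟩ : Fin n) ∈ S ↔ (⟨0, by omega⟩ : Fin n) ∈ Sᶜ := by rw [← e]
      simp at this
    rw [← card_pair hne]
    refine card_le_card fun U hU => ?_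
    rw [mem_insert, mem_singleton] at hU
    rcases hU with rfl | rfl
    · exact mem_filter.2 ⟨hS, rfl⟩
    · refine mem_filter.2 ⟨mem_filter.2 ⟨mem_univ _, ?_⟩, ?_⟩
      · rw [hc]; exact complete_neg hS'
      · simp only [f, hc, neg_neg]
        exact Set.pair_comm _ _
  omega

end Pool.Agent.Lib.MP_a97014_co
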