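import Mathlib
import Pool.Agent.Lib.MP_a97014_co.EqMinor

/-!
The linear relations of `Core` localised to the sets that avoid one element, and the vanishing of
a form whose relations hold on the sets that avoid one of three given elements.
-/

set_option autoImplicit false

namespace Pool.Agent.Lib.MP_a97014_co

open Finset

variable {α : Type*} [DecidableEq α] {W : Type*} [AddCommGroup W] [Module ℚ W]

/-- the property `Q` for the sets that avoid `t` -/
def Q1 (d : ℕ) (σ : Finset α → α → ℚ) (f : Finset α → W) (t : α) (E : Finset α) : Prop :=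
  ∀ s : α → ℚ, (∀ i, PM (s i)) → ∀ D ⊆ E, D.card = d + 2 → ∀ ε : ℚ, PM ε →
    (∀ i ∈ D, s i = ε * σ D i) → ∀ x ∈ E, t ∉ E.erase x → F d f (E.erase x) s = 0

theorem Q1.whole {d : ℕ} {σ : Finset α → α → ℚ} {f : Finset α → W} {t : α} {E : Finset α}
    (h : Q1 d σ f t E) (ht : t ∉ E) (s : α → ℚ) (hs : ∀ i, PM (s i)) (D : Finset α) (hD : D ⊆ E)
    (hc : D.card = d + 2) (ε : ℚ) (hε : PM ε) (hsD : ∀ i ∈ D, s i = ε * σ D i) :
    F d f E s = 0 := by
  have h1 := sum_F_erase d f E s
  rw [sum_eq_zero (fun x hx => h s hs D hD hc ε hε hsD x hx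
    (fun h => ht (mem_of_mem_erase h)))] at h1
  have h2 : E.card - d ≠ 0 := by
    have := card_le_card hD
    omega
  have h3 : ((E.card - d : ℕ) : ℚ) ≠ 0 := by exact_mod_cast h2
  exact (smul_eq_zero.1 h1.symm).resolve_left h3

theorem walk1 {d : ℕ} {σ : Finset α → α → ℚ} (hσ : Sig d σ) {f : Finset α → W} {E G : Finset α}
    (hGE : G ⊆ E) (hG : G.card = d + 3) {t : α} (ih : ∀ a ∈ G, Q1 d σ f t (E.erase a))
    {x : α} (hx : x ∈ G) (ht : t ∉ E.erase x) (s : α → ℚ) (hs : ∀ i, PM (s i)) :
    ∀ a ∈ G, a ≠ x → ∀ δ : ℚ, PM δ → F d f (E.erase x) (tv σ G x s a δ) = 0 := by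
  have cE : ∀ a ∈ G, (G.erase a).card = d + 2 := by
    intro a ha; rw [card_erase_of_mem ha]; omega
  have tpm : ∀ a ∈ G, a ≠ x → ∀ δ : ℚ, PM δ → ∀ i, PM (tv σ G x s a δ i) := by
    intro a ha hax δ hδ i
    unfold tv
    split_ifs with h1 h2
    · exact hδ.mul (hσ.pm _ (cE x hx) _ (mem_erase.2 ⟨hax, ha⟩))
    · exact (hσ.pm _ (cE a ha) _ (mem_erase.2 ⟨hax.symm, hx⟩)).mul
        (hσ.pm _ (cE a ha) _ (mem_erase.2 ⟨h1, h2⟩))
    · exact hs i
  have tval : ∀ a ∈ G, ∀ δ : ℚ, ∀ i ∈ G, i ≠ a → i ≠ x →
      tv σ G x s a δ i = u σ G x a i * σ (G.erase x) i := by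
    intro a _ δ i hi hia hix
    have := (hσ.pm _ (cE x hx) i (mem_erase.2 ⟨hix, hi⟩)).sq
    unfold tv u
    rw [if_neg hia, if_pos hi, mul_assoc (σ (G.erase a) x * σ (G.erase a) i), this, mul_one]
  -- flipping the free coordinate
  have flip : ∀ a ∈ G, a ≠ x → ∀ δ : ℚ, PM δ → F d f (E.erase x) (tv σ G x s a δ) = 0 →
      F d f (E.erase x) (tv σ G x s a (-δ)) = 0 := by
    intro a ha hax δ hδ h0
    have h1 : F d f ((E.erase a).erase x) (tv σ G x s a δ) = 0 := by
      refine ih a ha _ (tpm a ha hax δ hδ) (G.erase a) (erase_subset_erase a hGE) (cE a ha)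
        (σ (G.erase a) x) (hσ.pm _ (cE a ha) _ (mem_erase.2 ⟨hax.symm, hx⟩)) ?_ x
        (mem_erase.2 ⟨hax.symm, hGE hx⟩)
        (fun h => ht (erase_subset_erase x (erase_subset a E) h))
      intro i hi
      rw [mem_erase] at hi
      unfold tv
      rw [if_neg hi.1, if_pos hi.2]
    have h2 := F_flip d f (E.erase x) (tv σ G x s a δ) a
    rw [erase_right_comm, h1, h0, smul_zero, zero_add] at h2
    rw [← h2]
    refine F_congr d f _ fun i _ => ?_
    by_cases hia : i = a
    · subst hia
      simp [tv]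
    · rw [Function.update_of_ne hia]
      simp [tv, hia]
  -- the lower sets
  let L : α → Finset α := fun a => ((G.erase x).erase a).filter (fun b => u σ G x a b = -1)
  have memL : ∀ a b, b ∈ L a ↔ (b ≠ a ∧ b ≠ x ∧ b ∈ G) ∧ u σ G x a b = -1 := by
    intro a b
    simp [L]
  have sub : ∀ a ∈ G, a ≠ x → ∀ p ∈ L a, L p ⊆ (L a).erase p := by
    intro a ha hax p hp b hb
    rw [memL] at hp hb
    obtain ⟨⟨hpa, hpx, hpG⟩, hap⟩ := hp
    obtain ⟨⟨hbp, hbx, hbG⟩, hpb⟩ := hb
    have hba : b ≠ a := by
      rintro rfl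
      have := hσ.anti G hG x hx b hbG p hpG hbx hpx hbp
      rw [hap, hpb] at this
      norm_num at this
    rw [mem_erase, memL]
    refine ⟨hbp, ⟨hba, hbx, hbG⟩, ?_⟩
    have h1 := hσ.trans G hG x hx a ha p hpG b hbG hax hpx hbx hpa.symm hbp.symm hba.symm
    have h2 := hσ.anti G hG x hx a ha b hbG hax hbx hba.symm
    rcases hσ.u_pm hG hx hbG ha hbx hax hba with h3 | h3
    · rw [h2, h3]
    · exact absurd ⟨by rw [hap, hpb], by rw [hpb, h3]⟩ h1
  have lt : ∀ a ∈ G, a ≠ x → ∀ p ∈ L a, (L p).card < (L a).card := by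
    intro a ha hax p hp
    have h1 := card_le_card (sub a ha hax p hp)
    rw [card_erase_of_mem hp] at h1
    have := card_pos.2 ⟨p, hp⟩
    omega
  have main : ∀ k, ∀ a ∈ G, a ≠ x → (L a).card = k →
      F d f (E.erase x) (tv σ G x s a 1) = 0 := by
    intro k
    induction k using Nat.strong_induction_on with
    | _ k IH =>
      intro a ha hax hk
      rcases (L a).eq_empty_or_nonempty with h0 | hne
      · refine (ih x hx).whole ht _ (tpm a ha hax 1 PM.one) (G.erase x) (erase_subset_erase x hGE)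
          (cE x hx) 1 PM.one ?_
        intro i hi
        rw [mem_erase] at hi
        by_cases hia : i = a
        · subst hia
          simp [tv]
        · rw [tval a ha 1 i hi.2 hia hi.1]
          rcases hσ.u_pm hG hx ha hi.2 hax hi.1 (Ne.symm hia) with h3 | h3
          · rw [h3]
          · have : i ∈ L a := (memL a i).2 ⟨⟨hia, hi.1, hi.2⟩, h3⟩
            rw [h0] at this
            simp at this
      · obtain ⟨p, hp, hmax⟩ := exists_max_image (L a) (fun b => (L b).card) hne
        have hp' := (memL a p).1 hp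
        obtain ⟨⟨hpa, hpx, hpG⟩, hap⟩ := hp'
        have h1 := IH _ (hk ▸ lt a ha hax p hp) p hpG hpx rfl
        have h2 := flip p hpG hpx 1 PM.one h1
        rw [← h2]
        refine F_congr d f _ fun i hi => ?_
        rw [mem_erase] at hi
        by_cases hiG : i ∈ G
        · by_cases hia : i = a
          · subst hia
            rw [tval p hpG _ i hiG (Ne.symm hpa) hax,
              hσ.anti G hG x hx p hpG i ha hpx hax hpa, hap]
            simp [tv]
          · by_cases hip : i = p
            · subst hip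
              rw [tval a ha _ i hiG hia hi.1, hap]
              simp [tv]
            · rw [tval a ha _ i hiG hia hi.1, tval p hpG _ i hiG hip hi.1]
              congr 1
              rcases hσ.u_pm hG hx hpG hiG hpx hi.1 (Ne.symm hip) with h3 | h3
              · rcases hσ.u_pm hG hx ha hiG hax hi.1 (Ne.symm hia) with h4 | h4
                · rw [h3, h4]
                · exfalso
                  have hiL : i ∈ L a := (memL a i).2 ⟨⟨hia, hi.1, hiG⟩, h4⟩
                  have hpi : p ∈ L i := by
                    refine (memL i p).2 ⟨⟨Ne.symm hip, hpx, hpG⟩, ?_⟩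
                    rw [hσ.anti G hG x hx i hiG p hpG hi.1 hpx hip, h3]
                  have h5 := lt i hiG hi.1 p hpi
                  have h6 := hmax i hiL
                  omega
              · have hiL : i ∈ L p := (memL p i).2 ⟨⟨hip, hi.1, hiG⟩, h3⟩
                have := (memL a i).1 (mem_of_mem_erase (sub a ha hax p hp hiL))
                rw [h3, this.2]
        · have hia : i ≠ a := fun h => hiG (h ▸ ha)
          have hip : i ≠ p := fun h => hiG (h ▸ hpG)
          simp [tv, hia, hip, hiG]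
  intro a ha hax δ hδ
  rcases hδ with rfl | rfl
  · exact main _ a ha hax rfl
  · exact flip a ha hax 1 PM.one (main _ a ha hax rfl)

theorem Q1_all {d : ℕ} {σ : Finset α → α → ℚ} (hσ : Sig d σ) {f : Finset α → W} {t : α}
    (hf : ∀ D : Finset α, D.card = d + 2 → ∀ e ∈ D, t ∉ D.erase e → F d f (D.erase e) (σ D) = 0) :
    ∀ m, ∀ E : Finset α, E.card = d + 2 + m → Q1 d σ f t E := by
  intro m
  induction m with
  | zero =>
    intro E hE s _ D hD hc ε _ hsD x hx ht
    have hDE : D = E := eq_of_subset_of_card_le hD (by omega)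
    subst hDE
    rw [F_congr d f _ (t := fun i => ε * σ D i) (fun i hi => hsD i (mem_of_mem_erase hi)),
      F_scale, hf D hc x hx ht, smul_zero]
  | succ m IH =>
    intro E hE s hs D hD hc ε hε hsD x hx ht
    have ih : ∀ a ∈ E, Q1 d σ f t (E.erase a) := by
      intro a ha
      apply IH
      rw [card_erase_of_mem ha]
      omega
    by_cases hxD : x ∈ D
    · obtain ⟨g, hgE, hgD⟩ : ∃ g ∈ E, g ∉ D := by
        by_contra hcon
        push Not at hcon
        have := card_le_card (show E ⊆ D from hcon)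
        omega
      have hG : (insert g D).card = d + 3 := by rw [card_insert_of_notMem hgD]; omega
      have hGE : insert g D ⊆ E := insert_subset hgE hD
      have hgx : g ≠ x := fun h => hgD (h ▸ hxD)
      have hxG : x ∈ insert g D := mem_insert_of_mem hxD
      have hgG : g ∈ insert g D := mem_insert_self g D
      have cx : ((insert g D).erase x).card = d + 2 := by rw [card_erase_of_mem hxG]; omega
      have hσg := hσ.pm _ cx g (mem_erase.2 ⟨hgx, hgG⟩)
      have h1 := walk1 hσ hGE hG (fun a ha => ih a (hGE ha)) hxG ht (fun i => s x * s i)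
        (fun i => (hs x).mul (hs i)) g hgG hgx (s x * s g * σ ((insert g D).erase x) g)
        (((hs x).mul (hs g)).mul hσg)
      have h2 : F d f (E.erase x) (fun i => s x * s i) = 0 := by
        rw [← h1]
        refine F_congr d f _ fun i _ => ?_
        unfold tv
        split_ifs with h3 h4
        · rw [h3, mul_assoc (s x * s g), hσg.sq, mul_one]
        · have hiD : i ∈ D := (mem_insert.1 h4).resolve_left h3
          rw [erase_insert hgD, hsD x hxD, hsD i hiD]
          calc ε * σ D x * (ε * σ D i) = (ε * ε) * (σ D x * σ D i) := by ring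
            _ = σ D x * σ D i := by rw [hε.sq, one_mul]
        · rfl
      rw [F_scale] at h2
      exact (smul_eq_zero.1 h2).resolve_left (pow_ne_zero _ (hs x).ne_zero)
    · exact (ih x hx).whole ht s hs D (subset_erase.2 ⟨hD, hxD⟩) hc ε hε hsD

theorem F_top {d : ℕ} (f : Finset α → W) {B : Finset α} (hB : B.card = d + 1) (s : α → ℚ) :
    F d f B s = ∑ y ∈ B, (∏ i ∈ B.erase y, s i) • f (B.erase y) := by
  unfold F
  symm
  refine sum_bij (fun y _ => B.erase y) ?_ ?_ ?_ (fun _ _ => rfl)
  · intro y hy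
    rw [mem_powersetCard, card_erase_of_mem hy, hB]
    exact ⟨erase_subset y B, rfl⟩
  · intro y hy z _ h
    exact erase_injOn B hy ‹_› h
  · intro S hS
    rw [mem_powersetCard] at hS
    obtain ⟨y, hy⟩ := card_eq_one.1 (show (B \ S).card = 1 by
      rw [card_sdiff_of_subset hS.1]; omega)
    have h1 : y ∈ B \ S := by rw [hy]; exact mem_singleton_self y
    refine ⟨y, (mem_sdiff.1 h1).1, ?_⟩
    rw [erase_eq, ← hy, Finset.sdiff_sdiff_eq_self hS.1]

theorem F_sup {d : ℕ} (f : Finset α → W) (s : α → ℚ) (C : Finset α) (t : α)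
    (h : ∀ E : Finset α, C ⊆ E → t ∉ E → F d f E s = 0) (R : Finset α) :
    Disjoint R C → ∀ E : Finset α, C ⊆ E → t ∉ E →
      F d (fun S => if R ⊆ S then f S else 0) E s = 0 := by
  induction R using Finset.induction_on with
  | empty => intro _ E h1 h2; simpa using h E h1 h2
  | insert r R hr ih =>
    intro hd E h1 h2
    rw [disjoint_insert_left] at hd
    have e1 := ih hd.2 E h1 h2
    have e2 := ih hd.2 (E.erase r) (subset_erase.2 ⟨h1, hd.1⟩) (fun h => h2 (mem_of_mem_erase h))
    rw [F_erase] at e2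
    unfold F at e1 ⊢
    have e3 := sub_eq_zero.2 (e1.trans e2.symm)
    rw [← sum_sub_distrib] at e3
    refine (sum_congr rfl fun S _ => ?_).trans e3
    by_cases h3 : r ∈ S <;> by_cases h4 : R ⊆ S <;> simp [insert_subset_iff, h3, h4]

/-- the relation obtained by adding one element to a set of size `d - 1` -/
theorem up_rel [Fintype α] {d : ℕ} (hn : Fintype.card α = 2 * d + 1) {σ : Finset α → α → ℚ}
    (hσ : Sig d σ) {f : Finset α → ℚ} {t : α}
    (hf : ∀ D : Finset α, D.card = d + 2 → ∀ e ∈ D, t ∉ D.erase e →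
      F d f (D.erase e) (σ D) = 0)
    (R : Finset α) (hR : R.card + 1 = d) (ht : t ∉ R) :
    ∑ a ∈ univ \ R, σ (univ \ R) a * f (insert a R) = σ (univ \ R) t * f (insert t R) := by
  set D : Finset α := univ \ R with hDdef
  have hD : D.card = d + 2 := by
    rw [hDdef, card_sdiff_of_subset (subset_univ R), card_univ]; omega
  have htD : t ∈ D := mem_sdiff.2 ⟨mem_univ t, ht⟩
  let s : α → ℚ := fun i => if i ∈ D then σ D i else 1
  have hs : ∀ i, PM (s i) := by
    intro i
    by_cases h : i ∈ D
    · simp only [s, if_pos h]; exact hσ.pm _ hD i h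
    · simp only [s, if_neg h]; exact PM.one
  have h0 : ∀ E : Finset α, D.erase t ⊆ E → t ∉ E → F d f E s = 0 := by
    intro E h1 h2
    have h3 : D ⊆ insert t E := by
      rw [← insert_erase htD]; exact insert_subset_insert t h1
    have h4 := card_le_card h3
    have h5 := Q1_all hσ hf ((insert t E).card - (d + 2)) (insert t E) (by omega) s hs D h3 hD 1
      PM.one (fun i hi => by simp only [s, if_pos hi, one_mul]) t (mem_insert_self t E)
      (notMem_erase t _)
    rwa [erase_insert h2] at h5
  have h1 := F_sup f s (D.erase t) t h0 R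
    (disjoint_left.2 fun i hi h => (mem_sdiff.1 (mem_of_mem_erase h)).2 hi) (univ.erase t)
    (erase_subset_erase t (subset_univ D)) (notMem_erase t _)
  have h2 : ∑ a ∈ D.erase t, σ D a * f (insert a R) = 0 := by
    rw [← h1]
    unfold F
    simp only [smul_ite, smul_zero]
    rw [← sum_filter]
    refine sum_bij (fun a _ => insert a R) ?_ ?_ ?_ ?_
    · intro a ha
      obtain ⟨h3, h4⟩ := mem_erase.1 ha
      have h5 : a ∉ R := (mem_sdiff.1 h4).2
      rw [mem_filter, mem_powersetCard, card_insert_of_notMem h5]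
      refine ⟨⟨subset_erase.2 ⟨subset_univ _, ?_⟩, hR⟩, subset_insert a R⟩
      rw [mem_insert]
      rintro (h | h)
      · exact h3 h.symm
      · exact ht h
    · intro a ha b _ h
      have h5 : a ∉ R := (mem_sdiff.1 (mem_of_mem_erase ha)).2
      have h6 : a ∈ insert b R := h ▸ mem_insert_self a R
      exact (mem_insert.1 h6).resolve_right h5
    · intro S hS
      rw [mem_filter, mem_powersetCard] at hS
      obtain ⟨a, ha⟩ := card_eq_one.1 (show (S \ R).card = 1 by
        rw [card_sdiff_of_subset hS.2]; omega)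
      have h3 : a ∈ S \ R := by rw [ha]; exact mem_singleton_self a
      obtain ⟨h4, h5⟩ := mem_sdiff.1 h3
      refine ⟨a, mem_erase.2 ⟨(mem_erase.1 (hS.1.1 h4)).1, mem_sdiff.2 ⟨mem_univ a, h5⟩⟩, ?_⟩
      rw [insert_eq, ← ha, sdiff_union_of_subset hS.2]
    · intro a ha
      have h4 := mem_of_mem_erase ha
      have h5 : a ∉ R := (mem_sdiff.1 h4).2
      rw [prod_insert h5, prod_eq_one (fun i hi => by
        simp only [s]; rw [if_neg (fun h => (mem_sdiff.1 h).2 hi)])]
      simp only [s, if_pos h4, mul_one, smul_eq_mul]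
  rw [← add_sum_erase D _ htD, h2, add_zero]

section triple

variable [Fintype α] {d : ℕ} {σ : Finset α → α → ℚ} {f : Finset α → ℚ} {A : Finset α}

theorem step_two (hn : Fintype.card α = 2 * d + 1) (hσ : Sig d σ)
    (hf : ∀ t ∈ A, ∀ D : Finset α, D.card = d + 2 → ∀ e ∈ D, t ∉ D.erase e →
      F d f (D.erase e) (σ D) = 0)
    {i j k : α} (hi : i ∈ A) (hj : j ∈ A) (hk : k ∈ A) (hij : i ≠ j) (hik : i ≠ k) (hjk : j ≠ k)
    (R : Finset α) (hR : R.card + 2 = d) (ri : i ∉ R) (rj : j ∉ R) (rk : k ∉ R) :
    f (insert i (insert j R)) = 0 := by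
  set G : Finset α := univ \ R with hGdef
  have hG : G.card = d + 3 := by
    rw [hGdef, card_sdiff_of_subset (subset_univ R), card_univ]; omega
  have mem : ∀ a, a ∉ R → a ∈ G := fun a ha => mem_sdiff.2 ⟨mem_univ a, ha⟩
  have key : ∀ a b c : α, b ∈ A → c ∈ A → a ≠ b → a ≠ c → a ∉ R → b ∉ R → c ∉ R →
      σ (G.erase a) b * f (insert b (insert a R)) = σ (G.erase a) c * f (insert c (insert a R)) := by
    intro a b c hb hc hab hac ra rb rc
    have e : univ \ insert a R = G.erase a := by rw [sdiff_insert]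
    have c1 : (insert a R).card + 1 = d := by rw [card_insert_of_notMem ra]; omega
    have h1 := up_rel hn hσ (hf b hb) (insert a R) c1 (by simp [rb, hab.symm])
    have h2 := up_rel hn hσ (hf c hc) (insert a R) c1 (by simp [rc, hac.symm])
    rw [e] at h1 h2
    exact h1.symm.trans h2
  have pm : ∀ a b, a ∉ R → b ∉ R → a ≠ b → PM (σ (G.erase a) b) := fun a b ra rb hab =>
    hσ.pm _ (by rw [card_erase_of_mem (mem a ra)]; omega) b (mem_erase.2 ⟨hab.symm, mem b rb⟩)
  have e1 := key i j k hj hk hij hik ri rj rk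
  have e2 := key j i k hi hk hij.symm hjk rj ri rk
  have e3 := key k i j hi hj hik.symm hjk.symm rk ri rj
  rw [insert_comm j i] at e1
  rw [insert_comm i k, insert_comm j k] at e3
  have an := hσ.anti G hG i (mem i ri) j (mem j rj) k (mem k rk) hij.symm hik.symm hjk
  unfold u at an
  rcases pm i j ri rj hij with a1 | a1 <;> rcases pm i k ri rk hik with a2 | a2 <;>
    rcases pm j i rj ri hij.symm with a3 | a3 <;> rcases pm j k rj rk hjk with a4 | a4 <;>
    rcases pm k i rk ri hik.symm with a5 | a5 <;> rcases pm k j rk rj hjk.symm with a6 | a6 <;>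
    rw [a1, a2] at e1 <;> rw [a3, a4] at e2 <;> rw [a5, a6] at e3 <;>
    rw [a1, a2, a3, a4, a5, a6] at an <;> linarith

theorem step_one (hn : Fintype.card α = 2 * d + 1) (hσ : Sig d σ)
    (hf : ∀ t ∈ A, ∀ D : Finset α, D.card = d + 2 → ∀ e ∈ D, t ∉ D.erase e →
      F d f (D.erase e) (σ D) = 0)
    {i j k : α} (hi : i ∈ A) (hj : j ∈ A) (hk : k ∈ A) (hij : i ≠ j) (hik : i ≠ k) (hjk : j ≠ k)
    (R : Finset α) (hR : R.card + 1 = d) (ri : i ∉ R) (rj : j ∉ R) (rk : k ∉ R) :
    f (insert i R) = 0 := by
  set D : Finset α := insert i (insert j (insert k R)) with hDdef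
  have hD : D.card = d + 2 := by
    rw [hDdef, card_insert_of_notMem (by simp [hij, hik, ri]),
      card_insert_of_notMem (by simp [hjk, rj]), card_insert_of_notMem rk]
    omega
  have key : ∀ a b c : α, a ∈ A → b ∈ A → c ∈ A → a ≠ b → a ≠ c → b ≠ c → a ∉ R → b ∉ R → c ∉ R →
      D = insert c (insert a (insert b R)) →
      σ D a * f (insert a R) + σ D b * f (insert b R) = 0 := by
    intro a b c ha hb hc hab hac hbc ra rb rc hE
    have hcB : c ∉ insert a (insert b R) := by simp [hac.symm, hbc.symm, rc]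
    have e : D.erase c = insert a (insert b R) := by rw [hE, erase_insert hcB]
    have h1 := hf c hc D hD c (by rw [hE]; exact mem_insert_self _ _) (notMem_erase c D)
    have haB : a ∉ insert b R := by simp [hab, ra]
    rw [e, F_top f (by rw [card_insert_of_notMem haB, card_insert_of_notMem rb]; omega),
      sum_insert haB, sum_insert rb, sum_eq_zero, erase_insert haB, erase_insert_of_ne hab,
      erase_insert rb, prod_insert rb, prod_insert ra] at h1
    · have h2 : PM (∏ i ∈ R, σ D i) := prod_induction _ PM (fun _ _ => PM.mul) PM.one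
        fun y hy => hσ.pm D hD y (by rw [hE]; simp [hy])
      simp only [smul_eq_mul, add_zero] at h1
      refine mul_left_cancel₀ h2.ne_zero ?_
      linear_combination h1
    · intro y hy
      have ya : a ≠ y := fun h => ra (h ▸ hy)
      have yb : b ≠ y := fun h => rb (h ▸ hy)
      rw [erase_insert_of_ne ya, erase_insert_of_ne yb,
        step_two hn hσ hf ha hb hc hab hac hbc (R.erase y)
          (by rw [card_erase_of_mem hy]; have := card_pos.2 ⟨y, hy⟩; omega)
          (fun h => ra (mem_of_mem_erase h)) (fun h => rb (mem_of_mem_erase h))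
          (fun h => rc (mem_of_mem_erase h)), smul_zero]
  have e1 := key i j k hi hj hk hij hik hjk ri rj rk
    (by rw [hDdef]; ext z; simp only [mem_insert]; tauto)
  have e2 := key i k j hi hk hj hik hij hjk.symm ri rk rj
    (by rw [hDdef]; ext z; simp only [mem_insert]; tauto)
  have e3 := key j k i hj hk hi hjk hij.symm hik.symm rj rk ri hDdef
  have h3 : σ D i * f (insert i R) = 0 := by linarith
  exact (mul_eq_zero.1 h3).resolve_left (hσ.pm D hD i (mem_insert_self _ _)).ne_zero

theorem vanish (hn : Fintype.card α = 2 * d + 1) (hσ : Sig d σ) (hA : 3 ≤ A.card)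
    (hf : ∀ t ∈ A, ∀ D : Finset α, D.card = d + 2 → ∀ e ∈ D, t ∉ D.erase e →
      F d f (D.erase e) (σ D) = 0)
    (S : Finset α) (hS : S.card = d) (hAS : ¬ A ⊆ S) : f S = 0 := by
  obtain ⟨k, hk, kS⟩ := not_subset.1 hAS
  obtain ⟨i, j, hi, hj, hij⟩ := one_lt_card_iff.1 (show 1 < (A.erase k).card by
    rw [card_erase_of_mem hk]; omega)
  obtain ⟨hik, hi⟩ := mem_erase.1 hi
  obtain ⟨hjk, hj⟩ := mem_erase.1 hj
  have one : ∀ a b : α, a ∈ A → b ∈ A → a ≠ b → a ≠ k → b ≠ k → ∀ S : Finset α, S.card = d →
      a ∈ S → b ∉ S → k ∉ S → f S = 0 := by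
    intro a b ha hb hab hak hbk S hS aS bS kS
    rw [← insert_erase aS]
    exact step_one hn hσ hf ha hb hk hab hak hbk (S.erase a)
      (by rw [card_erase_of_mem aS]; have := card_pos.2 ⟨a, aS⟩; omega) (notMem_erase a S)
      (fun h => bS (mem_of_mem_erase h)) (fun h => kS (mem_of_mem_erase h))
  by_cases iS : i ∈ S <;> by_cases jS : j ∈ S
  · have jS' : j ∈ S.erase i := mem_erase.2 ⟨hij.symm, jS⟩
    rw [← insert_erase iS, ← insert_erase jS']
    refine step_two hn hσ hf hi hj hk hij hik hjk _ ?_
      (fun h => notMem_erase i S (mem_of_mem_erase h)) (notMem_erase j _)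
      (fun h => kS (mem_of_mem_erase (mem_of_mem_erase h)))
    have h1 := card_erase_add_one iS
    have h2 := card_erase_add_one jS'
    omega
  · exact one i j hi hj hij hik hjk S hS iS jS kS
  · exact one j i hj hi hij.symm hjk hik S hS jS iS kS
  · have hkB : k ∉ insert i S := by simp [hik.symm, kS]
    have hB : (insert i S).card = d + 1 := by rw [card_insert_of_notMem iS, hS]
    have hD : (insert k (insert i S)).card = d + 2 := by rw [card_insert_of_notMem hkB, hB]
    have h1 := hf k hk _ hD k (mem_insert_self _ _) (notMem_erase k _)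
    rw [erase_insert hkB, F_top f hB, sum_insert iS, sum_eq_zero, erase_insert iS, add_zero] at h1
    · have h2 : PM (∏ y ∈ S, σ (insert k (insert i S)) y) :=
        prod_induction _ PM (fun _ _ => PM.mul) PM.one fun y hy => hσ.pm _ hD y (by simp [hy])
      exact (smul_eq_zero.1 h1).resolve_left h2.ne_zero
    · intro y hy
      have yi : i ≠ y := fun h => iS (h ▸ hy)
      rw [one i j hi hj hij hik hjk _ (by rw [card_erase_of_mem (mem_insert_of_mem hy), hB]; rfl)
        (mem_erase.2 ⟨yi, mem_insert_self _ _⟩)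
        (fun h => by
          rcases mem_insert.1 (mem_of_mem_erase h) with h | h
          exacts [hij h.symm, jS h])
        (fun h => hkB (mem_of_mem_erase h)), smul_zero]

end triple

end Pool.Agent.Lib.MP_a97014_co
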