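import Mathlib
import Pool.Agent.Lib.MP_a97014_co.EqTriple

/-!
In the extremal case the low degree monomials are independent on the complete topes.  The
functional dual to one monomial of degree `d - 2` gives a complete tope of a rank three contraction.
-/

set_option autoImplicit false

namespace Pool.Agent.Lib.MP_a97014_co

open Finset

variable {α : Type*} [DecidableEq α]

theorem rel_zero {d : ℕ} {K : Finset (Finset α)} (B : Finset α)
    (τ : α → ℚ) (h1 : ∀ T ∈ K, ∃ i ∈ B, sg T i * τ i = 1)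
    (h2 : ∀ T ∈ K, ∃ i ∈ B, sg T i * τ i = -1) :
    ∑ U ∈ B.powerset, ((1 + (-1 : ℚ) ^ (d + U.card)) * ∏ i ∈ U, τ i) • mon K U = 0 := by
  have e0 : ∑ U ∈ B.powerset, ((1 + (-1 : ℚ) ^ (d + U.card)) * ∏ i ∈ U, τ i) • mon K U = 0 := by
    funext T
    rw [Finset.sum_apply]
    have p1 : ∏ i ∈ B, (1 + sg T.1 i * τ i) = 0 := by
      obtain ⟨i, hi, h⟩ := h2 T.1 T.2
      exact prod_eq_zero hi (by rw [h]; norm_num)
    have p2 : ∏ i ∈ B, (1 + -(sg T.1 i * τ i)) = 0 := by
      obtain ⟨i, hi, h⟩ := h1 T.1 T.2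
      exact prod_eq_zero hi (by rw [h]; norm_num)
    rw [prod_one_add] at p1 p2
    have : ∑ U ∈ B.powerset,
        (((1 + (-1 : ℚ) ^ (d + U.card)) * ∏ i ∈ U, τ i) • mon K U) T
        = ∑ U ∈ B.powerset, ∏ i ∈ U, (sg T.1 i * τ i)
          + (-1) ^ d * ∑ U ∈ B.powerset, ∏ i ∈ U, -(sg T.1 i * τ i) := by
      rw [mul_sum, ← sum_add_distrib]
      refine sum_congr rfl fun U _ => ?_
      rw [prod_neg, prod_mul_distrib, pow_add]
      simp only [Pi.smul_apply, mon, smul_eq_mul]
      ring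
    rw [this, p1, p2]
    simp
  exact e0

theorem exists_dual [Fintype α] {d : ℕ} (hd : 2 ≤ d) (hn : 2 * d + 1 ≤ Fintype.card α)
    {σ : Finset α → α → ℚ} (hσ : Sig d σ) {K : Finset (Finset α)}
    (h1 : ∀ T ∈ K, ∀ D : Finset α, D.card = d + 2 → ∀ e ∈ D,
      ∃ i ∈ D.erase e, sg T i * σ D i = 1)
    (h2 : ∀ T ∈ K, ∀ D : Finset α, D.card = d + 2 → ∀ e ∈ D,
      ∃ i ∈ D.erase e, sg T i * σ D i = -1)
    (hK : 2 * ∑ i ∈ range (d - 1), (Fintype.card α - 1).choose i ≤ K.card)
    (A : Finset α) (hA : A.card + 2 ≤ d) :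
    ∃ l : (K → ℚ) →ₗ[ℚ] ℚ, ∀ U : Finset α, U.card + 2 ≤ d →
      l (mon K U) = if U = A then 1 else 0 := by
  classical
  obtain ⟨z⟩ : Nonempty α := Fintype.card_pos_iff.1 (by omega)
  let 𝒰 : Finset (Finset α) := univ.filter (fun S => (S.erase z).card + 2 ≤ d)
  let V2 : Submodule ℚ (K → ℚ) := Submodule.span ℚ (𝒰.image (mon K) : Finset (K → ℚ))
  have gen : ∀ S : Finset α, (S.erase z).card + 2 ≤ d → mon K S ∈ V2 := by
    intro S hS
    refine Submodule.subset_span ?_
    simp only [coe_image, Set.mem_image, mem_coe]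
    exact ⟨S, by simp [𝒰, hS], rfl⟩
  have mulc : ∀ i : α, (∀ S : Finset α, (S.erase z).card + 2 ≤ d → mon K {i} * mon K S ∈ V2) →
      ∀ g ∈ V2, mon K {i} * g ∈ V2 := by
    intro i hi g hg
    induction hg using Submodule.span_induction with
    | mem g hg =>
      simp only [coe_image, Set.mem_image, mem_coe] at hg
      obtain ⟨S, hS, rfl⟩ := hg
      exact hi S (by simpa [𝒰] using hS)
    | zero => simp
    | add g g' _ _ ha hb => rw [mul_add]; exact V2.add_mem ha hb
    | smul c g _ ha => rw [mul_smul_comm]; exact V2.smul_mem c ha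
  have ha : V d K ≤ V2 := by
    refine Submodule.span_le.2 ?_
    rintro g ⟨S, hS, -, rfl⟩
    have := card_erase_le (s := S) (a := z)
    exact gen S (by omega)
  have hb : ∀ g ∈ V2, mon K {z} * g ∈ V2 := by
    refine mulc z fun S hS => ?_
    by_cases hz : z ∈ S
    · rw [← mon_erase K hz]
      exact gen _ (by rwa [erase_idem])
    · rw [← mon_insert K hz]
      exact gen _ (by rwa [erase_insert_eq_erase])
  have hc : ∀ S : Finset α, (S.erase z).card + 1 ≤ d → mon K S ∈ V2 := by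
    intro S hS
    rcases Nat.lt_or_ge ((S.erase z).card + 1) d with h | h
    · exact gen S (by omega)
    · have h3 : mon K (insert z (S.erase z)) ∈ V2 := by
        refine ha (mon_mem_V (by omega) hn hσ h1 h2 _ ?_)
        rw [card_insert_of_notMem (notMem_erase z S)]
        omega
      by_cases hz : z ∈ S
      · rwa [insert_erase hz] at h3
      · have h4 := hb _ h3
        rwa [← mon_erase K (mem_insert_self z _), erase_insert (notMem_erase z S),
          erase_eq_of_notMem hz] at h4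
  have hd' : ∀ i : α, ∀ g ∈ V2, mon K {i} * g ∈ V2 := by
    intro i
    refine mulc i fun S hS => ?_
    by_cases hi : i ∈ S
    · rw [← mon_erase K hi]
      refine gen _ ?_
      have := card_le_card (erase_subset_erase z (erase_subset i S))
      omega
    · rw [← mon_insert K hi]
      refine hc _ ?_
      have h3 : (insert i S).erase z ⊆ insert i (S.erase z) := by
        intro j hj
        simp only [mem_erase, mem_insert] at hj ⊢
        tauto
      have h4 := card_le_card h3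
      have h5 := card_insert_le i (S.erase z)
      omega
  have he : ∀ S : Finset α, mon K S ∈ V2 := by
    intro S
    induction S using Finset.induction_on with
    | empty => exact gen _ (by simpa using hd)
    | insert i S hi ih => rw [mon_insert K hi]; exact hd' i _ ih
  have hf : ∀ T : K, (Pi.single T (1 : ℚ) : K → ℚ) ∈ V2 := by
    intro T
    have h3 : ((2 : ℚ) ^ Fintype.card α) • (Pi.single T (1 : ℚ) : K → ℚ)
        = ∑ U ∈ (univ : Finset α).powerset, (∏ i ∈ U, sg T.1 i) • mon K U := by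
      funext T'
      rw [Finset.sum_apply]
      have h4 : ∀ U ∈ (univ : Finset α).powerset, ((∏ i ∈ U, sg T.1 i) • mon K U) T'
          = ∏ i ∈ U, (sg T.1 i * sg T'.1 i) := by
        intro U _
        simp [mon, prod_mul_distrib]
      rw [sum_congr rfl h4, ← prod_one_add]
      by_cases hT : T' = T
      · subst hT
        have h5 : ∀ i ∈ (univ : Finset α), 1 + sg T'.1 i * sg T'.1 i = 2 := by
          intro i _
          rw [(sg_pm _ _).sq]; norm_num
        rw [prod_congr rfl h5]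
        simp
      · have h5 : ∃ i, ¬ (i ∈ T'.1 ↔ i ∈ T.1) := by
          by_contra hcon
          push Not at hcon
          exact hT (Subtype.ext (Finset.ext hcon))
        obtain ⟨i, hi⟩ := h5
        rw [prod_eq_zero (mem_univ i)]
        · simp [Pi.single_eq_of_ne hT]
        · unfold sg
          by_cases h6 : i ∈ T.1 <;> by_cases h7 : i ∈ T'.1 <;> simp_all
    have h6 : ((2 : ℚ) ^ Fintype.card α) • (Pi.single T (1 : ℚ) : K → ℚ) ∈ V2 := by
      rw [h3]
      exact Submodule.sum_mem _ fun U _ => V2.smul_mem _ (he U)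
    exact (Submodule.smul_mem_iff _ (by positivity)).1 h6
  have htop : V2 = ⊤ := by
    rw [eq_top_iff]
    intro g _
    rw [pi_eq_sum_univ' g]
    exact Submodule.sum_mem _ fun T _ => V2.smul_mem _ (hf T)
  have hcard : 𝒰.card ≤ 2 * ∑ i ∈ range (d - 1), (Fintype.card α - 1).choose i := by
    have h7 : 𝒰.card ≤ 2 * (𝒰.image (fun S => S.erase z)).card := by
      refine card_le_mul_card_image _ _ fun A _ => ?_
      have : 𝒰.filter (fun S => S.erase z = A) ⊆ {A, insert z A} := by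
        intro S hS
        rw [mem_filter] at hS
        rw [mem_insert, mem_singleton, ← hS.2]
        by_cases hz : z ∈ S
        · right; rw [insert_erase hz]
        · left; rw [erase_eq_of_notMem hz]
      exact (card_le_card this).trans card_le_two
    refine h7.trans (Nat.mul_le_mul_left 2 ?_)
    have h8 : 𝒰.image (fun S => S.erase z)
        ⊆ (range (d - 1)).biUnion (fun i => powersetCard i (univ.erase z)) := by
      intro A hA
      rw [mem_image] at hA
      obtain ⟨S, hS, rfl⟩ := hA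
      have hS' : (S.erase z).card + 2 ≤ d := by simpa [𝒰] using hS
      rw [mem_biUnion]
      refine ⟨(S.erase z).card, mem_range.2 (by omega), ?_⟩
      rw [mem_powersetCard]
      exact ⟨erase_subset_erase z (subset_univ S), rfl⟩
    refine (card_le_card h8).trans (card_biUnion_le.trans ?_)
    refine le_of_eq (sum_congr rfl fun i _ => ?_)
    rw [card_powersetCard, card_erase_of_mem (mem_univ z), card_univ]
  have hrank : K.card ≤ 𝒰.card := by
    have h3 : Module.finrank ℚ V2 ≤ (𝒰.image (mon K)).card := finrank_span_finset_le_card _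
    rw [htop, finrank_top, Module.finrank_fintype_fun_eq_card, Fintype.card_coe] at h3
    exact h3.trans card_image_le
  have hsp : ⊤ ≤ Submodule.span ℚ (Set.range fun S : 𝒰 => mon K S.1) := by
    rw [← htop]
    refine Submodule.span_mono ?_
    intro g hg
    simp only [coe_image, Set.mem_image, mem_coe] at hg
    obtain ⟨S, hS, rfl⟩ := hg
    exact ⟨⟨S, hS⟩, rfl⟩
  have hc2 : Fintype.card 𝒰 = Module.finrank ℚ (K → ℚ) := by
    rw [Module.finrank_fintype_fun_eq_card, Fintype.card_coe, Fintype.card_coe]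
    omega
  let b := basisOfTopLeSpanOfCardEqFinrank _ hsp hc2
  have mem : ∀ U : Finset α, U.card + 2 ≤ d → U ∈ 𝒰 := by
    intro U hU
    have := card_erase_le (s := U) (a := z)
    simp only [𝒰, mem_filter, mem_univ, true_and]
    omega
  refine ⟨b.coord ⟨A, mem A hA⟩, fun U hU => ?_⟩
  have e : mon K U = b ⟨U, mem U hU⟩ := by
    simp only [b, coe_basisOfTopLeSpanOfCardEqFinrank]
  rw [e, Module.Basis.coord_apply, Module.Basis.repr_self, Finsupp.single_apply]
  simp only [Subtype.mk.injEq]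

theorem dual_rel {d : ℕ} {K : Finset (Finset α)} {A : Finset α} (hA : A.card + 2 = d)
    {l : (K → ℚ) →ₗ[ℚ] ℚ}
    (hl : ∀ U : Finset α, U.card + 2 ≤ d → l (mon K U) = if U = A then 1 else 0)
    (B : Finset α) (hB : B.card = d + 1) (τ : α → ℚ) (h1 : ∀ T ∈ K, ∃ i ∈ B, sg T i * τ i = 1)
    (h2 : ∀ T ∈ K, ∃ i ∈ B, sg T i * τ i = -1) :
    F d (fun S => l (mon K S)) B τ = if A ⊆ B then -∏ i ∈ A, τ i else 0 := by
  have e0 := congrArg l (rel_zero (d := d) B τ h1 h2)
  rw [map_sum, map_zero] at e0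
  have e1 : ∀ U ∈ B.powerset, l (((1 + (-1 : ℚ) ^ (d + U.card)) * ∏ i ∈ U, τ i) • mon K U)
      = (if U.card = d then 2 * ((∏ i ∈ U, τ i) * l (mon K U)) else 0)
        + (if U = A then 2 * ∏ i ∈ A, τ i else 0) := by
    intro U hU
    have hc := card_le_card (mem_powerset.1 hU)
    rw [map_smul, smul_eq_mul]
    by_cases hp : U.card % 2 = d % 2
    · have ev : Even (d + U.card) := by rw [Nat.even_iff]; omega
      rw [ev.neg_one_pow]
      by_cases hd : U.card = d
      · rw [if_pos hd, if_neg (fun h => by rw [h] at hd; omega)]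
        ring
      · rw [if_neg hd, hl U (by omega)]
        split_ifs with h
        · rw [h]; ring
        · ring
    · have od : Odd (d + U.card) := by rw [Nat.odd_iff]; omega
      rw [od.neg_one_pow, if_neg (fun h => hp (by rw [h])),
        if_neg (fun h => hp (by rw [h]; omega))]
      ring
  rw [sum_congr rfl e1, sum_add_distrib, ← sum_filter, sum_ite_eq', ← mul_sum] at e0
  have e2 : B.powerset.filter (fun U => U.card = d) = B.powersetCard d := by
    ext U; simp [mem_powersetCard]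
  rw [e2] at e0
  unfold F
  simp only [smul_eq_mul, mem_powerset] at e0 ⊢
  split_ifs at e0 ⊢ <;> linarith

theorem five_signs {a1 a2 a3 a4 a5 a6 b1 b2 b3 p q r : ℚ} (h3 : PM a3)
    (h4 : PM a4) (h5 : PM a5) (k1 : PM b1) (k2 : PM b2) (k3 : PM b3)
    (an : a1 * a2 * a6 = -(a3 * a4 * a5)) (t1 : a1 * a2 * p = -1 / 3) (t2 : a3 * a4 * q = -1 / 3)
    (t3 : a5 * a6 * r = -1 / 3) (s1 : b1 * b3 * p = -1 / 3) (s2 : b1 * b2 * q = -1 / 3)
    (s3 : b2 * b3 * r = -1 / 3) : False := by
  have can : ∀ u v w : ℚ, u * w = -1 / 3 → v * w = -1 / 3 → u = v := fun u v w e1 e2 =>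
    mul_right_cancel₀ (fun h : w = 0 => by rw [h] at e1; norm_num at e1) (e1.trans e2.symm)
  have e1 := can _ _ _ t1 s1
  have e2 := can _ _ _ t2 s2
  have e3 := can _ _ _ t3 s3
  have e4 : (a1 * a2) * (a3 * a4) * (a5 * a6) = 1 := by
    rw [e1, e2, e3]
    linear_combination (b2 * b2 * (b3 * b3)) * k1.sq + (b3 * b3) * k2.sq + k3.sq
  have e5 := ((h3.mul h4).mul h5).sq
  have e6 : (a1 * a2) * (a3 * a4) * (a5 * a6) = -1 := by
    linear_combination (a3 * a4 * a5) * an - e5
  linarith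

/-- a symmetric matrix with the triangle relations comes from a complete tope -/
theorem cond_of_tri {m : ℕ} {σ : Finset α → α → ℚ} (hσ : Sig (m + 2) σ) {X A : Finset α}
    (hXA : Disjoint X A) (hA : A.card = m) (hX : 5 ≤ X.card) (q : α → α → ℚ)
    (qs : ∀ a b, q a b = q b a)
    (tri : ∀ D ⊆ X, D.card = 4 → ∀ a ∈ D, ∀ b ∈ D, ∀ c ∈ D, a ≠ b → a ≠ c → b ≠ c →
      σ (D ∪ A) a * σ (D ∪ A) b * q a b + σ (D ∪ A) a * σ (D ∪ A) c * q a c
        + σ (D ∪ A) b * σ (D ∪ A) c * q b c = -1) :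
    ∃ T, Cond (m + 2) σ X A T := by
  have pm : ∀ D ⊆ X, D.card = 4 → ∀ a ∈ D, PM (σ (D ∪ A) a) := fun D hD hc a ha =>
    hσ.pm _ (by rw [card_union_of_disjoint (disjoint_of_subset_left hD hXA)]; omega) a
      (mem_union_left _ ha)
  have ext : ∀ Y ⊆ X, ∀ k, Y.card ≤ k → k ≤ 5 → ∃ D, Y ⊆ D ∧ D ⊆ X ∧ D.card = k :=
    fun Y hY k h1 h2 => exists_subsuperset_card_eq hY h1 (by omega)
  have opp : ∀ a ∈ X, ∀ b ∈ X, ∀ c ∈ X, ∀ g ∈ X, a ≠ b → a ≠ c → a ≠ g → b ≠ c → b ≠ g → c ≠ g →
      q a b ^ 2 = q c g ^ 2 := by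
    intro a ha b hb c hc g hg n1 n2 n3 n4 n5 n6
    have hD : ({a, b, c, g} : Finset α) ⊆ X := by simp [insert_subset_iff, ha, hb, hc, hg]
    have hc4 : ({a, b, c, g} : Finset α).card = 4 := by
      rw [card_insert_of_notMem (by simp [n1, n2, n3]), card_insert_of_notMem (by simp [n4, n5]),
        card_pair n6]
    have t1 := tri _ hD hc4 a (by simp) b (by simp) c (by simp) n1 n2 n4
    have t2 := tri _ hD hc4 a (by simp) b (by simp) g (by simp) n1 n3 n5
    have t3 := tri _ hD hc4 a (by simp) c (by simp) g (by simp) n2 n3 n6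
    have t4 := tri _ hD hc4 b (by simp) c (by simp) g (by simp) n4 n5 n6
    have p1 := ((pm _ hD hc4 a (by simp)).mul (pm _ hD hc4 b (by simp))).sq
    have p2 := ((pm _ hD hc4 c (by simp)).mul (pm _ hD hc4 g (by simp))).sq
    have e : σ ({a, b, c, g} ∪ A) a * σ ({a, b, c, g} ∪ A) b * q a b
        = σ ({a, b, c, g} ∪ A) c * σ ({a, b, c, g} ∪ A) g * q c g := by linarith
    have e2 := congrArg (fun x => x ^ 2) e
    simp only [mul_pow _ (q _ _), pow_two (_ * _), p1, p2, one_mul] at e2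
    exact e2
  have adj : ∀ a ∈ X, ∀ b ∈ X, ∀ c ∈ X, a ≠ b → a ≠ c → q a b ^ 2 = q a c ^ 2 := by
    intro a ha b hb c hc n1 n2
    have h3 : ({a, b, c} : Finset α).card ≤ 3 := card_le_three
    have h4 := le_card_sdiff ({a, b, c} : Finset α) X
    obtain ⟨g, h, hg, hh, n3⟩ := one_lt_card_iff.1 (show 1 < (X \ {a, b, c}).card by omega)
    simp only [mem_sdiff, mem_insert, mem_singleton, not_or] at hg hh
    rw [opp a ha b hb g hg.1 h hh.1 n1 (Ne.symm hg.2.1) (Ne.symm hh.2.1) (Ne.symm hg.2.2.1)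
      (Ne.symm hh.2.2.1) n3, opp a ha c hc g hg.1 h hh.1 n2 (Ne.symm hg.2.1) (Ne.symm hh.2.1)
      (Ne.symm hg.2.2.2) (Ne.symm hh.2.2.2) n3]
  have sqs : ∀ D ⊆ X, D.card = 4 → ∀ a ∈ D, ∀ b ∈ D,
      (σ (D ∪ A) a * σ (D ∪ A) b * q a b) ^ 2 = q a b ^ 2 := by
    intro D hD hc a ha b hb
    rw [mul_pow, pow_two (_ * _), ((pm D hD hc a ha).mul (pm D hD hc b hb)).sq, one_mul]
  have alg : ∀ r1 r2 r3 k : ℚ, r1 ^ 2 = k → r2 ^ 2 = k → r3 ^ 2 = k → r1 + r2 + r3 = -1 →
      (k = 1 ∧ r1 * r2 * r3 = 1) ∨ (k = 1 / 9 ∧ r1 = -1 / 3) := by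
    intro r1 r2 r3 k a1 a2 a3 a4
    rcases sq_eq_sq_iff_eq_or_eq_neg.1 (a2.trans a1.symm) with rfl | rfl <;>
      rcases sq_eq_sq_iff_eq_or_eq_neg.1 (a3.trans a1.symm) with h | h
    · right
      have : r2 = -1 / 3 := by linarith
      exact ⟨by rw [← a1, this]; norm_num, this⟩
    · left
      have : r2 = -1 := by linarith
      exact ⟨by rw [← a1, this]; norm_num, by rw [h, this]; norm_num⟩
    · left
      have : r1 = -1 := by linarith
      exact ⟨by rw [← a1, this]; norm_num, by rw [h, this]; norm_num⟩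
    · left
      have : r1 = 1 := by linarith
      exact ⟨by rw [← a1, this]; norm_num, by rw [h, this]; norm_num⟩
  have cas : ∀ D ⊆ X, D.card = 4 → ∀ a ∈ D, ∀ b ∈ D, ∀ c ∈ D, a ≠ b → a ≠ c → b ≠ c →
      (q a b ^ 2 = 1 ∧ q a b * q a c * q b c = 1) ∨
        (q a b ^ 2 = 1 / 9 ∧ σ (D ∪ A) a * σ (D ∪ A) b * q a b = -1 / 3) := by
    intro D hD hc a ha b hb c hc' n1 n2 n3
    have := alg _ _ _ (q a b ^ 2) (sqs D hD hc a ha b hb)
      ((sqs D hD hc a ha c hc').trans (adj a (hD ha) c (hD hc') b (hD hb) n2 n1))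
      ((sqs D hD hc b hb c hc').trans ((adj b (hD hb) c (hD hc') a (hD ha) n3 n1.symm).trans
        (by rw [qs b a]))) (tri D hD hc a ha b hb c hc' n1 n2 n3)
    refine this.imp (fun h => ⟨h.1, ?_⟩) id
    have p1 := (pm D hD hc a ha).sq
    have p2 := (pm D hD hc b hb).sq
    have p3 := (pm D hD hc c hc').sq
    have h2 := h.2
    linear_combination h2 - (q a b * q a c * q b c) * (σ (D ∪ A) b * σ (D ∪ A) b * (σ (D ∪ A) c
      * σ (D ∪ A) c) * p1 + σ (D ∪ A) c * σ (D ∪ A) c * p2 + p3)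
  have third : ∀ D ⊆ X, D.card = 4 → ∀ a ∈ D, ∀ b ∈ D, a ≠ b → q a b ^ 2 ≠ 1 →
      σ (D ∪ A) a * σ (D ∪ A) b * q a b = -1 / 3 := by
    intro D hD hc a ha b hb n1 h
    have h3 : ({a, b} : Finset α).card ≤ 2 := card_le_two
    have h4 := le_card_sdiff ({a, b} : Finset α) D
    obtain ⟨c, hc'⟩ := card_pos.1 (show 0 < (D \ {a, b}).card by omega)
    simp only [mem_sdiff, mem_insert, mem_singleton, not_or] at hc'
    exact ((cas D hD hc a ha b hb c hc'.1 n1 (Ne.symm hc'.2.1) (Ne.symm hc'.2.2)).resolve_left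
      fun h' => h h'.1).2
  have one : ∀ a ∈ X, ∀ b ∈ X, a ≠ b → q a b ^ 2 = 1 := by
    intro a ha b hb n1
    by_contra h
    obtain ⟨G, g1, g2, g3⟩ := ext {a, b} (by simp [insert_subset_iff, ha, hb]) 5
      (card_le_two.trans (by norm_num)) le_rfl
    have aG : a ∈ G := g1 (by simp)
    have bG : b ∈ G := g1 (by simp)
    have h3 : ({a, b} : Finset α).card ≤ 2 := card_le_two
    have h4 := le_card_sdiff ({a, b} : Finset α) G
    obtain ⟨x, c, hx, hc, n2⟩ := one_lt_card_iff.1 (show 1 < (G \ {a, b}).card by omega)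
    simp only [mem_sdiff, mem_insert, mem_singleton, not_or] at hx hc
    have hxa : q x a ^ 2 ≠ 1 := by
      rwa [qs x a, adj a ha x (g2 hx.1) b hb (Ne.symm hx.2.1) n1]
    have hxb : q x b ^ 2 ≠ 1 := by
      rwa [qs x b, adj b hb x (g2 hx.1) a ha (Ne.symm hx.2.2) n1.symm, qs b a]
    have sub : ∀ y ∈ G, G.erase y ⊆ X ∧ (G.erase y).card = 4 ∧
        G.erase y ∪ A = (G ∪ A).erase y := fun y hy =>
      ⟨(erase_subset y G).trans g2, by rw [card_erase_of_mem hy, g3],
        by rw [erase_union_distrib, erase_eq_of_notMem (disjoint_left.1 hXA (g2 hy))]⟩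
    have tt : ∀ y ∈ G, ∀ p ∈ G, ∀ r ∈ G, p ≠ y → r ≠ y → p ≠ r → q p r ^ 2 ≠ 1 →
        σ ((G ∪ A).erase y) p * σ ((G ∪ A).erase y) r * q p r = -1 / 3 := by
      intro y hy p hp r hr m1 m2 m3 m4
      rw [← (sub y hy).2.2]
      exact third _ (sub y hy).1 (sub y hy).2.1 p (mem_erase.2 ⟨m1, hp⟩) r (mem_erase.2 ⟨m2, hr⟩)
        m3 m4
    have an := hσ.anti (G ∪ A) (by
        rw [card_union_of_disjoint (disjoint_of_subset_left g2 hXA)]; omega)
      x (mem_union_left _ hx.1) a (mem_union_left _ aG) b (mem_union_left _ bG)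
      (Ne.symm hx.2.1) (Ne.symm hx.2.2) n1
    unfold u at an
    have t1 := tt a aG x hx.1 b bG hx.2.1 n1.symm hx.2.2 hxb
    have t2 := tt b bG x hx.1 a aG hx.2.2 n1 hx.2.1 hxa
    have t3 := tt x hx.1 a aG b bG (Ne.symm hx.2.1) (Ne.symm hx.2.2) n1 h
    have s1 := tt c hc.1 x hx.1 b bG n2 (Ne.symm hc.2.2) hx.2.2 hxb
    have s2 := tt c hc.1 x hx.1 a aG n2 (Ne.symm hc.2.1) hx.2.1 hxa
    have s3 := tt c hc.1 a aG b bG (Ne.symm hc.2.1) (Ne.symm hc.2.2) n1 h
    have pp : ∀ y ∈ G, ∀ p ∈ G, p ≠ y → PM (σ ((G ∪ A).erase y) p) := fun y hy p hp m1 => by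
      rw [← (sub y hy).2.2]
      exact pm _ (sub y hy).1 (sub y hy).2.1 p (mem_erase.2 ⟨m1, hp⟩)
    exact five_signs (pp b bG x hx.1 hx.2.2) (pp b bG a aG n1) (pp x hx.1 a aG (Ne.symm hx.2.1))
      (pp c hc.1 x hx.1 n2) (pp c hc.1 a aG (Ne.symm hc.2.1)) (pp c hc.1 b bG (Ne.symm hc.2.2))
      an t1 t2 t3 s1 s2 s3
  have prd : ∀ a ∈ X, ∀ b ∈ X, ∀ c ∈ X, a ≠ b → a ≠ c → b ≠ c → q a b * q a c * q b c = 1 := by
    intro a ha b hb c hc n1 n2 n3
    obtain ⟨D, g1, g2, g3⟩ := ext {a, b, c} (by simp [insert_subset_iff, ha, hb, hc]) 4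
      (card_le_three.trans (by norm_num)) (by norm_num)
    rcases cas D g2 g3 a (g1 (by simp)) b (g1 (by simp)) c (g1 (by simp)) n1 n2 n3 with h | h
    · exact h.2
    · have := one a ha b hb n1
      rw [h.1] at this
      norm_num at this
  obtain ⟨o, ho⟩ := card_pos.1 (show 0 < X.card by omega)
  let T : Finset α := (X.erase o).filter fun a => q o a = -1
  have sgT : ∀ a ∈ X, a ≠ o → sg T a = q o a := by
    intro a ha n1
    unfold sg
    rcases (pow_eq_one_iff_of_ne_zero (two_ne_zero)).1 (one o ho a ha n1.symm) with h | ⟨h, -⟩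
    · rw [if_neg (fun h' => by
        have := (mem_filter.1 h').2
        rw [h] at this
        norm_num at this), h]
    · rw [if_pos (mem_filter.2 ⟨mem_erase.2 ⟨n1, ha⟩, h⟩), h]
  have sgo : sg T o = 1 := if_neg fun h => notMem_erase o X (mem_filter.1 h).1
  have qT : ∀ a ∈ X, ∀ b ∈ X, a ≠ b → q a b = sg T a * sg T b := by
    intro a ha b hb n1
    by_cases h1 : a = o
    · subst h1
      rw [sgo, one_mul, sgT b hb n1.symm]
    by_cases h2 : b = o
    · subst h2
      rw [sgo, mul_one, sgT a ha n1, qs]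
    rw [sgT a ha h1, sgT b hb h2]
    have p1 := prd o ho a ha b hb (Ne.symm h1) (Ne.symm h2) n1
    have p2 := one a ha b hb n1
    linear_combination (-q a b) * p1 + (q o a * q o b) * p2
  refine ⟨T, fun D hD hc e he v hv => ?_⟩
  have hc4 : D.card = 4 := by omega
  obtain ⟨a, b, c, n1, n2, n3, hE⟩ := card_eq_three.1 (show (D.erase e).card = 3 by
    rw [card_erase_of_mem he, hc4])
  have aE : a ∈ D.erase e := by rw [hE]; simp
  have bE : b ∈ D.erase e := by rw [hE]; simp
  have cE : c ∈ D.erase e := by rw [hE]; simp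
  have aD := mem_of_mem_erase aE
  have bD := mem_of_mem_erase bE
  have cD := mem_of_mem_erase cE
  have t := tri D hD hc4 a aD b bD c cD n1 n2 n3
  rw [qT a (hD aD) b (hD bD) n1, qT a (hD aD) c (hD cD) n2, qT b (hD bD) c (hD cD) n3] at t
  have t' : (sg T a * σ (D ∪ A) a) * (sg T b * σ (D ∪ A) b)
      + (sg T a * σ (D ∪ A) a) * (sg T c * σ (D ∪ A) c)
      + (sg T b * σ (D ∪ A) b) * (sg T c * σ (D ∪ A) c) = -1 := by linear_combination t
  by_contra hcon
  push Not at hcon
  have c1 := hcon a aE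
  have c2 := hcon b bE
  have c3 := hcon c cE
  rcases (sg_pm T a).mul (pm D hD hc4 a aD) with a1 | a1 <;>
    rcases (sg_pm T b).mul (pm D hD hc4 b bD) with a2 | a2 <;>
    rcases (sg_pm T c).mul (pm D hD hc4 c cD) with a3 | a3 <;>
    rcases hv with rfl | rfl <;> rw [a1, a2, a3] at t' <;>
    first | exact c1 a1 | exact c2 a2 | exact c3 a3 | norm_num at t'

theorem exists_cond_odd [Fintype α] {m : ℕ} (hm : 3 ≤ m) {σ : Finset α → α → ℚ}
    (hσ : Sig (m + 2) σ) (hn : Fintype.card α = 2 * (m + 2) + 1)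
    (hK : 2 * ∑ i ∈ range (m + 1), (Fintype.card α - 1).choose i
      ≤ (KK (m + 2) σ univ ∅).card) (A : Finset α) (hA : A.card = m) :
    ∃ T, Cond (m + 2) σ (univ \ A) A T := by
  have key : ∀ v : ℚ, PM v → ∀ T ∈ KK (m + 2) σ univ ∅, ∀ D : Finset α, D.card = m + 2 + 2 →
      ∀ e ∈ D, ∃ i ∈ D.erase e, sg T i * σ D i = v := by
    intro v hv T hT D hD e he
    have := (mem_KK.1 hT).2 D (subset_univ D) (by simpa using hD) e he v hv
    rwa [union_empty] at this
  obtain ⟨l, hl⟩ := exists_dual (d := m + 2) (by omega) (by omega) hσ (key 1 (Or.inl rfl))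
    (key (-1) (Or.inr rfl)) hK A (by omega)
  have rel : ∀ D : Finset α, D.card = m + 2 + 2 → ∀ e ∈ D,
      F (m + 2) (fun S => l (mon _ S)) (D.erase e) (σ D)
        = if A ⊆ D.erase e then -∏ i ∈ A, σ D i else 0 := fun D hD e he =>
    dual_rel (by omega) hl _ (by rw [card_erase_of_mem he]; omega) _
      (fun T hT => key 1 (Or.inl rfl) T hT D hD e he)
      (fun T hT => key (-1) (Or.inr rfl) T hT D hD e he)
  have van := vanish (A := A) (f := fun S => l (mon _ S)) hn hσ (by omega)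
    (fun t ht D hD e he h => by rw [rel D hD e he, if_neg fun h' => h (h' ht)])
  refine cond_of_tri hσ sdiff_disjoint hA
    (by rw [card_sdiff_of_subset (subset_univ A), card_univ]; omega)
    (fun a b => l (mon _ (insert a (insert b A)))) (fun a b => by rw [insert_comm]) ?_
  intro D hD hc a ha b hb c hc' n1 n2 n3
  have nA : ∀ y ∈ D, y ∉ A := fun y hy => (mem_sdiff.1 (hD hy)).2
  have h3 : ({a, b, c} : Finset α).card = 3 := card_eq_three.2 ⟨a, b, c, n1, n2, n3, rfl⟩
  have hs : ({a, b, c} : Finset α) ⊆ D := by simp [insert_subset_iff, ha, hb, hc']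
  obtain ⟨e, he⟩ := card_eq_one.1 (show (D \ {a, b, c}).card = 1 by
    rw [card_sdiff_of_subset hs]; omega)
  have eD : e ∈ D \ {a, b, c} := by rw [he]; exact mem_singleton_self e
  have hU : (D ∪ A).card = m + 2 + 2 := by
    rw [card_union_of_disjoint (disjoint_left.2 nA)]; omega
  have hB : (D ∪ A).erase e = insert a (insert b (insert c A)) := by
    rw [erase_union_distrib, erase_eq_of_notMem (nA e (mem_sdiff.1 eD).1), erase_eq, ← he,
      Finset.sdiff_sdiff_eq_self hs]
    ext z; simp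
  have r := rel _ hU e (mem_union_left _ (mem_sdiff.1 eD).1)
  have m1 : a ∉ insert b (insert c A) := by simp [n1, n2, nA a ha]
  have m2 : b ∉ insert c A := by simp [n3, nA b hb]
  have m3 : c ∉ A := nA c hc'
  have m4 : a ∉ insert c A := fun h => m1 (mem_insert_of_mem h)
  have m5 : a ∉ insert b A := by simp [n1, nA a ha]
  have cB : (insert a (insert b (insert c A))).card = m + 2 + 1 := by
    rw [card_insert_of_notMem m1, card_insert_of_notMem m2, card_insert_of_notMem m3, hA]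
  have hAB : A ⊆ insert a (insert b (insert c A)) := fun z hz => by simp [hz]
  rw [hB, if_pos hAB, F_top _ cB, sum_insert m1, sum_insert m2,
    sum_insert m3, sum_eq_zero, erase_insert m1, erase_insert_of_ne n1, erase_insert m2,
    erase_insert_of_ne n2, erase_insert_of_ne n3, erase_insert m3, prod_insert m2, prod_insert m3,
    prod_insert m4, prod_insert m3, prod_insert m5, prod_insert (nA b hb)] at r
  · have h2 : PM (∏ i ∈ A, σ (D ∪ A) i) := prod_induction _ PM (fun _ _ => PM.mul) PM.one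
      fun y hy => hσ.pm _ hU y (mem_union_right _ hy)
    simp only [smul_eq_mul, add_zero] at r
    refine mul_left_cancel₀ h2.ne_zero ?_
    linear_combination r
  · intro y hy
    rw [van _ (by rw [card_erase_of_mem (by simp [hy]), cB]; rfl)
      (fun h => notMem_erase y _ (h hy)), smul_zero]

end Pool.Agent.Lib.MP_a97014_co
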