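import Pool.Agent.Lib.MP_a97014_co.Topes
import Pool.Agent.Lib.MP_a97014_co.CountK
import Pool.Agent.Lib.MP_a97014_co.DefsK

/-!
The bound on the number of `k`-neighbourly reorientations.
-/

set_option autoImplicit false

namespace Pool.Agent.Lib.MP_a97014_co

open Finset

variable {n d : ℕ}

theorem IsNeighborly.card_lt {χ : (Fin (d + 1) → Fin n) → ℤ} (h : UniformChirotope χ) {k : ℕ}
    {R : Finset (Fin n)} (hR : IsNeighborly χ k R) {D : Finset (Fin n)} (hD : D.card = d + 2)
    {v : ℚ} (hv : PM v) : k < (D.filter fun i => sg R i * sig χ D i = v).card := by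
  obtain ⟨y, hy, hr⟩ := exists_enum D hD
  obtain ⟨ε, hε, hs⟩ := sig_eq h.alt D y hy (fun z => (hr z).symm)
  have key : ∀ i, sg R (y i) * sig χ D (y i) = ε * ((circuitSign χ R y i : ℤ) : ℚ) := by
    intro i
    rw [hs i]
    unfold sg circuitSign Th
    split_ifs <;> push_cast <;> ring
  have main : ∀ c : ℤ, ε * (c : ℚ) = v →
      (univ.filter fun i => circuitSign χ R y i = c).card
        ≤ (D.filter fun i => sg R i * sig χ D i = v).card := by
    intro c hc
    refine card_le_card_of_injOn y (fun i hi => ?_) hy.injOn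
    rw [mem_coe, mem_filter] at hi ⊢
    exact ⟨(hr _).1 ⟨i, rfl⟩, by rw [key, hi.2, hc]⟩
  obtain ⟨h1, h2⟩ := hR y hy
  rcases hv with rfl | rfl <;> rcases hε with rfl | rfl
  · exact h1.trans_le (main 1 (by norm_num))
  · exact h2.trans_le (main (-1) (by norm_num))
  · exact h2.trans_le (main (-1) (by norm_num))
  · exact h1.trans_le (main 1 (by norm_num))

theorem UniformChirotope.neighborly_le {χ : (Fin (d + 1) → Fin n) → ℤ} (h : UniformChirotope χ)
    {k : ℕ} (hk : 1 ≤ k) (hd : 2 * k ≤ d) (hn : 2 * d + 3 ≤ n + 2 * k) :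
    {R : Finset (Fin n) | IsNeighborly χ k R}.ncard
      ≤ 2 * ∑ i ∈ range (d + 1 - 2 * k), (n - 1).choose i := by
  classical
  have e : {R : Finset (Fin n) | IsNeighborly χ k R}
      = (univ.filter fun R : Finset (Fin n) => IsNeighborly χ k R : Finset (Finset (Fin n))) := by
    ext R; simp
  rw [e, Set.ncard_coe_finset]
  obtain ⟨c, rfl⟩ : ∃ c, d = c + 1 := ⟨d - 1, by omega⟩
  have := card_leK (α := Fin n) (d := c + 1) (k := k) (w := c + 1 + 2 - 2 * k) (by omega) hk
    (by omega) (by rw [Fintype.card_fin]; omega) h.sig_Sig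
    (K := univ.filter fun R : Finset (Fin n) => IsNeighborly χ k R)
    (fun R hR D hD => (mem_filter.1 hR).2.card_lt h hD (Or.inl rfl))
    (fun R hR D hD => (mem_filter.1 hR).2.card_lt h hD (Or.inr rfl))
  rw [Fintype.card_fin, show c + 1 + 2 - 2 * k - 1 = c + 1 + 1 - 2 * k by omega] at this
  exact this

end Pool.Agent.Lib.MP_a97014_co
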